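import Pool.Agent.Lib.MP_5d1ef1_an_SC.Arc

set_option autoImplicit false

/-!
# MP_5d1ef1_an, project SC: equal arcs of a Haar unitary
-/

namespace Pool.Agent.Lib.MP_5d1ef1_an_SC

open Filter Topology

universe u v w

variable {N : Type u} [CStarAlgebra N] {τ : N →ₗ[ℂ] ℂ}

/-- `haar_arcs` with `t i = 1 / k`, `c = ec (i / k)`, `d = 2 π / k` -/
theorem haar_eq (hτ : TracialVN τ) {u : N} (hu : IsHaar τ u) (k : ℕ) (hk : 0 < k) :
    ∃ q : Fin k → N, (∀ i, Pr (q i)) ∧ (∀ i j, i ≠ j → q i * q j = 0) ∧ ∑ i, q i = 1 ∧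
      (∀ i, τ (q i) = ((1 / k : ℝ) : ℂ)) ∧
      norm2 τ (u - ∑ i : Fin k, ec (((i : ℕ) : ℝ) / k) • q i) ≤ 2 * Real.pi / k := by
  have hk0 : (0 : ℝ) < k := by exact_mod_cast hk
  obtain ⟨q, q1, q2, q3, q4, q5, q6⟩ := haar_arcs hτ hu (fun _ : Fin k => (1 / k : ℝ))
    (fun _ => by positivity) (by
      rw [Finset.sum_const, Finset.card_univ, Fintype.card_fin, nsmul_eq_mul]
      field_simp)
  refine ⟨q, q1, q2, q3, q4, ?_⟩
  obtain ⟨-, -, -, -, hec, -, -⟩ := ec_props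
  have hstar : ∀ i, star u * q i = q i * star u := by
    intro i
    have h := congrArg star (q5 i)
    rw [star_mul, star_mul, (q1 i).sa] at h
    exact h.symm
  have hsum : u - ∑ i : Fin k, ec (((i : ℕ) : ℝ) / k) • q i =
      ∑ i : Fin k, (u - ec (((i : ℕ) : ℝ) / k) • (1 : N)) * q i := by
    have h1 : ∀ i : Fin k, (u - ec (((i : ℕ) : ℝ) / k) • (1 : N)) * q i =
        u * q i - ec (((i : ℕ) : ℝ) / k) • q i := by
      intro i
      rw [sub_mul, smul_mul_assoc, one_mul]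
    rw [Finset.sum_congr rfl fun i _ => h1 i, Finset.sum_sub_distrib, ← Finset.mul_sum, q3,
      mul_one]
  have hfil : ∀ i : Fin k, (∑ j ∈ Finset.univ.filter (· < i), (1 / k : ℝ)) =
      ((i : ℕ) : ℝ) / k := by
    intro i
    have h1 : (Finset.univ.filter (· < i)).card = (i : ℕ) := by
      rw [Finset.filter_gt_eq_Iio, Fin.card_Iio]
    rw [Finset.sum_const, h1, nsmul_eq_mul, mul_one_div]
  have hi : ∀ i : Fin k, norm2 τ ((u - ec (((i : ℕ) : ℝ) / k) • (1 : N)) * q i) ^ 2 ≤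
      (2 * Real.pi / k) ^ 2 * (1 / k) := by
    intro i
    refine q6 i _ _ (by positivity) fun s hs1 hs2 => ?_
    rw [hfil i] at hs1 hs2
    refine (hec s _).trans ?_
    rw [abs_of_nonneg (by linarith)]
    have h1 : s - ((i : ℕ) : ℝ) / k ≤ 1 / k := by linarith
    have h2 : 2 * Real.pi * (s - ((i : ℕ) : ℝ) / k) ≤ 2 * Real.pi * (1 / k) :=
      mul_le_mul_of_nonneg_left h1 (by positivity)
    rwa [mul_one_div] at h2
  have hsq : norm2 τ (u - ∑ i : Fin k, ec (((i : ℕ) : ℝ) / k) • q i) ^ 2 ≤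
      (2 * Real.pi / k) ^ 2 := by
    rw [hsum, norm2_sum_orth hτ]
    · refine (Finset.sum_le_sum fun i _ => hi i).trans (le_of_eq ?_)
      rw [Finset.sum_const, Finset.card_univ, Fintype.card_fin, nsmul_eq_mul]
      field_simp
    · intro i _ j _ hij
      rw [star_mul, (q1 i).sa]
      have h1 : q i * star (u - ec (((i : ℕ) : ℝ) / k) • (1 : N)) =
          star (u - ec (((i : ℕ) : ℝ) / k) • (1 : N)) * q i := by
        rw [star_sub, star_smul, star_one, mul_sub, sub_mul, hstar i, mul_smul_comm,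
          smul_mul_assoc, mul_one, one_mul]
      have h2 : q i * (u - ec (((j : ℕ) : ℝ) / k) • (1 : N)) =
          (u - ec (((j : ℕ) : ℝ) / k) • (1 : N)) * q i := by
        rw [mul_sub, sub_mul, q5 i, mul_smul_comm, smul_mul_assoc, mul_one, one_mul]
      rw [h1, mul_assoc, ← mul_assoc (q i), h2, mul_assoc, q2 i j hij, mul_zero, mul_zero]
  exact le_of_sq_le_sq hsq (by positivity)

end Pool.Agent.Lib.MP_5d1ef1_an_SC
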