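import Pool.Agent.Lib.MP_5d1ef1_an_SC.Cmp
import Pool.Agent.Lib.MP_5d1ef1_an_SC.ArcE

set_option autoImplicit false

/-!
# MP_5d1ef1_an, project SC: approximate conjugacy of Haar unitaries
-/

namespace Pool.Agent.Lib.MP_5d1ef1_an_SC

open Filter Topology

universe u v w

variable {N : Type u} [CStarAlgebra N] {τ : N →ₗ[ℂ] ℂ}

/-- two partitions of 1 with the same traces are conjugate: `g = ∑ v i`, `cmp_eq` -/
theorem part_conj (hN : II1 τ) {m : ℕ} {p q : Fin m → N} (hp : ∀ i, Pr (p i))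
    (hq : ∀ i, Pr (q i)) (hp' : ∀ i j, i ≠ j → p i * p j = 0)
    (hq' : ∀ i j, i ≠ j → q i * q j = 0) (hp1 : ∑ i, p i = 1) (hq1 : ∑ i, q i = 1)
    (h : ∀ i, τ (p i) = τ (q i)) :
    ∃ g ∈ unitary N, ∀ i, g * p i * star g = q i := by
  have h0 : ∀ i, ∃ v : N, star v * v = p i ∧ v * star v = q i := fun i =>
    cmp_eq hN (hp i) (hq i) (congrArg Complex.re (h i))
  choose v hv hv' using h0
  -- the supports
  have hvp : ∀ i, v i * p i = v i := by
    intro i
    have h1 := (pi_facts hN.toTracialVN (v := v i) (by rw [hv i]; exact hp i)).1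
    rwa [hv i] at h1
  have hqv : ∀ i, q i * v i = v i := by
    intro i
    rw [← hv' i, mul_assoc, hv i, hvp i]
  have hpv : ∀ i, p i * star (v i) = star (v i) := by
    intro i
    have h1 := congrArg star (hvp i)
    rwa [star_mul, (hp i).sa] at h1
  have hvq : ∀ i, star (v i) * q i = star (v i) := by
    intro i
    have h1 := congrArg star (hqv i)
    rwa [star_mul, (hq i).sa] at h1
  have h1 : ∀ i j, i ≠ j → star (v i) * v j = 0 := by
    intro i j hij
    rw [← hvq i, ← hqv j, mul_assoc, ← mul_assoc (q i), hq' i j hij, zero_mul, mul_zero]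
  have h2 : ∀ i j, i ≠ j → v i * star (v j) = 0 := by
    intro i j hij
    rw [← hvp i, ← hpv j, mul_assoc, ← mul_assoc (p i), hp' i j hij, zero_mul, mul_zero]
  have h3 : ∀ i j, i ≠ j → v j * p i = 0 := by
    intro i j hij
    rw [← hvp j, mul_assoc, hp' j i hij.symm, mul_zero]
  refine ⟨∑ i, v i, ?_, fun i => ?_⟩
  · rw [Unitary.mem_iff]
    constructor
    · rw [star_sum, Finset.sum_mul_sum, ← hp1]
      refine Finset.sum_congr rfl fun i _ => ?_
      rw [Finset.sum_eq_single i (fun j _ hj => h1 i j hj.symm)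
        (fun hi => absurd (Finset.mem_univ i) hi), hv i]
    · rw [star_sum, Finset.sum_mul_sum, ← hq1]
      refine Finset.sum_congr rfl fun i _ => ?_
      rw [Finset.sum_eq_single i (fun j _ hj => h2 i j hj.symm)
        (fun hi => absurd (Finset.mem_univ i) hi), hv' i]
  · rw [Finset.sum_mul, Finset.sum_eq_single i (fun j _ hj => h3 i j hj.symm)
      (fun hi => absurd (Finset.mem_univ i) hi), hvp i, star_sum, Finset.mul_sum,
      Finset.sum_eq_single i (fun j _ hj => h2 i j hj.symm)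
      (fun hi => absurd (Finset.mem_univ i) hi), hv' i]

/-- `haar_eq` for `u` and `v` with `4 π / k ≤ ε`, `part_conj`. -/
theorem haar_approx (hN : II1 τ) {u v : N} (hu : IsHaar τ u) (hv : IsHaar τ v) {ε : ℝ}
    (hε : 0 < ε) : ∃ g ∈ unitary N, norm2 τ (g * u * star g - v) ≤ ε := by
  have hτ := hN.toTracialVN
  obtain ⟨k, hk⟩ := exists_nat_gt (4 * Real.pi / ε)
  have hpi := Real.pi_pos
  have hk0 : (0 : ℝ) < k := lt_trans (by positivity) hk
  have hk1 : 0 < k := by exact_mod_cast hk0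
  have hk2 : 2 * Real.pi / k + 2 * Real.pi / k ≤ ε := by
    rw [← add_div, div_le_iff₀ hk0]
    rw [div_lt_iff₀ hε] at hk
    linarith
  obtain ⟨p, hp, hp', hp1, hpt, hpu⟩ := haar_eq hτ hu k hk1
  obtain ⟨q, hq, hq', hq1, hqt, hqv⟩ := haar_eq hτ hv k hk1
  obtain ⟨g, hg, hgp⟩ := part_conj hN hp hq hp' hq' hp1 hq1 fun i => by rw [hpt i, hqt i]
  refine ⟨g, hg, ?_⟩
  obtain ⟨c, hc⟩ : ∃ c : Fin k → ℂ, c = fun i : Fin k => ec (((i : ℕ) : ℝ) / k) :=
    ⟨_, rfl⟩
  have h1 : g * (∑ i, c i • p i) * star g = ∑ i, c i • q i := by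
    rw [Finset.mul_sum, Finset.sum_mul]
    refine Finset.sum_congr rfl fun i _ => ?_
    rw [mul_smul_comm, smul_mul_assoc, hgp i]
  have h2 : norm2 τ (g * u * star g - ∑ i, c i • q i) ≤ 2 * Real.pi / k := by
    rw [← h1, ← sub_mul, ← mul_sub, norm2_conj hτ hg, hc]
    exact hpu
  have h3 : norm2 τ (∑ i, c i • q i - v) ≤ 2 * Real.pi / k := by
    rw [norm2_sub_comm, hc]
    exact hqv
  exact (norm2_tri hτ _ _ _).trans ((add_le_add h2 h3).trans hk2)

end Pool.Agent.Lib.MP_5d1ef1_an_SC
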