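import Pool.Agent.Lib.MP_5d1ef1_an_SC.Sa
import Pool.Agent.Lib.MP_5d1ef1_an_SC.Cnj

set_option autoImplicit false

/-!
# MP_5d1ef1_an, project SC: Haar unitaries which almost commute with a selfadjoint element
-/

namespace Pool.Agent.Lib.MP_5d1ef1_an_SC

open Filter Topology

universe u v w

variable {N : Type u} [CStarAlgebra N] {τ : N →ₗ[ℂ] ℂ}

/-- `step_approx`; `haar_arcs` for `u` with `t i = τ (e i)` gives `q i` commuting with `u`;
`part_conj` gives a unitary `g` with `g * q i * star g = e i`; `w = g * u * star g` commutes with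
the `e i`, so `norm2 (w a - a w) ≤ 2 norm2 (a - ∑ s i e i)`. -/
theorem haar_almost (hN : II1 τ) {u a : N} (hu : IsHaar τ u) (ha : star a = a) {ε : ℝ}
    (hε : 0 < ε) : ∃ w : N, IsHaar τ w ∧ norm2 τ (w * a - a * w) ≤ ε := by
  have hτ : TracialVN τ := hN.toTracialVN
  obtain ⟨m, e, s, e1, e2, e3, -, e5⟩ := step_approx hτ ha (half_pos hε)
  have htr : ∀ i, τ (e i) = (((τ (e i)).re : ℝ) : ℂ) := by
    intro i
    rw [pr_tr hτ (e1 i), Complex.ofReal_re]
  obtain ⟨q, q1, q2, q3, q4, q5, -⟩ := haar_arcs hτ hu (fun i => (τ (e i)).re)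
    (fun i => pr_tr_nonneg hτ (e1 i)) (by
      rw [← Complex.re_sum, ← map_sum, e3, hτ.one, Complex.one_re])
  obtain ⟨g, hg, hgq⟩ := part_conj hN q1 e1 q2 e2 q3 e3 fun i => by
    rw [q4 i]
    exact (htr i).symm
  have hgg : star g * g = 1 := Unitary.star_mul_self_of_mem hg
  obtain ⟨w, hw⟩ : ∃ w, w = g * u * star g := ⟨_, rfl⟩
  have hwH : IsHaar τ w := by
    rw [hw]
    exact haar_conj hτ hu hg
  refine ⟨w, hwH, ?_⟩
  have hwe : ∀ i, w * e i = e i * w := by
    intro i
    rw [hw, ← hgq i]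
    calc g * u * star g * (g * q i * star g) = g * u * (star g * g) * q i * star g := by
          simp only [mul_assoc]
      _ = g * (u * q i) * star g := by
          rw [hgg, mul_one]
          simp only [mul_assoc]
      _ = g * q i * (star g * g) * u * star g := by
          rw [q5 i, hgg, mul_one]
          simp only [mul_assoc]
      _ = g * q i * star g * (g * u * star g) := by simp only [mul_assoc]
  obtain ⟨b, hb⟩ : ∃ b, b = ∑ i, (s i : ℂ) • e i := ⟨_, rfl⟩
  have hwb : w * b = b * w := by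
    rw [hb, Finset.mul_sum, Finset.sum_mul]
    refine Finset.sum_congr rfl fun i _ => ?_
    rw [mul_smul_comm, smul_mul_assoc, hwe i]
  rw [← hb] at e5
  have h1 : w * a - a * w = w * (a - b) - (a - b) * w := by
    rw [mul_sub, sub_mul, hwb]
    abel
  rw [h1]
  refine (norm2_sub_le hτ _ _).trans ?_
  rw [norm2_unit_mul hwH.mem, norm2_mul_unit hτ hwH.mem]
  linarith

end Pool.Agent.Lib.MP_5d1ef1_an_SC
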