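import Pool.Agent.Lib.MP_5d1ef1_an_SC.SpA

set_option autoImplicit false

/-!
# MP_5d1ef1_an, project SC: spectral projections: order properties
-/

namespace Pool.Agent.Lib.MP_5d1ef1_an_SC

open Filter Topology

universe u v w

variable {N : Type u} [CStarAlgebra N] {τ : N →ₗ[ℂ] ℂ}

/-- the cut-off functions are continuous -/
private theorem SpB_cont (O : Set ℂ) (n : ℕ) : Continuous fun z => (cut O n z : ℂ) :=
  Complex.continuous_ofReal.comp (cut_facts O n).1

private theorem SpB_norm (a : N) (O : Set ℂ) (n : ℕ) :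
    ‖cfc (fun z => (cut O n z : ℂ)) a‖ ≤ 1 := by
  refine norm_cfc_le zero_le_one fun z _ => ?_
  rw [Complex.norm_real, Real.norm_eq_abs, abs_of_nonneg ((cut_facts O n).2.1 z)]
  exact (cut_facts O n).2.2.1 z

/-- the products of the cut-off functions vanish on the spectrum -/
theorem sp_disj (hτ : TracialVN τ) {a p p' : N} (ha : IsStarNormal a) {O O' : Set ℂ}
    (h : ∀ z ∈ spectrum ℂ a, z ∈ O → z ∉ O') (hp : SP τ a O p) (hp' : SP τ a O' p') : p * p' = 0 := by
  have h1 := lim2_mul hτ hp.lim hp'.lim ⟨1, fun n => SpB_norm a O n⟩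
  have h2 : (fun n => cfc (fun z => (cut O n z : ℂ)) a * cfc (fun z => (cut O' n z : ℂ)) a) =
      fun _ => (0 : N) := by
    funext n
    rw [← cfc_mul _ _ a (SpB_cont O n).continuousOn (SpB_cont O' n).continuousOn]
    have h3 : Set.EqOn (fun z => (cut O n z : ℂ) * (cut O' n z : ℂ)) (fun _ => (0 : ℂ))
        (spectrum ℂ a) := by
      intro z hz
      by_cases h4 : z ∈ O
      · have h5 := (cut_facts O' n).2.2.2.2 z (h z hz h4)
        simp only [h5]
        simp
      · have h5 := (cut_facts O n).2.2.2.2 z h4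
        simp only [h5]
        simp
    rw [cfc_congr h3, cfc_const_zero]
  rw [h2] at h1
  exact lim2_unique hτ h1 (lim2_const 0)

/-- `x n = cfc (cut O n) a`, `y l = cfc (cut O' l) a`.  For fixed `n`,
`cut O n * (1 - cut O' l) ≤ n / l` pointwise (if `cut O' l z < 1` then `infDist z O'ᶜ < 1 / l` and
`cut O n z ≤ n * infDist z Oᶜ ≤ n / l`; `O'ᶜ` is nonempty and contained in `Oᶜ`); let `l → ∞`,
then `n → ∞`: `p * p' = p`, take stars. -/
theorem sp_le (hτ : TracialVN τ) {a p p' : N} (ha : IsStarNormal a) {O O' : Set ℂ}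
    (h : O ⊆ O') (hO' : O'ᶜ.Nonempty) (hp : SP τ a O p) (hp' : SP τ a O' p') :
    p * p' = p ∧ p' * p = p := by
  -- the pointwise inequality
  have hpt : ∀ (n l : ℕ), 1 ≤ l → ∀ z, cut O n z * (1 - cut O' l z) ≤ (n : ℝ) / l := by
    intro n l hl z
    have hl0 : (0 : ℝ) < l := by exact_mod_cast hl
    have f1 := (cut_facts O n).2.1 z
    have f2 := (cut_facts O' l).2.1 z
    have f3 := (cut_facts O' l).2.2.1 z
    have hnl : (0 : ℝ) ≤ (n : ℝ) / l := by positivity
    rcases le_or_gt 1 ((l : ℝ) * Metric.infDist z O'ᶜ) with h1 | h1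
    · have h2 : cut O' l z = 1 := by
        unfold cut
        exact min_eq_left h1
      rw [h2, sub_self, mul_zero]
      exact hnl
    · have h2 : Metric.infDist z Oᶜ ≤ Metric.infDist z O'ᶜ :=
        Metric.infDist_le_infDist_of_subset (Set.compl_subset_compl.2 h) hO'
      have h3 : Metric.infDist z O'ᶜ ≤ 1 / l := by
        rw [le_div_iff₀ hl0, mul_comm]
        exact h1.le
      have h4 : cut O n z ≤ (n : ℝ) / l := by
        have h5 : cut O n z ≤ n * Metric.infDist z Oᶜ := by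
          unfold cut
          exact min_le_right _ _
        have h6 : (n : ℝ) * Metric.infDist z Oᶜ ≤ n * (1 / l) :=
          mul_le_mul_of_nonneg_left (h2.trans h3) (Nat.cast_nonneg n)
        have h7 : (n : ℝ) * (1 / l) = (n : ℝ) / l := by ring
        linarith
      nlinarith
  have hxn : ∀ n, cfc (fun z => (cut O n z : ℂ)) a * p' = cfc (fun z => (cut O n z : ℂ)) a := by
    intro n
    have h1 := lim2_mul_left hτ (cfc (fun z => (cut O n z : ℂ)) a) hp'.lim
    refine lim2_unique hτ h1 ?_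
    have h2 : ∀ l : ℕ, 1 ≤ l → norm2 τ (cfc (fun z => (cut O n z : ℂ)) a *
        cfc (fun z => (cut O' l z : ℂ)) a - cfc (fun z => (cut O n z : ℂ)) a) ≤ (n : ℝ) / l := by
      intro l hl
      have hc1 := (SpB_cont O n).continuousOn (s := spectrum ℂ a)
      have hc2 := (SpB_cont O' l).continuousOn (s := spectrum ℂ a)
      have hc3 : ContinuousOn (fun z => (cut O n z : ℂ) * (cut O' l z : ℂ)) (spectrum ℂ a) :=
        hc1.mul hc2
      have hc4 : ContinuousOn (fun z => (cut O n z : ℂ) * (cut O' l z : ℂ) - (cut O n z : ℂ))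
        (spectrum ℂ a) := hc3.sub hc1
      rw [← cfc_mul _ _ a hc1 hc2,
        ← cfc_sub (fun z => (cut O n z : ℂ) * (cut O' l z : ℂ)) _ a hc3 hc1]
      refine norm2_cfc_le hτ ha hc4 (by positivity) fun z _ => ?_
      have f1 := (cut_facts O n).2.1 z
      have f3 := (cut_facts O' l).2.2.1 z
      have h3 : (cut O n z : ℂ) * (cut O' l z : ℂ) - (cut O n z : ℂ) =
          ((-(cut O n z * (1 - cut O' l z)) : ℝ) : ℂ) := by
        push_cast
        ring
      have h4 : 0 ≤ cut O n z * (1 - cut O' l z) := mul_nonneg f1 (by linarith)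
      show ‖(cut O n z : ℂ) * (cut O' l z : ℂ) - (cut O n z : ℂ)‖ ≤ (n : ℝ) / l
      rw [h3, Complex.norm_real, Real.norm_eq_abs, abs_neg, abs_of_nonneg h4]
      exact hpt n l hl z
    have h3 : Tendsto (fun l : ℕ => (n : ℝ) / l) atTop (𝓝 0) :=
      tendsto_const_div_atTop_nhds_zero_nat (n : ℝ)
    exact squeeze_zero' (Eventually.of_forall fun l => norm2_nonneg _)
      (eventually_atTop.2 ⟨1, h2⟩) h3
  have hpp : p * p' = p := by
    have h1 := lim2_mul_right hτ p' hp.lim
    simp only [hxn] at h1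
    exact lim2_unique hτ h1 hp.lim
  refine ⟨hpp, ?_⟩
  have h2 := congrArg star hpp
  rw [star_mul, hp.pr.sa, hp'.pr.sa] at h2
  exact h2

/-- If `p = 0` then `τ (cfc (cut O n) a) ≤ τ p = 0` for all `n` (increasing), so
`cfc (cut O n) a = 0` (it is `star b * b`), so `cut O n = 0` on the spectrum, against
`cut_tendsto`. -/
theorem sp_ne_zero (hτ : TracialVN τ) {a p : N} (ha : IsStarNormal a) {O : Set ℂ}
    (hO : IsOpen O) (hO' : Oᶜ.Nonempty) (hp : SP τ a O p) {z : ℂ} (hz : z ∈ spectrum ℂ a)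
    (hz' : z ∈ O) : p ≠ 0 := by
  intro h0
  obtain ⟨n, hn⟩ := cut_tendsto hO hO' hz'
  have hn1 := hn n le_rfl
  have hcont : ∀ k, ContinuousOn (cut O k) (spectrum ℂ a) := fun k =>
    (cut_facts O k).1.continuousOn
  have ht := lim2_tr hτ hp.lim
  rw [h0, map_zero] at ht
  have ht' : Tendsto (fun k => (τ (cfc (fun z => (cut O k z : ℂ)) a)).re) atTop (𝓝 0) := by
    have h1 := (Complex.continuous_re.tendsto 0).comp ht
    rw [Complex.zero_re] at h1
    exact h1
  have h2 : (τ (cfc (fun z => (cut O n z : ℂ)) a)).re ≤ 0 := by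
    refine ge_of_tendsto ht' (eventually_atTop.2 ⟨n, fun k hk => ?_⟩)
    exact tr_cfc_mono hτ ha (hcont n) (hcont k) fun z _ => cut_mono O hk z
  have h3 : norm2 τ (cfc (fun z => (cut O n z : ℂ)) a) ^ 2 ≤ 0 := by
    rw [norm2_cfc_sq hτ ha (SpB_cont O n).continuousOn]
    refine le_trans ?_ h2
    refine tr_cfc_mono hτ ha ?_ (hcont n) fun w _ => ?_
    · exact ((SpB_cont O n).norm.pow 2).continuousOn
    · have f1 := (cut_facts O n).2.1 w
      have f2 := (cut_facts O n).2.2.1 w
      show ‖(cut O n w : ℂ)‖ ^ 2 ≤ cut O n w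
      rw [Complex.norm_real, Real.norm_eq_abs, abs_of_nonneg f1]
      nlinarith
  have h4 : norm2 τ (cfc (fun z => (cut O n z : ℂ)) a) = 0 := by
    have h5 := norm2_nonneg (τ := τ) (cfc (fun z => (cut O n z : ℂ)) a)
    nlinarith
  have h5 := eq_zero_of_norm2 hτ h4
  have h6 := norm_apply_le_norm_cfc (fun z => (cut O n z : ℂ)) a hz (SpB_cont O n).continuousOn ha
  rw [h5, norm_zero] at h6
  have h7 : ‖(cut O n z : ℂ)‖ ≤ 0 := h6
  rw [hn1] at h7
  simp at h7
  linarith

end Pool.Agent.Lib.MP_5d1ef1_an_SC
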