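import Pool.Agent.Lib.MP_5d1ef1_an_SC.HInt
import Pool.Agent.Lib.MP_5d1ef1_an_SC.SpB

set_option autoImplicit false

/-!
# MP_5d1ef1_an, project SC: arcs
-/

namespace Pool.Agent.Lib.MP_5d1ef1_an_SC

open Filter Topology

universe u v w

variable {N : Type u} [CStarAlgebra N] {τ : N →ₗ[ℂ] ℂ}

/-- the open arc between the angles `2 π α` and `2 π β`, thickened to an open subset of the plane:
the complement of the closed complementary arc -/
def arcO (α β : ℝ) : Set ℂ := (ec '' Set.Icc β (α + 1))ᶜ

/-- For `α ≤ β ≤ α + 1`: `arcO` is open with nonempty complement, and `ec t ∈ arcO` iff `t` is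
congruent modulo 1 to a number in the open interval `(α, β)`. -/
theorem arcO_facts {α β : ℝ} (h1 : α ≤ β) (h2 : β ≤ α + 1) :
    IsOpen (arcO α β) ∧ (arcO α β)ᶜ.Nonempty ∧
      ∀ t, ec t ∈ arcO α β ↔ ∃ k : ℤ, α < t + k ∧ t + k < β := by
  obtain ⟨hc, -, -, hper, -, heq, -⟩ := ec_props
  have hp : Function.Periodic ec 1 := hper
  have hk : ∀ (t : ℝ) (k : ℤ), ec (t + k) = ec t := by
    intro t k
    have h := hp.int_mul k t
    rwa [mul_one] at h
  refine ⟨?_, ?_, ?_⟩
  · exact (isCompact_Icc.image hc).isClosed.isOpen_compl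
  · unfold arcO
    rw [compl_compl]
    exact (Set.nonempty_Icc.2 h2).image ec
  · intro t
    unfold arcO
    rw [Set.mem_compl_iff, Set.mem_image]
    constructor
    · intro h
      refine ⟨⌊α - t⌋ + 1, ?_, ?_⟩
      · have := Int.lt_floor_add_one (α - t)
        push_cast
        linarith
      · by_contra h3
        push Not at h3
        refine h ⟨t + ((⌊α - t⌋ + 1 : ℤ) : ℝ), ⟨h3, ?_⟩, hk _ _⟩
        have := Int.floor_le (α - t)
        push_cast
        linarith
    · rintro ⟨k, h3, h4⟩ ⟨s, ⟨h5, h6⟩, h7⟩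
      obtain ⟨k', h8⟩ := heq s t h7
      have h9 : (k : ℝ) < k' := by linarith
      have h10 : (k' : ℝ) < k + 1 := by linarith
      have h11 : k < k' := by exact_mod_cast h9
      have h12 : k' < k + 1 := by exact_mod_cast h10
      omega

end Pool.Agent.Lib.MP_5d1ef1_an_SC
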