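import Pool.Agent.Lib.MP_5d1ef1_an_SC.ArA

set_option autoImplicit false

/-!
# MP_5d1ef1_an, project SC: the trace of an arc
-/

namespace Pool.Agent.Lib.MP_5d1ef1_an_SC

open Filter Topology

universe u v w

variable {N : Type u} [CStarAlgebra N] {τ : N →ₗ[ℂ] ℂ}

/-- the trace of the spectral projection of an arc: limit of `∫ cut n (ec t) dt`, dominated
convergence (`cut_tendsto`); the integral over one period may be taken over `[α, α + 1]`. -/
theorem arc_tr (hτ : TracialVN τ) {u p : N} (hu : IsHaar τ u) {α β : ℝ} (h1 : α ≤ β)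
    (h2 : β ≤ α + 1) (hp : SP τ u (arcO α β) p) : τ p = ((β - α : ℝ) : ℂ) := by
  obtain ⟨hO, hOc, hmem⟩ := arcO_facts h1 h2
  obtain ⟨hec, -, -, hper, -⟩ := ec_props
  have hcont : ∀ n, Continuous fun t : ℝ => (cut (arcO α β) n (ec t) : ℂ) := fun n =>
    Complex.continuous_ofReal.comp ((cut_facts (arcO α β) n).1.comp hec)
  have hI : ∀ n, τ (cfc (fun z => (cut (arcO α β) n z : ℂ)) u) =
      ∫ t in α..β, (cut (arcO α β) n (ec t) : ℂ) := by
    intro n
    refine (haar_int hτ hu (f := fun z => (cut (arcO α β) n z : ℂ))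
      (Complex.continuous_ofReal.comp (cut_facts (arcO α β) n).1)).trans ?_
    have hp1 : Function.Periodic (fun t : ℝ => (cut (arcO α β) n (ec t) : ℂ)) 1 := fun t => by
      simp only [hper]
    have h3 := hp1.intervalIntegral_add_eq 0 α
    rw [zero_add] at h3
    have h4 : ∫ t in β..(α + 1), (cut (arcO α β) n (ec t) : ℂ) = 0 := by
      rw [intervalIntegral.integral_congr (g := fun _ => (0 : ℂ))]
      · simp
      · intro t ht
        rw [Set.uIcc_of_le h2] at ht
        have hnot : ec t ∉ arcO α β := fun h => h ⟨t, ht, rfl⟩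
        simp [(cut_facts (arcO α β) n).2.2.2.2 _ hnot]
    have h5 := intervalIntegral.integral_add_adjacent_intervals
      (μ := MeasureTheory.volume)
      ((hcont n).intervalIntegrable α β) ((hcont n).intervalIntegrable β (α + 1))
    rw [h4, add_zero] at h5
    exact h3.trans h5.symm
  have hlim := lim2_tr hτ hp.lim
  simp only [hI] at hlim
  have hlim2 : Tendsto (fun n : ℕ => ∫ t in α..β, (cut (arcO α β) n (ec t) : ℂ)) atTop
      (𝓝 (∫ _ in α..β, (1 : ℂ))) := by
    refine intervalIntegral.tendsto_integral_filter_of_dominated_convergence (fun _ => 1)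
      ?_ ?_ ?_ ?_
    · exact Eventually.of_forall fun n => (hcont n).aestronglyMeasurable
    · refine Eventually.of_forall fun n => MeasureTheory.ae_of_all _ fun t _ => ?_
      rw [Complex.norm_real, Real.norm_eq_abs, abs_of_nonneg ((cut_facts (arcO α β) n).2.1 _)]
      exact (cut_facts (arcO α β) n).2.2.1 _
    · exact intervalIntegrable_const
    · have hne : ∀ᵐ t : ℝ, t ≠ β := by
        rw [MeasureTheory.ae_iff]
        simp
      filter_upwards [hne] with t ht hmem'
      rw [Set.uIoc_of_le h1] at hmem'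
      have hlt : t < β := lt_of_le_of_ne hmem'.2 ht
      obtain ⟨n0, hn0⟩ := cut_tendsto hO hOc ((hmem t).2 ⟨0, by simpa using hmem'.1, by
        simpa using hlt⟩)
      refine tendsto_const_nhds.congr' ?_
      filter_upwards [eventually_ge_atTop n0] with n hn
      rw [hn0 n hn, Complex.ofReal_one]
  rw [tendsto_nhds_unique hlim hlim2]
  simp

end Pool.Agent.Lib.MP_5d1ef1_an_SC
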