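import Pool.Agent.Lib.MP_5d1ef1_an_SC.ArB

set_option autoImplicit false

/-!
# MP_5d1ef1_an, project SC: arcs of a Haar unitary
-/

namespace Pool.Agent.Lib.MP_5d1ef1_an_SC

open Filter Topology

universe u v w

variable {N : Type u} [CStarAlgebra N] {τ : N →ₗ[ℂ] ℂ}

/-- The spectral projections of consecutive arcs of lengths `t i`.  They are orthogonal
(`sp_disj`) with traces `t i`, so their sum is a projection with trace 1, hence it is 1
(`1 - sum` is a projection with trace 0, `hτ.faithful`). -/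
theorem haar_arcs (hτ : TracialVN τ) {u : N} (hu : IsHaar τ u) {m : ℕ} (t : Fin m → ℝ)
    (ht : ∀ i, 0 ≤ t i) (hs : ∑ i, t i = 1) :
    ∃ q : Fin m → N, (∀ i, Pr (q i)) ∧ (∀ i j, i ≠ j → q i * q j = 0) ∧ ∑ i, q i = 1 ∧
      (∀ i, τ (q i) = ((t i : ℝ) : ℂ)) ∧ (∀ i, u * q i = q i * u) ∧
      ∀ (i : Fin m) (c : ℂ) (d : ℝ), 0 ≤ d →
        (∀ s : ℝ, (∑ j ∈ Finset.univ.filter (· < i), t j) ≤ s →
          s ≤ (∑ j ∈ Finset.univ.filter (· < i), t j) + t i → ‖ec s - c‖ ≤ d) →
        norm2 τ ((u - c • (1 : N)) * q i) ^ 2 ≤ d ^ 2 * t i := by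
  classical
  obtain ⟨hec, hec1, -, hecper, -, -, hecsurj⟩ := ec_props
  have hn : IsStarNormal u := by
    refine ⟨?_⟩
    have h1 := hu.mem
    rw [Unitary.mem_iff] at h1
    show star u * u = u * star u
    rw [h1.1, h1.2]
  obtain ⟨a, ha⟩ : ∃ a : Fin m → ℝ, a = fun i => ∑ j ∈ Finset.univ.filter (· < i), t j :=
    ⟨_, rfl⟩
  have hai : ∀ i, (∑ j ∈ Finset.univ.filter (· < i), t j) = a i := fun i => by rw [ha]
  simp only [hai]
  have ha0 : ∀ i, 0 ≤ a i := by
    intro i
    rw [← hai]
    exact Finset.sum_nonneg fun j _ => ht j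
  -- the partial sum up to and including `i`
  have hins : ∀ i, a i + t i = ∑ j ∈ Finset.univ.filter (· ≤ i), t j := by
    intro i
    have h1 : Finset.univ.filter (fun j : Fin m => j ≤ i)
        = insert i (Finset.univ.filter (fun j : Fin m => j < i)) := by
      ext j
      simp only [Finset.mem_filter, Finset.mem_univ, true_and, Finset.mem_insert]
      exact le_iff_eq_or_lt
    rw [h1, Finset.sum_insert (by simp), hai, add_comm]
  have hb1 : ∀ i, a i + t i ≤ 1 := by
    intro i
    rw [hins, ← hs]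
    exact Finset.sum_le_sum_of_subset_of_nonneg (Finset.filter_subset _ _) fun j _ _ => ht j
  have hlt : ∀ i j, i < j → a i + t i ≤ a j := by
    intro i j hij
    rw [hins, ← hai j]
    refine Finset.sum_le_sum_of_subset_of_nonneg ?_ fun j _ _ => ht j
    intro k hk
    simp only [Finset.mem_filter, Finset.mem_univ, true_and] at hk ⊢
    exact lt_of_le_of_lt hk hij
  have hab : ∀ i, a i ≤ a i + t i := fun i => by linarith [ht i]
  have hba : ∀ i, a i + t i ≤ a i + 1 := fun i => by linarith [hb1 i, ha0 i]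
  choose q hq using fun i => exists_sp hτ hn (arcO (a i) (a i + t i))
  have hspec : ∀ z ∈ spectrum ℂ u, ∃ s, z = ec s := by
    intro z hz
    have h1 : z ∈ Metric.sphere (0 : ℂ) 1 := spectrum.subset_circle_of_unitary hu.mem hz
    obtain ⟨s, -, -, h2⟩ := hecsurj z (by simpa using h1) 0
    exact ⟨s, h2⟩
  have hdis : ∀ i j, i < j → ∀ s, ec s ∈ arcO (a i) (a i + t i) →
      ec s ∈ arcO (a j) (a j + t j) → False := by
    intro i j hij s h1 h2
    obtain ⟨k, hk1, hk2⟩ := ((arcO_facts (hab i) (hba i)).2.2 s).1 h1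
    obtain ⟨l, hl1, hl2⟩ := ((arcO_facts (hab j) (hba j)).2.2 s).1 h2
    have h3 := ha0 i
    have h4 := ha0 j
    have h5 := hb1 i
    have h6 := hb1 j
    have h7 : ((k - l : ℤ) : ℝ) < 1 := by push_cast; linarith
    have h8 : (-1 : ℝ) < ((k - l : ℤ) : ℝ) := by push_cast; linarith
    have h9 : k - l < 1 := by exact_mod_cast h7
    have h10 : -1 < k - l := by exact_mod_cast h8
    have h11 : k = l := by omega
    subst h11
    have h12 := hlt i j hij
    linarith
  have hort : ∀ i j, i ≠ j → q i * q j = 0 := by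
    intro i j hij
    refine sp_disj hτ hn ?_ (hq i) (hq j)
    intro z hz h1 h2
    obtain ⟨s, rfl⟩ := hspec z hz
    rcases lt_or_gt_of_ne hij with h | h
    · exact hdis i j h s h1 h2
    · exact hdis j i h s h2 h1
  have htr : ∀ i, τ (q i) = ((t i : ℝ) : ℂ) := by
    intro i
    rw [arc_tr hτ hu (hab i) (hba i) (hq i)]
    congr 1
    ring
  have hsum : ∑ i, q i = 1 := by
    have h1 : star (∑ i, q i) = ∑ i, q i := by
      rw [star_sum]
      exact Finset.sum_congr rfl fun i _ => (hq i).pr.sa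
    have h2 : (∑ i, q i) * (∑ i, q i) = ∑ i, q i := by
      rw [Finset.sum_mul]
      refine Finset.sum_congr rfl fun i _ => ?_
      rw [Finset.mul_sum, Finset.sum_eq_single i]
      · exact (hq i).pr.idem
      · intro j _ hj
        exact hort i j (Ne.symm hj)
      · intro h
        exact absurd (Finset.mem_univ _) h
    have h3 : star (1 - ∑ i, q i) * (1 - ∑ i, q i) = 1 - ∑ i, q i := by
      rw [star_sub, star_one, h1, sub_mul, mul_sub, mul_sub, h2]
      simp
    have h4 : τ (1 - ∑ i, q i) = 0 := by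
      rw [map_sub, map_sum, hτ.one, Finset.sum_congr rfl fun i _ => htr i, ← Complex.ofReal_sum,
        hs]
      simp
    have h5 := hτ.faithful (1 - ∑ i, q i) (by rw [h3]; exact h4)
    exact (sub_eq_zero.1 h5).symm
  refine ⟨q, fun i => (hq i).pr, hort, hsum, htr, ?_, ?_⟩
  · intro i
    refine (hq i).comm u rfl ?_
    have h1 := hu.mem
    rw [Unitary.mem_iff] at h1
    rw [h1.1, h1.2]
  · intro i c d hd hcd
    have h1 := (hq i).est (fun z => z - c) d (by fun_prop) hd ?_
    · have h2 : cfc (fun z : ℂ => z - c) u = u - c • (1 : N) := by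
        rw [cfc_sub (fun z : ℂ => z) (fun _ => c) u, cfc_id' ℂ u, cfc_const c u,
          Algebra.algebraMap_eq_smul_one]
      rw [h2, htr i, Complex.ofReal_re] at h1
      exact h1
    · intro z hz hzO
      obtain ⟨s, rfl⟩ := hspec z hz
      obtain ⟨k, hk1, hk2⟩ := ((arcO_facts (hab i) (hba i)).2.2 s).1 hzO
      have hper : Function.Periodic ec 1 := fun x => hecper x
      have h3 : ec (s + k) = ec s := by
        have h4 := (hper.int_mul k) s
        rwa [mul_one] at h4
      have h5 := hcd (s + k) hk1.le hk2.le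
      rw [h3] at h5
      exact h5

end Pool.Agent.Lib.MP_5d1ef1_an_SC
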