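import Pool.Agent.Lib.MP_5d1ef1_an_SC.Lm

set_option autoImplicit false

/-!
# MP_5d1ef1_an, project SC: the Baire theorem for Haar unitaries
-/

namespace Pool.Agent.Lib.MP_5d1ef1_an_SC

open Filter Topology

universe u v w

variable {N : Type u} [CStarAlgebra N] {τ : N →ₗ[ℂ] ℂ}

/-- Baire: the Haar unitaries are complete for the 2-norm (`lim2_cauchy`, `lim2_haar`; unitaries have
norm at most 1).  Nested balls, or `MetricSpace` on a subtype and the theorem of Mathlib. -/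
theorem baire (hτ : TracialVN τ) {u : N} (hu : IsHaar τ u) {E : ℕ → Set N}
    (hE : ∀ n, Nwd τ (E n)) : ∃ v : N, IsHaar τ v ∧ ∀ n, v ∉ E n := by
  have step : ∀ (n : ℕ) (p : {p : N × ℝ // IsHaar τ p.1 ∧ 0 < p.2}),
      ∃ q : {p : N × ℝ // IsHaar τ p.1 ∧ 0 < p.2},
        norm2 τ (q.1.1 - p.1.1) ≤ p.1.2 / 2 ∧ q.1.2 ≤ p.1.2 / 2 ∧
          ∀ v, IsHaar τ v → norm2 τ (v - q.1.1) ≤ q.1.2 → v ∉ E n := by
    rintro n ⟨⟨v, r⟩, hv, hr⟩
    obtain ⟨v', hv', h1, δ, hδ, h2⟩ := hE n v hv (r / 2) (half_pos hr)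
    refine ⟨⟨⟨v', min (δ / 2) (r / 2)⟩, hv', lt_min (half_pos hδ) (half_pos hr)⟩, h1.le,
      min_le_right _ _, fun w hw h3 => h2 w hw ?_⟩
    exact (h3.trans (min_le_left _ _)).trans_lt (half_lt_self hδ)
  choose f hf1 hf2 hf3 using step
  obtain ⟨s, hs0, hs⟩ : ∃ s : ℕ → {p : N × ℝ // IsHaar τ p.1 ∧ 0 < p.2},
      (s 0).1.2 = 1 ∧ ∀ n, s (n + 1) = f n (s n) :=
    ⟨fun n => Nat.rec ⟨(u, 1), hu, one_pos⟩ (fun n p => f n p) n, rfl, fun _ => rfl⟩
  have hr : ∀ n, (s (n + 1)).1.2 ≤ (s n).1.2 / 2 := fun n => by rw [hs n]; exact hf2 n (s n)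
  have hd : ∀ n, norm2 τ ((s (n + 1)).1.1 - (s n).1.1) ≤ (s n).1.2 / 2 := fun n => by
    rw [hs n]; exact hf1 n (s n)
  have hpos : ∀ n, 0 < (s n).1.2 := fun n => (s n).2.2
  have h1 : ∀ n k, norm2 τ ((s (n + k)).1.1 - (s n).1.1) ≤ (s n).1.2 - (s (n + k)).1.2 := by
    intro n k
    induction k with
    | zero => rw [add_zero, sub_self, sub_self, norm2_zero]
    | succ k ih =>
      have h3 := norm2_tri hτ (s (n + k + 1)).1.1 (s (n + k)).1.1 (s n).1.1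
      have h4 := hd (n + k)
      have h5 := hr (n + k)
      rw [← add_assoc]
      linarith
  have h1' : ∀ n m, n ≤ m → norm2 τ ((s m).1.1 - (s n).1.1) ≤ (s n).1.2 := by
    intro n m hnm
    obtain ⟨k, rfl⟩ := Nat.exists_eq_add_of_le hnm
    have h3 := h1 n k
    have h4 := hpos (n + k)
    linarith
  have h2 : Tendsto (fun n => (s n).1.2) atTop (𝓝 0) := by
    have h3 : ∀ n, (s n).1.2 ≤ (1 / 2 : ℝ) ^ n := by
      intro n
      induction n with
      | zero => rw [hs0, pow_zero]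
      | succ n ih =>
        have h4 := hr n
        rw [pow_succ]
        linarith
    exact squeeze_zero (fun n => (hpos n).le) h3
      (tendsto_pow_atTop_nhds_zero_of_lt_one (by norm_num) (by norm_num))
  have hbd : ∃ C : ℝ, ∀ n, ‖(s n).1.1‖ ≤ C := by
    refine ⟨‖(1 : N)‖, fun n => ?_⟩
    have h3 := CStarRing.norm_mem_unitary_mul (1 : N) (s n).2.1.mem
    rw [mul_one] at h3
    exact h3.le
  obtain ⟨v, hv⟩ := lim2_cauchy hτ (x := fun n => (s n).1.1) hbd (by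
    intro ε hε
    obtain ⟨n₀, hn₀⟩ := (h2.eventually (gt_mem_nhds (half_pos hε))).exists
    refine ⟨n₀, fun m hm n hn => ?_⟩
    have h3 := norm2_tri hτ (s m).1.1 (s n₀).1.1 (s n).1.1
    have h4 := h1' n₀ m hm
    have h5 := h1' n₀ n hn
    rw [norm2_sub_comm] at h5
    linarith)
  have hvH : IsHaar τ v := lim2_haar hτ hv fun n => (s n).2.1
  refine ⟨v, hvH, fun n => ?_⟩
  have h3 : norm2 τ (v - (s (n + 1)).1.1) ≤ (s (n + 1)).1.2 := by
    have h4 : Tendsto (fun m => norm2 τ ((s m).1.1 - v) + (s (n + 1)).1.2) atTop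
        (𝓝 (0 + (s (n + 1)).1.2)) := Tendsto.add hv tendsto_const_nhds
    rw [zero_add] at h4
    refine ge_of_tendsto h4 ((eventually_ge_atTop (n + 1)).mono fun m hm => ?_)
    have h5 := norm2_tri hτ v (s m).1.1 (s (n + 1)).1.1
    have h6 := h1' (n + 1) m hm
    rw [norm2_sub_comm v (s m).1.1] at h5
    linarith
  rw [hs n] at h3
  exact hf3 n (s n) v hvH h3

/-- countable unions of meagre sets (`Nat.pair`), `baire` -/
theorem baire_mgr (hτ : TracialVN τ) {u : N} (hu : IsHaar τ u) {S : ℕ → Set N}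
    (hS : ∀ n, Mgr τ (S n)) : ∃ v : N, IsHaar τ v ∧ ∀ n, v ∉ S n := by
  choose F hF1 hF2 using hS
  obtain ⟨v, hv, hv'⟩ := baire hτ hu (E := fun m => F m.unpair.1 m.unpair.2) fun m => hF1 _ _
  refine ⟨v, hv, fun n hn => ?_⟩
  obtain ⟨k, hk⟩ := Set.mem_iUnion.1 (hF2 n hn)
  have h1 := hv' (Nat.pair n k)
  rw [Nat.unpair_pair] at h1
  exact h1 hk

end Pool.Agent.Lib.MP_5d1ef1_an_SC
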