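import Pool.Agent.Lib.MP_5d1ef1_an_SC.Lm

set_option autoImplicit false

/-!
# MP_5d1ef1_an, project SC: the trace and the continuous functional calculus
-/

namespace Pool.Agent.Lib.MP_5d1ef1_an_SC

open Filter Topology

universe u v w

variable {N : Type u} [CStarAlgebra N] {τ : N →ₗ[ℂ] ℂ}

/-- `cfc r a = star b * b` with `b = cfc (√r) a`; `hτ.pos`. -/
theorem tr_cfc_nonneg (hτ : TracialVN τ) {a : N} (ha : IsStarNormal a) {r : ℂ → ℝ}
    (hr : ContinuousOn r (spectrum ℂ a)) (h0 : ∀ z ∈ spectrum ℂ a, 0 ≤ r z) :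
    0 ≤ (τ (cfc (fun z => (r z : ℂ)) a)).re := by
  have hs : ContinuousOn (fun z => ((Real.sqrt (r z) : ℝ) : ℂ)) (spectrum ℂ a) :=
    Complex.continuous_ofReal.comp_continuousOn (Real.continuous_sqrt.comp_continuousOn hr)
  have h1 : star (cfc (fun z => ((Real.sqrt (r z) : ℝ) : ℂ)) a) *
      cfc (fun z => ((Real.sqrt (r z) : ℝ) : ℂ)) a = cfc (fun z => (r z : ℂ)) a := by
    rw [← cfc_star, ← cfc_mul _ _ a hs.star hs]
    apply cfc_congr
    intro z hz
    simp [← Complex.ofReal_mul, Real.mul_self_sqrt (h0 z hz)]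
  rw [← h1]
  exact (hτ.pos _).1

theorem tr_cfc_mono (hτ : TracialVN τ) {a : N} (ha : IsStarNormal a) {r s : ℂ → ℝ}
    (hr : ContinuousOn r (spectrum ℂ a)) (hs : ContinuousOn s (spectrum ℂ a))
    (h : ∀ z ∈ spectrum ℂ a, r z ≤ s z) :
    (τ (cfc (fun z => (r z : ℂ)) a)).re ≤ (τ (cfc (fun z => (s z : ℂ)) a)).re := by
  have h1 := tr_cfc_nonneg hτ ha (hs.sub hr) (fun z hz => sub_nonneg.2 (h z hz))
  have h2 : cfc (fun z => ((s z - r z : ℝ) : ℂ)) a =
      cfc (fun z => (s z : ℂ)) a - cfc (fun z => (r z : ℂ)) a := by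
    rw [← cfc_sub (fun z => (s z : ℂ)) (fun z => (r z : ℂ)) a
      (Complex.continuous_ofReal.comp_continuousOn hs)
      (Complex.continuous_ofReal.comp_continuousOn hr)]
    apply cfc_congr
    intro z _
    simp
  simp only [Pi.sub_apply] at h1
  rw [h2, map_sub, Complex.sub_re] at h1
  linarith

theorem norm2_cfc_sq (hτ : TracialVN τ) {a : N} (ha : IsStarNormal a) {f : ℂ → ℂ}
    (hf : ContinuousOn f (spectrum ℂ a)) :
    norm2 τ (cfc f a) ^ 2 = (τ (cfc (fun z => ((‖f z‖ ^ 2 : ℝ) : ℂ)) a)).re := by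
  rw [norm2_sq hτ, ← cfc_star, ← cfc_mul _ _ a hf.star hf]
  congr 2
  apply cfc_congr
  intro z _
  have := Complex.conj_mul' (f z)
  simp only [Complex.star_def] at *
  rw [this]
  push_cast
  rfl

theorem norm2_cfc_le (hτ : TracialVN τ) {a : N} (ha : IsStarNormal a) {f : ℂ → ℂ}
    (hf : ContinuousOn f (spectrum ℂ a)) {c : ℝ} (hc : 0 ≤ c)
    (h : ∀ z ∈ spectrum ℂ a, ‖f z‖ ≤ c) : norm2 τ (cfc f a) ≤ c := by
  have h1 : norm2 τ (cfc f a) ^ 2 ≤ c ^ 2 := by
    rw [norm2_cfc_sq hτ ha hf]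
    have h2 := tr_cfc_mono hτ ha (r := fun z => ‖f z‖ ^ 2) (s := fun _ => c ^ 2)
      (hf.norm.pow 2) continuousOn_const (fun z hz => by
        have h3 := h z hz
        have h4 := norm_nonneg (f z)
        nlinarith)
    refine h2.trans ?_
    rw [cfc_const (((c ^ 2 : ℝ) : ℂ)) a]
    rw [Algebra.algebraMap_eq_smul_one, map_smul, hτ.one, smul_eq_mul, mul_one,
      Complex.ofReal_re]
  exact le_of_sq_le_sq h1 hc

/-- the cut-off functions are continuous, between 0 and 1, increasing in `n`, zero outside `O` -/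
theorem cut_facts (O : Set ℂ) (n : ℕ) :
    Continuous (cut O n) ∧ (∀ z, 0 ≤ cut O n z) ∧ (∀ z, cut O n z ≤ 1) ∧
      (∀ z, cut O n z ≤ cut O (n + 1) z) ∧ ∀ z ∉ O, cut O n z = 0 := by
  refine ⟨?_, ?_, ?_, ?_, ?_⟩
  · unfold cut
    exact continuous_const.min (continuous_const.mul (Metric.continuous_infDist_pt _))
  · intro z
    unfold cut
    exact le_min zero_le_one (mul_nonneg (Nat.cast_nonneg _) Metric.infDist_nonneg)
  · intro z
    exact min_le_left _ _
  · intro z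
    unfold cut
    apply min_le_min le_rfl
    have : (0 : ℝ) ≤ Metric.infDist z Oᶜ := Metric.infDist_nonneg
    push_cast
    nlinarith
  · intro z hz
    unfold cut
    rw [Metric.infDist_zero_of_mem (show z ∈ Oᶜ from hz)]
    simp

theorem cut_mono (O : Set ℂ) {n m : ℕ} (h : n ≤ m) (z : ℂ) : cut O n z ≤ cut O m z :=
  monotone_nat_of_le_succ (f := fun n => cut O n z) (fun n => (cut_facts O n).2.2.2.1 z) h

/-- For `l ≥ m / η` the inequality holds for all `z`: write `d = infDist z Oᶜ`; if `l d ≥ 1` then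
`cut O l z = 1` and the left side is at most `1 - cut O m z`; otherwise `cut O m z ≤ m d ≤ η`. -/
theorem cut_prop (O : Set ℂ) (m : ℕ) {η : ℝ} (hη : 0 < η) :
    ∃ l ≥ m, ∀ z, cut O m z * (1 - cut O m z) ≤ cut O l z - cut O m z + η := by
  obtain ⟨l₀, hl₀⟩ := exists_nat_ge ((m : ℝ) / η)
  refine ⟨max m l₀, le_max_left _ _, fun z => ?_⟩
  have hmono := cut_mono O (le_max_left m l₀) z
  obtain ⟨_, h0, h1, _, _⟩ := cut_facts O m
  have h0z := h0 z
  have h1z := h1 z
  have hl : (m : ℝ) / η ≤ ((max m l₀ : ℕ) : ℝ) := hl₀.trans (by exact_mod_cast le_max_right _ _)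
  set l : ℕ := max m l₀ with hldef
  have hd : (0 : ℝ) ≤ Metric.infDist z Oᶜ := Metric.infDist_nonneg
  by_cases hc : 1 ≤ (l : ℝ) * Metric.infDist z Oᶜ
  · have : cut O l z = 1 := by
      unfold cut
      exact min_eq_left hc
    rw [this]
    nlinarith
  · push Not at hc
    have hm : cut O m z ≤ η := by
      have h2 : cut O m z ≤ m * Metric.infDist z Oᶜ := min_le_right _ _
      have h3 : (m : ℝ) ≤ η * l := by
        rw [div_le_iff₀ hη] at hl
        linarith
      have h4 : (m : ℝ) * Metric.infDist z Oᶜ ≤ η * l * Metric.infDist z Oᶜ := by gcongr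
      have h5 : η * ((l : ℝ) * Metric.infDist z Oᶜ) ≤ η * 1 := by gcongr
      linarith
    nlinarith

/-- For an open `O` with nonempty complement the cut-off functions tend to 1 on `O`. -/
theorem cut_tendsto {O : Set ℂ} (hO : IsOpen O) (hO' : Oᶜ.Nonempty) {z : ℂ} (hz : z ∈ O) :
    ∃ n₀ : ℕ, ∀ n ≥ n₀, cut O n z = 1 := by
  have hd : 0 < Metric.infDist z Oᶜ := by
    rw [← hO.isClosed_compl.notMem_iff_infDist_pos hO']
    simpa using hz
  obtain ⟨n₀, hn₀⟩ := exists_nat_ge (1 / Metric.infDist z Oᶜ)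
  refine ⟨n₀, fun n hn => ?_⟩
  unfold cut
  apply min_eq_left
  rw [div_le_iff₀ hd] at hn₀
  refine hn₀.trans ?_
  gcongr

end Pool.Agent.Lib.MP_5d1ef1_an_SC
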