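import Pool.Agent.Lib.MP_5d1ef1_an_SC.ChA

set_option autoImplicit false

/-!
# MP_5d1ef1_an, project SC: from chains in the ultrapower to approximate chains
-/

namespace Pool.Agent.Lib.MP_5d1ef1_an_SC

open Filter Topology

universe u v w

variable {N : Type u} [CStarAlgebra N] {τ : N →ₗ[ℂ] ℂ}

private theorem ChB_norm (hτ : TracialVN τ) {u : N} (hu : u ∈ unitary N) : ‖u‖ ≤ 1 := by
  have : Nontrivial N := ⟨⟨1, 0, fun h => by
    have h1 := hτ.one
    rw [h, map_zero] at h1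
    exact zero_ne_one h1⟩⟩
  exact (CStarRing.norm_of_mem_unitary hu).le

private theorem ChB_mul (hτ : TracialVN τ) {x y x' y' : N} {C D : ℝ} (hD : 0 ≤ D)
    (hx' : ‖x'‖ ≤ 1) (hy : ‖y‖ ≤ C) (h1 : norm2 τ (x' - x) ≤ D) (h2 : norm2 τ (y' - y) ≤ D) :
    norm2 τ (x' * y' - x * y) ≤ D + D * C := by
  have h3 : x' * y' - x * y = x' * (y' - y) + (x' - x) * y := by noncomm_ring
  rw [h3]
  refine (norm2_add_le hτ _ _).trans (add_le_add ?_ ?_)
  · refine (norm2_mul_left hτ _ _).trans ?_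
    calc ‖x'‖ * norm2 τ (y' - y) ≤ 1 * D :=
          mul_le_mul hx' h2 (norm2_nonneg _) zero_le_one
      _ = D := one_mul D
  · exact (norm2_mul_right hτ _ _).trans (mul_le_mul h1 hy (norm_nonneg _) hD)

/-- From a chain in the ultrapower to approximate chains: pick an index `m` in a suitable member of
`U` (finitely many conditions) and truncate. -/
theorem rr_of_chainU (hτ : TracialVN τ) {U : Ultrafilter ℕ} {n : ℕ} {u v : N}
    (hu : IsHaar τ u) (hv : IsHaar τ v) (h : ChainU U τ n u v) : RR τ n u v := by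
  obtain ⟨w, hw0, hwn, hH, hcm⟩ := h
  intro ε hε K
  -- a common bound
  have hb : ∀ j, ∃ C : ℝ, 1 ≤ j → j ≤ n → ∀ m, ‖w j m‖ ≤ C := by
    intro j
    by_cases hj : 1 ≤ j ∧ j ≤ n
    · obtain ⟨C, hC⟩ := (hH j hj.1 hj.2).bdd
      exact ⟨C, fun _ _ => hC⟩
    · exact ⟨0, fun h1 h2 => absurd ⟨h1, h2⟩ hj⟩
  choose f hf using hb
  obtain ⟨C, hC⟩ : ∃ C : ℝ, C = 1 + ∑ j ∈ Finset.range (n + 1), |f j| := ⟨_, rfl⟩
  have hC1 : 1 ≤ C := by
    have : 0 ≤ ∑ j ∈ Finset.range (n + 1), |f j| := Finset.sum_nonneg fun j _ => abs_nonneg _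
    linarith
  have hCw : ∀ j, 1 ≤ j → j ≤ n → ∀ m, ‖w j m‖ ≤ C := by
    intro j h1 h2 m
    have h3 : |f j| ≤ ∑ j ∈ Finset.range (n + 1), |f j| :=
      Finset.single_le_sum (f := fun j => |f j|) (fun j _ => abs_nonneg _)
        (Finset.mem_range.2 (by omega))
    have h4 := hf j h1 h2 m
    have h5 := le_abs_self (f j)
    linarith
  obtain ⟨M, hM⟩ : ∃ M : ℝ, M = 4 * C ^ 2 + 1 + K * C ^ (K + 1) := ⟨_, rfl⟩
  have hK0 : 0 ≤ K * C ^ (K + 1) := by positivity
  have hC2 : C ≤ C ^ 2 := by nlinarith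
  have hM0 : 0 < M := by nlinarith
  obtain ⟨δ, hδ⟩ : ∃ δ : ℝ, δ = ε / M := ⟨_, rfl⟩
  have hδ0 : 0 < δ := by rw [hδ]; positivity
  have hδM : M * δ = ε := by
    rw [hδ]
    field_simp
  -- the index
  have P1 : ∀ᶠ m in (U : Filter ℕ), ∀ j ∈ Finset.Icc 1 n,
      norm2 τ (star (w j m) * w j m - 1) < δ := by
    refine (Filter.eventually_all_finset _).2 fun j hj => ?_
    rw [Finset.mem_Icc] at hj
    exact (hH j hj.1 hj.2).left.eventually_lt_const hδ0
  have P2 : ∀ᶠ m in (U : Filter ℕ), ∀ j ∈ Finset.Icc 1 n, ∀ k ∈ Finset.Icc 1 K,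
      ‖τ (w j m ^ k)‖ < δ := by
    refine (Filter.eventually_all_finset _).2 fun j hj => ?_
    refine (Filter.eventually_all_finset _).2 fun k hk => ?_
    rw [Finset.mem_Icc] at hj hk
    have h1 := ((hH j hj.1 hj.2).pow k (by omega)).norm
    rw [norm_zero] at h1
    exact h1.eventually_lt_const hδ0
  have P3 : ∀ᶠ m in (U : Filter ℕ), ∀ j ∈ Finset.range (n + 1),
      norm2 τ (w j m * w (j + 1) m - w (j + 1) m * w j m) < δ := by
    refine (Filter.eventually_all_finset _).2 fun j hj => ?_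
    rw [Finset.mem_range] at hj
    have h1 : Tendsto (fun m => norm2 τ (w j m * w (j + 1) m - w (j + 1) m * w j m)) U (𝓝 0) :=
      hcm j (by omega)
    exact h1.eventually_lt_const hδ0
  obtain ⟨m, hm1, hm2, hm3⟩ := (P1.and (P2.and P3)).exists
  have ht : ∀ j, ∃ w' : N, ‖w'‖ ≤ 1 ∧
      norm2 τ (w' - w j m) ≤ ‖w j m‖ * norm2 τ (star (w j m) * w j m - 1) :=
    fun j => truncate hτ (w j m)
  choose t ht1 ht2 using ht
  obtain ⟨w', hw'⟩ : ∃ w' : ℕ → N, w' = fun j => if j = 0 then u else if j = n + 1 then v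
    else t j := ⟨_, rfl⟩
  have e0 : w' 0 = u := by rw [hw']; simp
  have en : w' (n + 1) = v := by rw [hw']; simp
  have ej : ∀ j, 1 ≤ j → j ≤ n → w' j = t j := by
    intro j h1 h2
    rw [hw']
    show (if j = 0 then u else if j = n + 1 then v else t j) = t j
    rw [if_neg (by omega), if_neg (by omega)]
  have hCδ : 0 ≤ C * δ := by positivity
  have key : ∀ j ≤ n + 1, ‖w' j‖ ≤ 1 ∧ ‖w j m‖ ≤ C ∧ norm2 τ (w' j - w j m) ≤ C * δ := by
    intro j hj
    rcases Nat.eq_zero_or_pos j with rfl | h1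
    · rw [e0, hw0, sub_self, norm2_zero]
      have := ChB_norm hτ hu.mem
      exact ⟨this, by linarith, hCδ⟩
    · by_cases h2 : j = n + 1
      · rw [h2, en, hwn, sub_self, norm2_zero]
        have := ChB_norm hτ hv.mem
        exact ⟨this, by linarith, hCδ⟩
      · rw [ej j h1 (by omega)]
        have h3 := hCw j h1 (by omega) m
        refine ⟨ht1 j, h3, (ht2 j).trans ?_⟩
        exact mul_le_mul h3 (hm1 j (Finset.mem_Icc.2 ⟨h1, by omega⟩)).le (norm2_nonneg _)
          (by linarith)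
  refine ⟨w', e0, en, ?_, ?_⟩
  · intro j h1 h2
    obtain ⟨k1, k2, k3⟩ := key j (by omega)
    refine ⟨k1, ?_, ?_⟩
    · have h3 : norm2 τ (star (w' j) * w' j - star (w j m) * w j m) ≤ C * δ + C * δ * C := by
        refine ChB_mul hτ hCδ ?_ k2 ?_ k3
        · rw [norm_star]
          exact k1
        · rw [← star_sub, norm2_star hτ]
          exact k3
      have h4 := norm2_tri hτ (star (w' j) * w' j) (star (w j m) * w j m) 1
      have h5 := hm1 j (Finset.mem_Icc.2 ⟨h1, h2⟩)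
      have h6 : C * δ + C * δ * C + δ ≤ M * δ := by
        have : C * δ + C * δ * C + δ = (C + C ^ 2 + 1) * δ := by ring
        rw [this]
        refine mul_le_mul_of_nonneg_right ?_ hδ0.le
        rw [hM]
        nlinarith
      linarith
    · intro k hk hk0
      have h3 : norm2 τ (w' j ^ k - w j m ^ k) ≤ k * C ^ k * norm2 τ (w' j - w j m) :=
        norm2_pow_sub hτ hC1 (k1.trans hC1) k2 k
      have h4 : ‖τ (w' j ^ k)‖ ≤ ‖τ (w' j ^ k - w j m ^ k)‖ + ‖τ (w j m ^ k)‖ := by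
        have : τ (w' j ^ k) = τ (w' j ^ k - w j m ^ k) + τ (w j m ^ k) := by
          rw [map_sub]
          ring
        rw [this]
        exact norm_add_le _ _
      have h5 := norm_tr_le hτ (w' j ^ k - w j m ^ k)
      have h6 := hm2 j (Finset.mem_Icc.2 ⟨h1, h2⟩) k (Finset.mem_Icc.2 ⟨by omega, hk⟩)
      have h7 : (k : ℝ) * C ^ k * norm2 τ (w' j - w j m) ≤ K * C ^ (K + 1) * δ := by
        have a1 : (k : ℝ) * C ^ k ≤ K * C ^ K :=
          mul_le_mul (by exact_mod_cast hk) (pow_le_pow_right₀ hC1 hk) (by positivity)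
            (by positivity)
        calc (k : ℝ) * C ^ k * norm2 τ (w' j - w j m) ≤ K * C ^ K * (C * δ) :=
              mul_le_mul a1 k3 (norm2_nonneg _) (by positivity)
          _ = K * C ^ (K + 1) * δ := by ring
      have h8 : K * C ^ (K + 1) * δ + δ ≤ M * δ := by
        have : K * C ^ (K + 1) * δ + δ = (K * C ^ (K + 1) + 1) * δ := by ring
        rw [this]
        refine mul_le_mul_of_nonneg_right ?_ hδ0.le
        rw [hM]
        nlinarith
      linarith
  · intro j hj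
    obtain ⟨k1, k2, k3⟩ := key j (by omega)
    obtain ⟨l1, l2, l3⟩ := key (j + 1) (by omega)
    have h3 := ChB_mul hτ hCδ k1 l2 k3 l3
    have h4 := ChB_mul hτ hCδ l1 k2 l3 k3
    have h5 := hm3 j (Finset.mem_range.2 (by omega))
    have h6 : w' j * w' (j + 1) - w' (j + 1) * w' j =
        ((w' j * w' (j + 1) - w j m * w (j + 1) m) -
          (w' (j + 1) * w' j - w (j + 1) m * w j m)) +
        (w j m * w (j + 1) m - w (j + 1) m * w j m) := by abel
    have h7 := norm2_add_le hτ ((w' j * w' (j + 1) - w j m * w (j + 1) m) -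
          (w' (j + 1) * w' j - w (j + 1) m * w j m))
        (w j m * w (j + 1) m - w (j + 1) m * w j m)
    have h8 := norm2_sub_le hτ (w' j * w' (j + 1) - w j m * w (j + 1) m)
      (w' (j + 1) * w' j - w (j + 1) m * w j m)
    rw [h6]
    have h9 : (C * δ + C * δ * C) + (C * δ + C * δ * C) + δ ≤ M * δ := by
      have : (C * δ + C * δ * C) + (C * δ + C * δ * C) + δ = (2 * C + 2 * C ^ 2 + 1) * δ := by
        ring
      rw [this]
      refine mul_le_mul_of_nonneg_right ?_ hδ0.le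
      rw [hM]
      nlinarith
    linarith

end Pool.Agent.Lib.MP_5d1ef1_an_SC
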