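import Pool.Agent.Lib.MP_5d1ef1_an_SC.Lm

set_option autoImplicit false

/-!
# MP_5d1ef1_an, project SC: from approximate chains to chains in the ultrapower
-/

namespace Pool.Agent.Lib.MP_5d1ef1_an_SC

open Filter Topology

universe u v w

variable {N : Type u} [CStarAlgebra N] {τ : N →ₗ[ℂ] ℂ}

/-- `w w* - 1` and `w* w - 1` have the same 2-norm -/
private theorem ChC_norm2 (hτ : TracialVN τ) (x : N) :
    norm2 τ (x * star x - 1) = norm2 τ (star x * x - 1) := by
  have h1 : star (x * star x - 1) = x * star x - 1 := by simp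
  have h2 : star (star x * x - 1) = star x * x - 1 := by simp
  have h3 : τ (star x * (x * star x * x)) = τ (x * star x * x * star x) := hτ.tr _ _
  have h4 : τ (x * star x) = τ (star x * x) := hτ.tr _ _
  have h5 : τ ((x * star x - 1) * (x * star x - 1)) = τ ((star x * x - 1) * (star x * x - 1)) := by
    have e1 : (x * star x - 1) * (x * star x - 1) =
        x * star x * x * star x - x * star x - x * star x + 1 := by noncomm_ring
    have e2 : (star x * x - 1) * (star x * x - 1) =
        star x * (x * star x * x) - star x * x - star x * x + 1 := by noncomm_ring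
    rw [e1, e2, map_add, map_sub, map_sub, map_add, map_sub, map_sub, h3, h4]
  unfold norm2
  rw [h1, h2, h5]

/-- From approximate chains to a chain: for each `m` choose a chain for `ε = 1 / (m + 1)`,
`K = m`; `U` is not principal, so it contains the sets `{m | m₀ ≤ m}`. -/
theorem chainU_of_rr (hτ : TracialVN τ) {U : Ultrafilter ℕ} (hU : ∀ m : ℕ, U ≠ pure m)
    {n : ℕ} {u v : N} (h : RR τ n u v) : ChainU U τ n u v := by
  have hle : (U : Filter ℕ) ≤ atTop := by
    rw [← Nat.cofinite_eq_atTop]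
    rcases U.le_cofinite_or_eq_pure with h1 | ⟨a, ha⟩
    · exact h1
    · exact absurd ha (hU a)
  have hpos : ∀ m : ℕ, (0:ℝ) < 1 / ((m:ℝ) + 1) := fun m => by positivity
  choose w hw0 hw1 hw2 hw3 using fun m : ℕ => h (1 / ((m:ℝ) + 1)) (hpos m) m
  have hlim : Tendsto (fun m : ℕ => 1 / ((m:ℝ) + 1)) U (𝓝 0) :=
    tendsto_one_div_add_atTop_nhds_zero_nat.mono_left hle
  have hpow : ∀ j, 1 ≤ j → j ≤ n → ∀ k : ℕ, k ≠ 0 → ∀ᶠ m in (U : Filter ℕ),
      ‖τ (w m j ^ k)‖ ≤ 1 / ((m:ℝ) + 1) := by
    intro j hj1 hjn k hk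
    filter_upwards [hle (eventually_ge_atTop k)] with m hm
    exact (hw2 m j hj1 hjn).2.2 k hm hk
  refine ⟨fun j m => w m j, hw0, hw1, fun j hj1 hjn => ?_, fun j hj => ?_⟩
  · refine ⟨⟨1, fun m => (hw2 m j hj1 hjn).1⟩, ?_, ?_, fun k hk => ?_, fun k hk => ?_⟩
    · exact squeeze_zero (fun m => norm2_nonneg _) (fun m => (hw2 m j hj1 hjn).2.1) hlim
    · refine squeeze_zero (fun m => norm2_nonneg _) (fun m => ?_) hlim
      rw [ChC_norm2 hτ]
      exact (hw2 m j hj1 hjn).2.1
    · exact squeeze_zero_norm' (hpow j hj1 hjn k hk) hlim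
    · refine squeeze_zero_norm' ?_ hlim
      filter_upwards [hpow j hj1 hjn k hk] with m hm
      rw [← star_pow, tr_star hτ, RCLike.norm_conj]
      exact hm
  · exact squeeze_zero (fun m => norm2_nonneg _) (fun m => hw3 m j hj) hlim

end Pool.Agent.Lib.MP_5d1ef1_an_SC
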