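import Pool.Agent.Lib.MP_5d1ef1_an_SC.Lm

set_option autoImplicit false

/-!
# MP_5d1ef1_an, project SC: truncation
-/

namespace Pool.Agent.Lib.MP_5d1ef1_an_SC

open Filter Topology

universe u v w

variable {N : Type u} [CStarAlgebra N] {τ : N →ₗ[ℂ] ℂ}

/-- Truncation: a bounded sequence which is unitary in the ultrapower can be replaced by a sequence
of contractions: `w' = w * cfc (1 / √(max 1 t)) (star w * w)`; `‖w'‖ ≤ 1` and
`norm2 (w' - w) ≤ ‖w‖ * norm2 (star w * w - 1)` as `|1 / √(max 1 t) - 1| ≤ |t - 1|`. -/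
theorem truncate (hτ : TracialVN τ) (w : N) :
    ∃ w' : N, ‖w'‖ ≤ 1 ∧ norm2 τ (w' - w) ≤ ‖w‖ * norm2 τ (star w * w - 1) := by
  obtain ⟨a, ha⟩ : ∃ a : N, a = star w * w := ⟨_, rfl⟩
  have hsa : IsSelfAdjoint a := by
    rw [ha]
    exact IsSelfAdjoint.star_mul_self w
  have hsp : ∀ t ∈ spectrum ℝ a, 0 ≤ t := by
    rw [ha]
    exact fun t ht => spectrum_star_mul_self_nonneg t ht
  have hc1 : ContinuousOn (fun t : ℝ => 2 / (1 + t)) (spectrum ℝ a) :=
    continuousOn_const.div (continuousOn_const.add continuousOn_id)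
      fun t ht => by have := hsp t ht; positivity
  have hc2 : ContinuousOn (fun t : ℝ => -1 / (1 + t)) (spectrum ℝ a) :=
    continuousOn_const.div (continuousOn_const.add continuousOn_id)
      fun t ht => by have := hsp t ht; positivity
  have hid : ContinuousOn (fun t : ℝ => t) (spectrum ℝ a) := continuousOn_id
  obtain ⟨g, hg⟩ : ∃ g : N, g = cfc (fun t : ℝ => 2 / (1 + t)) a := ⟨_, rfl⟩
  obtain ⟨q, hq⟩ : ∃ q : N, q = cfc (fun t : ℝ => -1 / (1 + t)) a := ⟨_, rfl⟩
  have hgs : star g = g := by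
    rw [hg]
    exact (cfc_predicate (R := ℝ) (p := IsSelfAdjoint) (fun t : ℝ => 2 / (1 + t)) a).star_eq
  refine ⟨w * g, ?_, ?_⟩
  · have h1 : star (w * g) * (w * g) =
        cfc (fun t : ℝ => 2 / (1 + t) * (t * (2 / (1 + t)))) a := by
      rw [cfc_mul (fun t : ℝ => 2 / (1 + t)) (fun t : ℝ => t * (2 / (1 + t))) a hc1
        (hid.mul hc1), cfc_mul (fun t : ℝ => t) (fun t : ℝ => 2 / (1 + t)) a hid hc1,
        cfc_id' ℝ a, ← hg, star_mul, hgs, ha]
      simp only [mul_assoc]
    have h2 : ‖star (w * g) * (w * g)‖ ≤ 1 := by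
      rw [h1]
      refine norm_cfc_le zero_le_one fun t ht => ?_
      have h3 := hsp t ht
      rw [Real.norm_of_nonneg (by positivity)]
      have h4 : 2 / (1 + t) * (t * (2 / (1 + t))) = 4 * t / (1 + t) ^ 2 := by
        field_simp
        ring
      rw [h4, div_le_one (by positivity)]
      nlinarith [sq_nonneg (t - 1)]
    rw [CStarRing.norm_star_mul_self] at h2
    nlinarith [norm_nonneg (w * g)]
  · have h1 : g - 1 = q * (a - 1) := by
      have h2 : cfc (fun t : ℝ => 2 / (1 + t) - 1) a = g - 1 := by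
        rw [cfc_sub (fun t : ℝ => 2 / (1 + t)) (fun _ : ℝ => (1 : ℝ)) a hc1
          continuousOn_const, ← hg, cfc_const_one ℝ a]
      have h3 : cfc (fun t : ℝ => -1 / (1 + t) * (t - 1)) a = q * (a - 1) := by
        rw [cfc_mul (fun t : ℝ => -1 / (1 + t)) (fun t : ℝ => t - 1) a hc2
          (hid.sub continuousOn_const), ← hq, cfc_sub (fun t : ℝ => t) (fun _ : ℝ => (1 : ℝ)) a
          hid continuousOn_const, cfc_id' ℝ a, cfc_const_one ℝ a]
      rw [← h2, ← h3]
      refine cfc_congr fun t ht => ?_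
      have h4 := hsp t ht
      show 2 / (1 + t) - 1 = -1 / (1 + t) * (t - 1)
      have h5 : (1 : ℝ) + t ≠ 0 := by positivity
      field_simp
      ring
    have h2 : w * g - w = w * (q * (a - 1)) := by
      rw [← h1, mul_sub, mul_one]
    have h3 : ‖q‖ ≤ 1 := by
      rw [hq]
      refine norm_cfc_le zero_le_one fun t ht => ?_
      have h4 := hsp t ht
      rw [norm_div, norm_neg, norm_one, Real.norm_of_nonneg (by positivity : (0 : ℝ) ≤ 1 + t),
        div_le_one (by positivity)]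
      linarith
    rw [h2, ← ha]
    refine (norm2_mul_left hτ _ _).trans (mul_le_mul_of_nonneg_left ?_ (norm_nonneg w))
    refine (norm2_mul_left hτ _ _).trans ?_
    have h4 := norm2_nonneg (τ := τ) (a - 1)
    exact mul_le_of_le_one_left h4 h3

/-- powers: `norm2 (x ^ k - y ^ k) ≤ k C ^ (k - 1) norm2 (x - y)` -/
theorem norm2_pow_sub (hτ : TracialVN τ) {x y : N} {C : ℝ} (hC : 1 ≤ C) (hx : ‖x‖ ≤ C)
    (hy : ‖y‖ ≤ C) (k : ℕ) : norm2 τ (x ^ k - y ^ k) ≤ k * C ^ k * norm2 τ (x - y) := by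
  have hnt : Nontrivial N := by
    refine ⟨⟨0, 1, fun h => ?_⟩⟩
    have h1 := hτ.one
    rw [← h, map_zero] at h1
    exact zero_ne_one h1
  have hC0 : 0 ≤ C := by linarith
  have hn := norm2_nonneg (τ := τ) (x - y)
  have hpow : ∀ k : ℕ, ‖x ^ k‖ ≤ C ^ k := fun k =>
    (norm_pow_le x k).trans (pow_le_pow_left₀ (norm_nonneg x) hx k)
  induction k with
  | zero => simp [norm2_zero]
  | succ k ih =>
    have h1 : x ^ (k + 1) - y ^ (k + 1) = x ^ k * (x - y) + (x ^ k - y ^ k) * y := by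
      rw [pow_succ, pow_succ, mul_sub, sub_mul]
      abel
    have h2 : norm2 τ (x ^ k * (x - y)) ≤ C ^ (k + 1) * norm2 τ (x - y) := by
      refine (norm2_mul_left hτ _ _).trans (mul_le_mul_of_nonneg_right ?_ hn)
      refine (hpow k).trans ?_
      exact pow_le_pow_right₀ hC (Nat.le_succ k)
    have h3 : norm2 τ ((x ^ k - y ^ k) * y) ≤ k * C ^ (k + 1) * norm2 τ (x - y) := by
      refine (norm2_mul_right hτ _ _).trans ?_
      refine (mul_le_mul ih hy (norm_nonneg y) (by positivity)).trans (le_of_eq ?_)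
      ring
    rw [h1]
    refine (norm2_add_le hτ _ _).trans ?_
    push_cast
    linarith

end Pool.Agent.Lib.MP_5d1ef1_an_SC
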