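import Pool.Agent.Lib.MP_5d1ef1_an_SC.SpA

set_option autoImplicit false

/-!
# MP_5d1ef1_an, project SC: spectral projections: products with functions
-/

namespace Pool.Agent.Lib.MP_5d1ef1_an_SC

open Filter Topology

universe u v w

variable {N : Type u} [CStarAlgebra N] {τ : N →ₗ[ℂ] ℂ}

/-- a continuous function which vanishes on `O`: `SP.est` with `c = 0` -/
theorem sp_kill (hτ : TracialVN τ) {a p : N} {O : Set ℂ} (hp : SP τ a O p) {f : ℂ → ℂ}
    (hf : Continuous f) (h : ∀ z ∈ spectrum ℂ a, z ∈ O → f z = 0) : cfc f a * p = 0 := by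
  have h1 := hp.est f 0 hf le_rfl fun z hz hzO => by rw [h z hz hzO, norm_zero]
  have h2 : norm2 τ (cfc f a * p) ^ 2 ≤ 0 := by
    refine h1.trans_eq ?_
    ring
  exact eq_zero_of_norm2 hτ (pow_eq_zero_iff two_ne_zero |>.1 (le_antisymm h2 (sq_nonneg _)))

/-- A continuous function which vanishes outside `O`: for `η > 0` the set of the `z` in the spectrum
with `‖f z‖ ≥ η` is compact and contained in `O`, so its distance to `Oᶜ` is positive and
`cut O n = 1` on it for large `n`; so `‖cfc f a - cfc (f * cut O n) a‖ ≤ η`. -/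
theorem sp_keep (hτ : TracialVN τ) {a p : N} (ha : IsStarNormal a) {O : Set ℂ}
    (hO : IsOpen O) (hO' : Oᶜ.Nonempty) (hp : SP τ a O p) {f : ℂ → ℂ}
    (hf : Continuous f) (h : ∀ z ∈ spectrum ℂ a, z ∉ O → f z = 0) :
    cfc f a * p = cfc f a := by
  have hcc : ∀ n, Continuous fun z => (cut O n z : ℂ) := fun n =>
    Complex.continuous_ofReal.comp (cut_facts O n).1
  have hmul : ∀ n, cfc f a * cfc (fun z => (cut O n z : ℂ)) a =
      cfc (fun z => f z * (cut O n z : ℂ)) a := fun n =>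
    (cfc_mul f (fun z => (cut O n z : ℂ)) a hf.continuousOn (hcc n).continuousOn).symm
  have h1 : Lim2 τ (fun n => cfc (fun z => f z * (cut O n z : ℂ)) a) (cfc f a * p) := by
    have h2 := lim2_mul_left hτ (cfc f a) hp.lim
    simp only [hmul] at h2
    exact h2
  refine lim2_unique hτ h1 (lim2_of_norm hτ ?_)
  rw [Metric.tendsto_atTop]
  intro ε hε
  -- the compact set where `f` is large
  have hKc : IsCompact (spectrum ℂ a ∩ {z | ε / 2 ≤ ‖f z‖}) :=
    (spectrum.isCompact a).inter_right (isClosed_le continuous_const hf.norm)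
  have hKO : ∀ z ∈ spectrum ℂ a ∩ {z | ε / 2 ≤ ‖f z‖}, z ∈ O := by
    rintro z ⟨hz, hz'⟩
    by_contra hzO
    have h3 := h z hz hzO
    rw [Set.mem_setOf_eq, h3, norm_zero] at hz'
    linarith
  have hex : ∃ n₀ : ℕ, ∀ n ≥ n₀, ∀ z ∈ spectrum ℂ a ∩ {z | ε / 2 ≤ ‖f z‖}, cut O n z = 1 := by
    rcases (spectrum ℂ a ∩ {z | ε / 2 ≤ ‖f z‖}).eq_empty_or_nonempty with hK | hK
    · exact ⟨0, fun n _ z hz => by rw [hK] at hz; exact absurd hz (Set.notMem_empty z)⟩
    · obtain ⟨z₀, hz₀, hmin⟩ := hKc.exists_isMinOn hK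
        (Metric.continuous_infDist_pt (Oᶜ : Set ℂ)).continuousOn
      have hpos : 0 < Metric.infDist z₀ Oᶜ := by
        refine (hO.isClosed_compl.notMem_iff_infDist_pos hO').1 ?_
        exact fun hc => hc (hKO z₀ hz₀)
      obtain ⟨n₀, hn₀⟩ := exists_nat_gt (1 / Metric.infDist z₀ Oᶜ)
      refine ⟨n₀, fun n hn z hz => ?_⟩
      have h3 : Metric.infDist z₀ Oᶜ ≤ Metric.infDist z Oᶜ := hmin hz
      rw [div_lt_iff₀ hpos] at hn₀
      have h4 : (n₀ : ℝ) ≤ n := by exact_mod_cast hn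
      unfold cut
      refine min_eq_left ?_
      calc (1 : ℝ) ≤ n₀ * Metric.infDist z₀ Oᶜ := hn₀.le
        _ ≤ n * Metric.infDist z Oᶜ := mul_le_mul h4 h3 hpos.le (Nat.cast_nonneg n)
  obtain ⟨n₀, hn₀⟩ := hex
  refine ⟨n₀, fun n hn => ?_⟩
  rw [dist_eq_norm, ← cfc_sub (fun z => f z * (cut O n z : ℂ)) f a
    (hf.mul (hcc n)).continuousOn hf.continuousOn]
  refine lt_of_le_of_lt (norm_cfc_le (c := ε / 2) (by linarith) fun z hz => ?_) (by linarith)
  have h3 : f z * (cut O n z : ℂ) - f z = f z * ((cut O n z - 1 : ℝ) : ℂ) := by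
    push_cast
    ring
  rw [h3, norm_mul, Complex.norm_real, Real.norm_eq_abs]
  by_cases hz' : ε / 2 ≤ ‖f z‖
  · rw [hn₀ n hn z ⟨hz, hz'⟩, sub_self, abs_zero, mul_zero]
    linarith
  · push Not at hz'
    have h4 := (cut_facts O n).2.1 z
    have h5 := (cut_facts O n).2.2.1 z
    have h6 : |cut O n z - 1| ≤ 1 := abs_le.2 ⟨by linarith, by linarith⟩
    calc ‖f z‖ * |cut O n z - 1| ≤ ε / 2 * 1 :=
          mul_le_mul hz'.le h6 (abs_nonneg _) (by linarith)
      _ = ε / 2 := mul_one _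

/-- `sp_keep` for `f = 1` -/
theorem sp_one (hτ : TracialVN τ) {a p : N} (ha : IsStarNormal a) {O : Set ℂ}
    (hO : IsOpen O) (hO' : Oᶜ.Nonempty) (hp : SP τ a O p) (h : spectrum ℂ a ⊆ O) : p = 1 := by
  have h1 := sp_keep hτ ha hO hO' hp (f := fun _ => 1) continuous_const
    fun z hz hzO => absurd (h hz) hzO
  rwa [cfc_const_one ℂ a, one_mul] at h1

/-- the cut-off functions vanish on the spectrum -/
theorem sp_zero (hτ : TracialVN τ) {a p : N} (ha : IsStarNormal a) {O : Set ℂ}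
    (hp : SP τ a O p) (h : ∀ z ∈ spectrum ℂ a, z ∉ O) : p = 0 := by
  have h1 := sp_kill hτ hp (f := fun _ => 1) continuous_const
    fun z hz hzO => absurd hzO (h z hz)
  rwa [cfc_const_one ℂ a, one_mul] at h1

/-- if `e * a = 0` and `O` is away from 0 then `e * p = 0` : there is a continuous `f` with
`z * f z = 1` on `O` (`f z = star z / max (‖z‖ ^ 2) (r ^ 2)`), so
`cfc (fun z => z * f z) a * p = p` (`sp_kill`) and `e * p = e * a * cfc f a * p = 0` -/
theorem sp_off (hτ : TracialVN τ) {a p e : N} (ha : IsStarNormal a) {O : Set ℂ} {r : ℝ}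
    (hr : 0 < r) (hO : ∀ z ∈ O, r ≤ ‖z‖) (hp : SP τ a O p) (h : e * a = 0) : e * p = 0 := by
  have hm : ∀ z : ℂ, (0 : ℝ) < max (‖z‖ ^ 2) (r ^ 2) := fun z =>
    lt_of_lt_of_le (by positivity) (le_max_right _ _)
  set f : ℂ → ℂ := fun z => star z / ((max (‖z‖ ^ 2) (r ^ 2) : ℝ) : ℂ) with hf
  have hfc : Continuous f := by
    refine Continuous.div continuous_star ?_ fun z => ?_
    · exact Complex.continuous_ofReal.comp ((continuous_norm.pow 2).max continuous_const)
    · exact_mod_cast (hm z).ne'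
  have h1 := sp_kill hτ hp (f := fun z => z * f z - 1)
    ((continuous_id.mul hfc).sub continuous_const) fun z _ hzO => by
      have h2 := hO z hzO
      have h3 : max (‖z‖ ^ 2) (r ^ 2) = ‖z‖ ^ 2 := max_eq_left (pow_le_pow_left₀ hr.le h2 2)
      have h4 : z ≠ 0 := by
        rintro rfl
        rw [norm_zero] at h2
        linarith
      have h5 : z * star z = ((‖z‖ ^ 2 : ℝ) : ℂ) := by
        rw [Complex.star_def, Complex.mul_conj, Complex.normSq_eq_norm_sq]
      simp only [hf]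
      rw [h3, mul_div_assoc', h5, div_self, sub_self]
      exact_mod_cast (pow_pos (norm_pos_iff.2 h4) 2).ne'
  have h2 : cfc (fun z => z * f z - 1) a = a * cfc f a - 1 := by
    rw [cfc_sub (fun z => z * f z) (fun _ => 1) a (continuous_id.mul hfc).continuousOn
      continuousOn_const, cfc_const_one ℂ a, cfc_mul (fun z => z) f a continuousOn_id
      hfc.continuousOn, cfc_id' ℂ a]
  rw [h2, sub_mul, one_mul, sub_eq_zero] at h1
  rw [← h1, ← mul_assoc, ← mul_assoc, h, zero_mul, zero_mul]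

end Pool.Agent.Lib.MP_5d1ef1_an_SC
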