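import Pool.Agent.Lib.MP_5d1ef1_an_SC.SpB
import Pool.Agent.Lib.MP_5d1ef1_an_SC.SpC

set_option autoImplicit false

/-!
# MP_5d1ef1_an, project SC: partial isometries
-/

namespace Pool.Agent.Lib.MP_5d1ef1_an_SC

open Filter Topology

universe u v w

variable {N : Type u} [CStarAlgebra N] {τ : N →ₗ[ℂ] ℂ}

private noncomputable def PI_g (t : ℝ) (z : ℂ) : ℂ := ((1 / Real.sqrt (max z.re (t / 2)) : ℝ) : ℂ)

private theorem PI_g_cont {t : ℝ} (ht : 0 < t) : Continuous (PI_g t) := by
  unfold PI_g
  refine Complex.continuous_ofReal.comp (continuous_const.div ?_ ?_)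
  · exact Real.continuous_sqrt.comp (Complex.continuous_re.max continuous_const)
  · intro z
    refine (Real.sqrt_pos.2 ?_).ne'
    exact lt_of_lt_of_le (half_pos ht) (le_max_right _ _)

private theorem PI_g_star {t : ℝ} (z : ℂ) : star (PI_g t z) = PI_g t z := by
  unfold PI_g
  exact Complex.conj_ofReal _

private theorem PI_g_eq {t : ℝ} (ht : 0 < t) {z : ℂ} (hz : z = (z.re : ℂ)) (h : t / 2 < z.re) :
    PI_g t z * z * PI_g t z = 1 := by
  unfold PI_g
  have h0 : 0 < z.re := lt_trans (half_pos ht) h
  rw [max_eq_left h.le]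
  have h1 : (1 / Real.sqrt z.re) * z.re * (1 / Real.sqrt z.re) = 1 := by
    have h2 : Real.sqrt z.re ≠ 0 := (Real.sqrt_pos.2 h0).ne'
    field_simp
    exact (Real.sq_sqrt h0.le).symm
  rw [hz]
  simp only [Complex.ofReal_re]
  exact_mod_cast h1

private theorem PI_z {x : N} (hx : x ≠ 0) :
    ∃ z ∈ spectrum ℂ (star x * x), z = (z.re : ℂ) ∧ 0 < z.re := by
  have hsa : IsSelfAdjoint (star x * x) := IsSelfAdjoint.star_mul_self x
  have hn : IsStarNormal (star x * x) := hsa.isStarNormal
  have h0 : ∀ z ∈ spectrum ℂ (star x * x), z = (z.re : ℂ) ∧ 0 ≤ z.re := by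
    intro z hz
    have h1 := hsa.mem_spectrum_eq_re hz
    refine ⟨h1, ?_⟩
    apply spectrum_star_mul_self_nonneg (b := x) z.re
    rw [← spectrum.algebraMap_mem_iff ℂ]
    rw [h1] at hz
    exact hz
  by_contra hcon
  push Not at hcon
  have h2 : ∀ z ∈ spectrum ℂ (star x * x), z = 0 := by
    intro z hz
    obtain ⟨h3, h4⟩ := h0 z hz
    have h5 : z.re = 0 := le_antisymm (hcon z hz h3) h4
    rw [h3, h5, Complex.ofReal_zero]
  have h6 : star x * x = 0 := by
    rw [← cfc_id ℂ (star x * x)]
    rw [cfc_congr (f := id) (g := fun _ => 0) (fun z hz => h2 z hz)]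
    exact cfc_const_zero ℂ (star x * x)
  exact hx ((CStarRing.star_mul_self_eq_zero_iff x).1 h6)

/-- Let `a = star x * x ≠ 0`, choose `z` in the spectrum with `z ≠ 0`, so `z = t > 0` real,
`O = {z | t / 2 < z.re}`, `p` its spectral projection, `p ≠ 0` (`sp_ne_zero`), and
`v = x * r(a) * p` with `r z = 1 / √(max z.re (t / 2))`.  Then `star v * v = p * (a r(a)^2) * p = p`
as `z r z ^ 2 - 1` vanishes on `O` and the spectrum is real (`sp_kill`).  `f * v = v` is clear, and
`v * e = v` since `(1 - e) * a = 0` gives `(1 - e) * p = 0` (`sp_off`), take stars. -/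
theorem exists_pi (hτ : TracialVN τ) {x e f : N} (hx : x ≠ 0) (he : Pr e) (hf : Pr f)
    (h : f * x * e = x) :
    ∃ v : N, v ≠ 0 ∧ f * v = v ∧ v * e = v ∧ Pr (star v * v) ∧ Pr (v * star v) := by
  obtain ⟨z, hz, hzr, ht⟩ := PI_z hx
  set a : N := star x * x with hadef
  have hsa : IsSelfAdjoint a := IsSelfAdjoint.star_mul_self x
  have hn : IsStarNormal a := hsa.isStarNormal
  set t : ℝ := z.re with htdef
  set O : Set ℂ := {w : ℂ | t / 2 < w.re} with hOdef
  have hO : IsOpen O := isOpen_lt continuous_const Complex.continuous_re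
  have hO' : Oᶜ.Nonempty := ⟨0, by
    simp only [hOdef, Set.mem_compl_iff, Set.mem_ofPred_eq, Complex.zero_re, not_lt]
    linarith⟩
  have hzO : z ∈ O := by
    simp only [hOdef, Set.mem_ofPred_eq]
    linarith
  obtain ⟨p, hp⟩ := exists_sp hτ hn O
  have hp0 : p ≠ 0 := sp_ne_zero hτ hn hO hO' hp hz hzO
  have hg := PI_g_cont ht
  set R : N := cfc (PI_g t) a with hR
  have hRs : star R = R := by
    rw [hR, ← cfc_star]
    exact cfc_congr (fun w _ => PI_g_star w)
  have hRR : R * a * R = cfc (fun w => PI_g t w * w * PI_g t w) a := by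
    rw [cfc_mul (fun w => PI_g t w * w) (PI_g t) a (hg.mul continuous_id).continuousOn
      hg.continuousOn, cfc_mul (PI_g t) (fun w => w) a hg.continuousOn continuousOn_id]
    have h1 : cfc (fun w : ℂ => w) a = a := cfc_id ℂ a
    rw [h1]
  have h1 : (R * a * R) * p = p := by
    have h2 : cfc (fun w => PI_g t w * w * PI_g t w - 1) a * p = 0 := by
      refine sp_kill hτ hp (((hg.mul continuous_id).mul hg).sub continuous_const) ?_
      intro w hw hwO
      rw [PI_g_eq ht (hsa.mem_spectrum_eq_re hw) hwO, sub_self]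
    rw [cfc_sub (fun w => PI_g t w * w * PI_g t w) (fun _ => 1) a
      ((hg.mul continuous_id).mul hg).continuousOn continuousOn_const, ← hRR,
      cfc_const_one ℂ a, sub_mul, one_mul, sub_eq_zero] at h2
    exact h2
  have hvv : star (x * R * p) * (x * R * p) = p := by
    rw [star_mul, star_mul, hp.pr.sa, hRs]
    calc p * (R * star x) * (x * R * p) = p * ((R * (star x * x) * R) * p) := by
          simp only [mul_assoc]
      _ = p := by rw [← hadef, h1, hp.pr.idem]
  have hvp : x * R * p * p = x * R * p := by rw [mul_assoc, hp.pr.idem]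
  have hep : e * p = p := by
    have h2 : (1 - e) * a = 0 := by
      have h3 : x * e = x := by
        calc x * e = f * x * e * e := by rw [h]
          _ = f * x * e := by rw [mul_assoc, he.idem]
          _ = x := h
      have h4 : e * a = a := by
        have h5 : star (a * e) = star a := by rw [hadef, mul_assoc, h3]
        rw [star_mul, he.sa, hsa.star_eq] at h5
        exact h5
      rw [sub_mul, one_mul, h4, sub_self]
    have h3 := sp_off hτ hn (half_pos ht) (fun w hw => le_trans (le_of_lt hw)
      (le_trans (le_abs_self _) (Complex.abs_re_le_norm w))) hp h2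
    rw [sub_mul, one_mul, sub_eq_zero] at h3
    exact h3.symm
  have hpe : p * e = p := by
    have h2 := congrArg star hep
    rwa [star_mul, he.sa, hp.pr.sa] at h2
  refine ⟨x * R * p, ?_, ?_, ?_, ?_, ?_, ?_⟩
  · intro h0
    rw [h0, mul_zero] at hvv
    exact hp0 hvv.symm
  · have h2 : f * x = x := by
      calc f * x = f * (f * x * e) := by rw [h]
        _ = f * x * e := by rw [← mul_assoc, ← mul_assoc, hf.idem]
        _ = x := h
    rw [← mul_assoc, ← mul_assoc, h2]
  · rw [mul_assoc, hpe]
  · rw [hvv]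
    exact hp.pr
  · rw [star_mul, star_star]
  · calc x * R * p * star (x * R * p) * (x * R * p * star (x * R * p)) =
        x * R * p * (star (x * R * p) * (x * R * p)) * star (x * R * p) := by
          simp only [mul_assoc]
      _ = x * R * p * star (x * R * p) := by rw [hvv, hvp]

end Pool.Agent.Lib.MP_5d1ef1_an_SC
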