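import Pool.Agent.Lib.MP_5d1ef1_an_SC.Cor
import Pool.Agent.Lib.MP_5d1ef1_an_SC.PI

set_option autoImplicit false

/-!
# MP_5d1ef1_an, project SC: comparison of projections, greedy choice
-/

namespace Pool.Agent.Lib.MP_5d1ef1_an_SC

open Filter Topology

universe u v w

variable {N : Type u} [CStarAlgebra N] {τ : N →ₗ[ℂ] ℂ}

/-- Facts on partial isometries: if `star v * v` is a projection then `v * (star v * v) = v`
(faithfulness: `star y * y = 0` for `y = v - v * (star v * v)`), `v * star v` is a projection and
`‖v‖ ≤ 1`. -/
theorem pi_facts (hτ : TracialVN τ) {v : N} (h : Pr (star v * v)) :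
    v * (star v * v) = v ∧ Pr (v * star v) ∧ ‖v‖ ≤ 1 := by
  have hv : v * (star v * v) = v := by
    have h0 : star (v - v * (star v * v)) * (v - v * (star v * v)) = 0 := by
      have e1 : star (v - v * (star v * v)) = star v - (star v * v) * star v := by
        rw [star_sub, star_mul, h.sa]
      have e2 : star v * (v * (star v * v)) = star v * v := by rw [← mul_assoc, h.idem]
      have e3 : star v * v * star v * v = star v * v := by
        rw [mul_assoc (star v * v), h.idem]
      have e4 : star v * v * star v * (v * (star v * v)) = star v * v := by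
        rw [mul_assoc (star v * v), e2, h.idem]
      rw [e1, sub_mul, mul_sub, mul_sub, e2, e3, e4]
      simp
    have h1 := hτ.faithful _ (by rw [h0, map_zero])
    exact (sub_eq_zero.1 h1).symm
  refine ⟨hv, ⟨by rw [star_mul, star_star], ?_⟩, ?_⟩
  · have e1 : v * star v * (v * star v) = v * (star v * v) * star v := by
      simp only [mul_assoc]
    rw [e1, hv]
  · have h1 : ‖v‖ * ‖v‖ ≤ 1 := by
      rw [← CStarRing.norm_star_mul_self]
      exact pr_norm_le h
    nlinarith [norm_nonneg v]

private structure CmA_G (e f v : N) : Prop where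
  pr : Pr (star v * v)
  l : f * v = v
  r : v * e = v

private structure CmA_A (e f v w : N) : Prop where
  pr : Pr (star w * w)
  l : (f - v * star v) * w = w
  r : w * (e - star v * v) = w

private theorem CmA_step (hτ : TracialVN τ) {e f v w : N} (he : Pr e) (hf : Pr f)
    (hv : CmA_G e f v) (hw : CmA_A e f v w) :
    CmA_G e f (v + w) ∧ star (v + w) * (v + w) = star v * v + star w * w := by
  obtain ⟨p1, p2, p3⟩ := pi_facts hτ hv.pr
  have sv : star v * f = star v := by
    have := congrArg star hv.l
    rwa [star_mul, hf.sa] at this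
  have se : e * star v = star v := by
    have := congrArg star hv.r
    rwa [star_mul, he.sa] at this
  have s1 : star v * v * star v = star v := by
    have := congrArg star p1
    rwa [star_mul, hv.pr.sa] at this
  have h1 : star v * w = 0 := by
    calc star v * w = star v * ((f - v * star v) * w) := by rw [hw.l]
      _ = (star v * f - star v * v * star v) * w := by noncomm_ring
      _ = 0 := by rw [sv, s1, sub_self, zero_mul]
  have h2 : star w * v = 0 := by
    have := congrArg star h1
    rwa [star_mul, star_star, star_zero] at this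
  have h3 : star (v + w) * (v + w) = star v * v + star w * w := by
    rw [star_add, add_mul, mul_add, mul_add, h1, h2]
    simp
  have h4 : star w * w * (star v * v) = 0 := by
    calc star w * w * (star v * v) = star w * (w * (e - star v * v)) * (star v * v) := by
          rw [hw.r]
      _ = star w * w * ((e * star v) * v - (star v * v) * (star v * v)) := by noncomm_ring
      _ = 0 := by rw [se, hv.pr.idem, sub_self, mul_zero]
  refine ⟨⟨?_, ?_, ?_⟩, h3⟩
  · rw [h3, add_comm]
    exact pr_add hw.pr hv.pr h4
  · rw [mul_add, hv.l]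
    congr 1
    calc f * w = f * ((f - v * star v) * w) := by rw [hw.l]
      _ = (f * f - (f * v) * star v) * w := by noncomm_ring
      _ = w := by rw [hf.idem, hv.l, hw.l]
  · rw [add_mul, hv.r]
    congr 1
    calc w * e = w * (e - star v * v) * e := by rw [hw.r]
      _ = w * (e * e - star v * (v * e)) := by noncomm_ring
      _ = w := by rw [he.idem, hv.r, hw.r]

private theorem CmA_greedy (hτ : TracialVN τ) {e f v : N} :
    ∃ w, CmA_A e f v w ∧ ∀ w', CmA_A e f v w' →
      (τ (star w' * w')).re ≤ 2 * (τ (star w * w)).re := by
  have h0 : CmA_A e f v 0 := by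
    refine ⟨⟨by simp, by simp⟩, by simp, by simp⟩
  let X : Set ℝ := {t | ∃ w, CmA_A e f v w ∧ t = (τ (star w * w)).re}
  have hb : BddAbove X := by
    refine ⟨1, ?_⟩
    rintro t ⟨w, hw, rfl⟩
    exact pr_tr_le_one hτ hw.pr
  have h0X : (0 : ℝ) ∈ X := ⟨0, h0, by simp⟩
  have hs0 : 0 ≤ sSup X := le_csSup hb h0X
  rcases hs0.lt_or_eq with h1 | h1
  · obtain ⟨t, ⟨w, hw, rfl⟩, h3⟩ := exists_lt_of_lt_csSup ⟨0, h0X⟩ (half_lt_self h1)
    refine ⟨w, hw, fun w' hw' => ?_⟩
    have h4 : (τ (star w' * w')).re ≤ sSup X := le_csSup hb ⟨w', hw', rfl⟩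
    linarith
  · refine ⟨0, h0, fun w' hw' => ?_⟩
    have h4 : (τ (star w' * w')).re ≤ sSup X := le_csSup hb ⟨w', hw', rfl⟩
    simp only [star_zero, mul_zero, map_zero, Complex.zero_re]
    linarith

/-- Greedy choice.  `v 0 = 0`; given `v n` with `e n = e - star (v n) * v n` and
`f n = f - v n * star (v n)`, let `s n` be the supremum of `(τ (star w * w)).re` over the partial
isometries `w` with `f n * w = w`, `w * e n = w`; choose `w` with value at least `s n / 2` and put
`v (n + 1) = v n + w`.  The traces of the `w` are summable, so `s n → 0`; `v n` converges for the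
2-norm (`lim2_mono`, `b n = τ (star (v n) * v n)`) to `v`.  If both `e - star v * v` and
`f - v * star v` are nonzero, `corner_ne` and `exists_pi` give a nonzero partial isometry `w`
between them, which is admissible for every `n`, against `s n → 0`. -/
theorem cmp_max (hN : II1 τ) {e f : N} (he : Pr e) (hf : Pr f) :
    ∃ v : N, Pr (star v * v) ∧ f * v = v ∧ v * e = v ∧
      (star v * v = e ∨ v * star v = f) := by
  have hτ := hN.toTracialVN
  choose W hW1 hW2 using fun v : N => CmA_greedy hτ (e := e) (f := f) (v := v)
  let V : ℕ → N := fun n => Nat.rec 0 (fun _ v => v + W v) n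
  have V0 : V 0 = 0 := rfl
  have VS : ∀ n, V (n + 1) = V n + W (V n) := fun n => rfl
  have hG : ∀ n, CmA_G e f (V n) := by
    intro n
    induction n with
    | zero => exact ⟨⟨by simp [V0], by simp [V0]⟩, by simp [V0], by simp [V0]⟩
    | succ n ih => exact (CmA_step hτ he hf ih (hW1 _)).1
  have hI : ∀ n, star (V (n + 1)) * V (n + 1) = star (V n) * V n + star (W (V n)) * W (V n) :=
    fun n => (CmA_step hτ he hf (hG n) (hW1 _)).2
  have hsf : ∀ n, star (V n) * f = star (V n) := by
    intro n
    have := congrArg star (hG n).l
    rwa [star_mul, hf.sa] at this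
  have hse : ∀ n, e * star (V n) = star (V n) := by
    intro n
    have := congrArg star (hG n).r
    rwa [star_mul, he.sa] at this
  -- the relations between the members of the sequence
  have hPQ : ∀ n m, n ≤ m → V m * (star (V n) * V n) = V n ∧
      star (V n) * V m = star (V n) * V n := by
    intro n m hnm
    induction m, hnm using Nat.le_induction with
    | base => exact ⟨(pi_facts hτ (hG n).pr).1, rfl⟩
    | succ m hm ih =>
      obtain ⟨h1, h2⟩ := ih
      have h3 : star (V m) * V n = star (V n) * V n := by
        have := congrArg star h2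
        rwa [star_mul, star_star, (hG n).pr.sa] at this
      have h4 : (star (V n) * V n) * star (V m) = star (V n) := by
        have := congrArg star h1
        rwa [star_mul, (hG n).pr.sa] at this
      have h5 : W (V m) * (star (V n) * V n) = 0 := by
        calc W (V m) * (star (V n) * V n)
            = W (V m) * (e - star (V m) * V m) * (star (V n) * V n) := by rw [(hW1 (V m)).r]
          _ = W (V m) * ((e * star (V n)) * V n - star (V m) * (V m * (star (V n) * V n))) := by
            noncomm_ring
          _ = 0 := by rw [hse, h1, h3, sub_self, mul_zero]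
      have h6 : star (V n) * W (V m) = 0 := by
        calc star (V n) * W (V m) = star (V n) * ((f - V m * star (V m)) * W (V m)) := by
              rw [(hW1 (V m)).l]
          _ = (star (V n) * f - (star (V n) * V m) * star (V m)) * W (V m) := by noncomm_ring
          _ = 0 := by rw [hsf, h2, h4, sub_self, zero_mul]
      rw [VS, add_mul, mul_add, h1, h2, h5, h6, add_zero, add_zero]
      exact ⟨rfl, rfl⟩
  let b : ℕ → ℝ := fun n => (τ (star (V n) * V n)).re
  have hb1 : ∀ n, b n ≤ 1 := fun n => pr_tr_le_one hτ (hG n).pr
  have hbS : ∀ n, b (n + 1) = b n + (τ (star (W (V n)) * W (V n))).re := by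
    intro n
    show (τ (star (V (n + 1)) * V (n + 1))).re = _
    rw [hI, map_add, Complex.add_re]
  have hd : ∀ n m, n ≤ m → norm2 τ (V m - V n) ^ 2 ≤ b m - b n := by
    intro n m hnm
    obtain ⟨h1, h2⟩ := hPQ n m hnm
    have h3 : star (V m) * V n = star (V n) * V n := by
      have := congrArg star h2
      rwa [star_mul, star_star, (hG n).pr.sa] at this
    rw [norm2_sq hτ]
    have h4 : star (V m - V n) * (V m - V n) = star (V m) * V m - star (V n) * V n := by
      rw [star_sub, sub_mul, mul_sub, mul_sub, h2, h3]
      abel
    rw [h4, map_sub, Complex.sub_re]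
  have hbd : ∃ C : ℝ, ∀ n, ‖V n‖ ≤ C := ⟨1, fun n => (pi_facts hτ (hG n).pr).2.2⟩
  obtain ⟨v, hv⟩ := lim2_mono hτ hbd b ⟨1, hb1⟩ hd
  have hbd' : ∃ C : ℝ, ∀ n, ‖star (V n)‖ ≤ C := by
    obtain ⟨C, hC⟩ := hbd
    exact ⟨C, fun n => by rw [norm_star]; exact hC n⟩
  have hvp : Pr (star v * v) :=
    lim2_pr hτ (lim2_mul hτ (lim2_star hτ hv) hv hbd') fun n => (hG n).pr
  have hvl : f * v = v := by
    have h1 := lim2_mul_left hτ f hv
    have h2 : (fun n => f * V n) = V := funext fun n => (hG n).l
    rw [h2] at h1
    exact lim2_unique hτ h1 hv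
  have hvr : v * e = v := by
    have h1 := lim2_mul_right hτ e hv
    have h2 : (fun n => V n * e) = V := funext fun n => (hG n).r
    rw [h2] at h1
    exact lim2_unique hτ h1 hv
  refine ⟨v, hvp, hvl, hvr, ?_⟩
  by_contra hcon
  rw [not_or] at hcon
  obtain ⟨q1, q2, q3⟩ := pi_facts hτ hvp
  have hev : ∀ {x : ℕ → N} {y z : N} (n : ℕ), Lim2 τ x y → (∀ m, n ≤ m → x m = z) → y = z := by
    intro x y z n h1 h2
    refine lim2_unique hτ h1 ?_
    refine (lim2_const (τ := τ) z).congr' ?_
    filter_upwards [eventually_ge_atTop n] with m hm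
    rw [h2 m hm]
  have hQ : ∀ n, v * (star (V n) * V n) = V n := fun n =>
    hev n (lim2_mul_right hτ _ hv) fun m hm => (hPQ n m hm).1
  have hP : ∀ n, star (V n) * v = star (V n) * V n := fun n =>
    hev n (lim2_mul_left hτ _ hv) fun m hm => (hPQ n m hm).2
  have svf : star v * f = star v := by
    have := congrArg star hvl
    rwa [star_mul, hf.sa] at this
  have sve : e * star v = star v := by
    have := congrArg star hvr
    rwa [star_mul, he.sa] at this
  have hpe : Pr (e - star v * v) := pr_sub he hvp (by rw [mul_assoc, hvr])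
  have hpf : Pr (f - v * star v) := pr_sub hf q2 (by rw [mul_assoc, svf])
  have hne : e - star v * v ≠ 0 := fun h0 => hcon.1 (sub_eq_zero.1 h0).symm
  have hnf : f - v * star v ≠ 0 := fun h0 => hcon.2 (sub_eq_zero.1 h0).symm
  have hte : τ (e - star v * v) ≠ 0 := by
    intro h0
    have h1 := pr_tr_pos hτ hpe hne
    rw [h0] at h1
    simp at h1
  obtain ⟨x, hx⟩ := corner_ne hN hte hnf
  obtain ⟨w, w0, wl, wr, wp, -⟩ := exists_pi hτ hx hpe hpf (by
    rw [← mul_assoc, ← mul_assoc, hpf.idem, mul_assoc, hpe.idem])
  have hadm : ∀ n, CmA_A e f (V n) w := by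
    intro n
    refine ⟨wp, ?_, ?_⟩
    · have e1 : star (V n) * V n * star v = star (V n) := by
        have := congrArg star (hQ n)
        rwa [star_mul, (hG n).pr.sa] at this
      have e2 : V n * star (V n) * (f - v * star v) = 0 := by
        calc V n * star (V n) * (f - v * star v)
            = V n * (star (V n) * f - (star (V n) * v) * star v) := by noncomm_ring
          _ = 0 := by rw [hsf, hP, e1, sub_self, mul_zero]
      have e3 : f * (f - v * star v) = f - v * star v := by
        rw [mul_sub, hf.idem, ← mul_assoc, hvl]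
      calc (f - V n * star (V n)) * w = (f - V n * star (V n)) * ((f - v * star v) * w) := by
            rw [wl]
        _ = (f * (f - v * star v) - V n * star (V n) * (f - v * star v)) * w := by
            noncomm_ring
        _ = w := by rw [e2, e3, sub_zero, wl]
    · have e1 : star v * V n = star (V n) * V n := by
        have := congrArg star (hP n)
        rwa [star_mul, star_star, (hG n).pr.sa] at this
      have e2 : (e - star v * v) * (star (V n) * V n) = 0 := by
        calc (e - star v * v) * (star (V n) * V n)
            = (e * star (V n)) * V n - star v * (v * (star (V n) * V n)) := by noncomm_ring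
          _ = 0 := by rw [hse, hQ, e1, sub_self]
      have e3 : (e - star v * v) * e = e - star v * v := by
        rw [sub_mul, he.idem, mul_assoc, hvr]
      calc w * (e - star (V n) * V n) = w * (e - star v * v) * (e - star (V n) * V n) := by
            rw [wr]
        _ = w * ((e - star v * v) * e - (e - star v * v) * (star (V n) * V n)) := by
            noncomm_ring
        _ = w := by rw [e2, e3, sub_zero, wr]
  have hpos : 0 < (τ (star w * w)).re := by
    refine pr_tr_pos hτ wp fun h0 => w0 ?_
    exact hτ.faithful _ (by rw [h0, map_zero])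
  -- the values tend to zero
  have hlin : ∀ n : ℕ, (n : ℝ) * ((τ (star w * w)).re / 2) ≤ b n := by
    intro n
    induction n with
    | zero =>
      have : b 0 = 0 := by
        show (τ (star (V 0) * V 0)).re = 0
        rw [V0]
        simp
      rw [this]
      simp
    | succ n ih =>
      have h1 := hW2 (V n) w (hadm n)
      rw [hbS]
      push_cast
      linarith
  obtain ⟨n, hn⟩ := exists_nat_gt (1 / ((τ (star w * w)).re / 2))
  have h1 := hlin n
  have h2 := hb1 n
  rw [div_lt_iff₀ (by linarith)] at hn
  linarith

end Pool.Agent.Lib.MP_5d1ef1_an_SC
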