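import Pool.Agent.Lib.MP_5d1ef1_an_SC.CmA

set_option autoImplicit false

/-!
# MP_5d1ef1_an, project SC: comparison of projections
-/

namespace Pool.Agent.Lib.MP_5d1ef1_an_SC

open Filter Topology

universe u v w

variable {N : Type u} [CStarAlgebra N] {τ : N →ₗ[ℂ] ℂ}

/-- a subprojection with at least the same trace is the whole projection -/
private theorem CmB_eq (hτ : TracialVN τ) {p e : N} (hp : Pr p) (he : Pr e) (hpe : p * e = p)
    (h : (τ e).re ≤ (τ p).re) : p = e := by
  have hep : e * p = p := by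
    have h1 := congrArg star hpe
    rwa [star_mul, hp.sa, he.sa] at h1
  have h1 : star (e - p) * (e - p) = e - p := by
    rw [star_sub, hp.sa, he.sa, mul_sub, sub_mul, sub_mul, he.idem, hp.idem, hpe, hep]
    abel
  have h2 : (τ (star (e - p) * (e - p))).re ≤ 0 := by
    rw [h1, map_sub, Complex.sub_re]
    linarith
  obtain ⟨h3, h4⟩ := hτ.pos (e - p)
  have h5 : τ (star (e - p) * (e - p)) = 0 := Complex.ext (le_antisymm h2 h3) h4
  exact (sub_eq_zero.1 (hτ.faithful _ h5)).symm

/-- if `τ e ≤ τ f` then `e` is equivalent to a subprojection of `f` -/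
theorem cmp_le (hN : II1 τ) {e f : N} (he : Pr e) (hf : Pr f) (h : (τ e).re ≤ (τ f).re) :
    ∃ v : N, star v * v = e ∧ f * v = v ∧ v * e = v ∧ Pr (v * star v) := by
  obtain ⟨v, h1, h2, h3, h4⟩ := cmp_max hN he hf
  obtain ⟨-, h5, -⟩ := pi_facts hN.toTracialVN h1
  refine ⟨v, ?_, h2, h3, h5⟩
  rcases h4 with h4 | h4
  · exact h4
  · refine CmB_eq hN.toTracialVN h1 he ?_ ?_
    · rw [mul_assoc, h3]
    · rw [hN.toTracialVN.tr, h4]
      exact h

/-- projections with the same trace are equivalent -/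
theorem cmp_eq (hN : II1 τ) {e f : N} (he : Pr e) (hf : Pr f) (h : (τ e).re = (τ f).re) :
    ∃ v : N, star v * v = e ∧ v * star v = f := by
  obtain ⟨v, h1, h2, h3, h4⟩ := cmp_le hN he hf h.le
  refine ⟨v, h1, CmB_eq hN.toTracialVN h4 hf ?_ ?_⟩
  · have h5 : star (f * v) = star v := by rw [h2]
    rw [star_mul, hf.sa] at h5
    rw [mul_assoc, h5]
  · rw [← hN.toTracialVN.tr, h1]
    exact h.ge

end Pool.Agent.Lib.MP_5d1ef1_an_SC
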