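import Pool.Agent.Lib.MP_5d1ef1_an_SC.CmA
import Pool.Agent.Lib.MP_5d1ef1_an_SC.CmB

set_option autoImplicit false

/-!
# MP_5d1ef1_an, project SC: comparison of projections (all)
-/

namespace Pool.Agent.Lib.MP_5d1ef1_an_SC

open Filter Topology

universe u v w

variable {N : Type u} [CStarAlgebra N] {τ : N →ₗ[ℂ] ℂ}



end Pool.Agent.Lib.MP_5d1ef1_an_SC
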