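import Pool.Agent.Lib.MP_5d1ef1_an_SC.Lm

set_option autoImplicit false

/-!
# MP_5d1ef1_an, project SC: convex combinations of conjugates
-/

namespace Pool.Agent.Lib.MP_5d1ef1_an_SC

open Filter Topology

universe u v w

variable {N : Type u} [CStarAlgebra N] {τ : N →ₗ[ℂ] ℂ}

/-- convex combinations of the unitary conjugates of `e` -/
def Cvx (e : N) : Set N := convexHull ℝ {x | ∃ g ∈ unitary N, x = g * e * star g}

theorem cvx_facts (hτ : TracialVN τ) (e : N) : e ∈ Cvx e ∧ Convex ℝ (Cvx e) ∧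
    (∀ x ∈ Cvx e, ‖x‖ ≤ ‖e‖) ∧ (∀ x ∈ Cvx e, τ x = τ e) ∧
    (∀ x ∈ Cvx e, ∀ g ∈ unitary N, g * x * star g ∈ Cvx e) := by
  refine ⟨?_, convex_convexHull ℝ _, ?_, ?_, ?_⟩
  · refine subset_convexHull ℝ _ ⟨1, one_mem _, ?_⟩
    simp
  · have h : Cvx e ⊆ Metric.closedBall (0 : N) ‖e‖ := by
      refine convexHull_min ?_ (convex_closedBall (0 : N) ‖e‖)
      rintro x ⟨g, hg, rfl⟩
      rw [mem_closedBall_zero_iff, CStarRing.norm_mul_mem_unitary _ (Unitary.star_mem hg),
        CStarRing.norm_mem_unitary_mul _ hg]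
    intro x hx
    exact mem_closedBall_zero_iff.1 (h hx)
  · have h : Cvx e ⊆ (τ.restrictScalars ℝ) ⁻¹' {τ e} := by
      refine convexHull_min ?_ ((convex_singleton (τ e)).linear_preimage _)
      rintro x ⟨g, hg, rfl⟩
      show τ (g * e * star g) = τ e
      rw [hτ.tr, ← mul_assoc, (Unitary.mem_iff.1 hg).1, one_mul]
    intro x hx
    exact h hx
  · intro x hx g hg
    have hl : IsLinearMap ℝ (fun y : N => g * y * star g) := by
      refine ⟨fun a b => ?_, fun r a => ?_⟩
      · rw [mul_add, add_mul]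
      · rw [mul_smul_comm, smul_mul_assoc]
    have h : Cvx e ⊆ (fun y : N => g * y * star g) ⁻¹' Cvx e := by
      refine convexHull_min ?_ ((convex_convexHull ℝ _).is_linear_preimage hl)
      rintro y ⟨g', hg', rfl⟩
      refine subset_convexHull ℝ _ ⟨g * g', mul_mem hg hg', ?_⟩
      rw [star_mul]
      simp only [mul_assoc]
    exact h hx

end Pool.Agent.Lib.MP_5d1ef1_an_SC
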