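import Pool.Agent.Lib.MP_5d1ef1_an_SC.CoA

set_option autoImplicit false

/-!
# MP_5d1ef1_an, project SC: averaging
-/

namespace Pool.Agent.Lib.MP_5d1ef1_an_SC

open Filter Topology

universe u v w

variable {N : Type u} [CStarAlgebra N] {τ : N →ₗ[ℂ] ℂ}

private theorem CoB_dist (hτ : TracialVN τ) {e x y : N} {D a b : ℝ}
    (hD : ∀ z ∈ Cvx e, D ≤ norm2 τ z ^ 2) (hx : x ∈ Cvx e) (hy : y ∈ Cvx e)
    (ha : norm2 τ x ^ 2 ≤ D + a) (hb : norm2 τ y ^ 2 ≤ D + b) :
    norm2 τ (x - y) ^ 2 ≤ 2 * a + 2 * b := by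
  have h1 : (1 / 2 : ℝ) • x + (1 / 2 : ℝ) • y ∈ Cvx e :=
    (cvx_facts hτ e).2.1 hx hy (by norm_num) (by norm_num) (by norm_num)
  have h2 : (1 / 2 : ℝ) • x + (1 / 2 : ℝ) • y = ((1 / 2 : ℝ) : ℂ) • (x + y) := by
    rw [← smul_add]
    rfl
  have h3 := hD _ h1
  rw [h2, norm2_smul, mul_pow] at h3
  have h4 : ‖((1 / 2 : ℝ) : ℂ)‖ ^ 2 = 1 / 4 := by
    rw [Complex.norm_real]
    norm_num
  rw [h4] at h3
  have h5 := norm2_para hτ x y
  linarith

private theorem CoB_le {t ε : ℝ} (hε : 0 ≤ ε) (h : t ^ 2 ≤ ε ^ 2) : t ≤ ε := by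
  exact le_of_sq_le_sq h hε

/-- Choose `x n ∈ Cvx e` with `norm2 (x n)` tending to the infimum; by `norm2_para` it is Cauchy;
let `c` be the limit.  For a unitary `g` the sequence `g * x n * star g` is again minimising, so by
`norm2_para` its distance to `x n` tends to zero and `g * c * star g = c`.  The unitaries span `N`
(`CStarAlgebra.span_unitary`), so `c` is central, `c = τ c = τ e` (factor). -/
theorem dixmier (hN : II1 τ) (e : N) :
    ∃ x : ℕ → N, (∀ n, x n ∈ Cvx e) ∧ Lim2 τ x (τ e • (1 : N)) := by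
  have hτ := hN.toTracialVN
  obtain ⟨f1, f2, f3, f4, f5⟩ := cvx_facts hτ e
  obtain ⟨D, hDdef⟩ : ∃ D : ℝ, D = sInf ((fun x => norm2 τ x ^ 2) '' Cvx e) := ⟨_, rfl⟩
  have hne : ((fun x => norm2 τ x ^ 2) '' Cvx e).Nonempty := ⟨_, e, f1, rfl⟩
  have hbd : BddBelow ((fun x => norm2 τ x ^ 2) '' Cvx e) := by
    refine ⟨0, ?_⟩
    rintro _ ⟨x, -, rfl⟩
    exact sq_nonneg _
  have hD : ∀ z ∈ Cvx e, D ≤ norm2 τ z ^ 2 := by
    intro z hz
    rw [hDdef]
    exact csInf_le hbd ⟨z, hz, rfl⟩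
  have hex : ∀ n : ℕ, ∃ x ∈ Cvx e, norm2 τ x ^ 2 ≤ D + 1 / ((n : ℝ) + 1) := by
    intro n
    have h1 : sInf ((fun x => norm2 τ x ^ 2) '' Cvx e) < D + 1 / ((n : ℝ) + 1) := by
      rw [← hDdef]
      have : (0 : ℝ) < 1 / ((n : ℝ) + 1) := by positivity
      linarith
    obtain ⟨_, ⟨x, hx, rfl⟩, h2⟩ := exists_lt_of_csInf_lt hne h1
    exact ⟨x, hx, h2.le⟩
  choose x hx hx2 using hex
  have hxb : ∃ C : ℝ, ∀ n, ‖x n‖ ≤ C := ⟨‖e‖, fun n => f3 _ (hx n)⟩
  have hcau : ∀ ε : ℝ, 0 < ε → ∃ n₀ : ℕ, ∀ m ≥ n₀, ∀ n ≥ n₀, norm2 τ (x m - x n) ≤ ε := by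
    intro ε hε
    obtain ⟨n₀, hn₀⟩ := exists_nat_one_div_lt (show (0 : ℝ) < ε ^ 2 / 4 by positivity)
    refine ⟨n₀, fun m hm n hn => CoB_le hε.le ?_⟩
    have h1 := CoB_dist hτ hD (hx m) (hx n) (hx2 m) (hx2 n)
    have h2 : 1 / ((m : ℝ) + 1) ≤ 1 / ((n₀ : ℝ) + 1) := by
      apply one_div_le_one_div_of_le (by positivity)
      have : (n₀ : ℝ) ≤ m := by exact_mod_cast hm
      linarith
    have h3 : 1 / ((n : ℝ) + 1) ≤ 1 / ((n₀ : ℝ) + 1) := by
      apply one_div_le_one_div_of_le (by positivity)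
      have : (n₀ : ℝ) ≤ n := by exact_mod_cast hn
      linarith
    linarith
  obtain ⟨c, hc⟩ := lim2_cauchy hτ hxb hcau
  have hz : ∀ g ∈ unitary N, c * g = g * c := by
    intro g hg
    have h1 : Lim2 τ (fun n => g * x n * star g) (g * c * star g) :=
      lim2_mul_right hτ (star g) (lim2_mul_left hτ g hc)
    have h2 := lim2_norm2 hτ (lim2_sub hτ hc h1)
    have h3 : Tendsto (fun n => norm2 τ (x n - g * x n * star g)) atTop (𝓝 0) := by
      rw [Metric.tendsto_atTop]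
      intro ε hε
      obtain ⟨n₀, hn₀⟩ := exists_nat_one_div_lt (show (0 : ℝ) < (ε / 2) ^ 2 / 4 by positivity)
      refine ⟨n₀, fun n hn => ?_⟩
      have h3 : 1 / ((n : ℝ) + 1) ≤ 1 / ((n₀ : ℝ) + 1) := by
        apply one_div_le_one_div_of_le (by positivity)
        have : (n₀ : ℝ) ≤ n := by exact_mod_cast hn
        linarith
      have h4 : norm2 τ (g * x n * star g) ^ 2 ≤ D + 1 / ((n : ℝ) + 1) := by
        rw [norm2_conj hτ hg]
        exact hx2 n
      have h5 := CoB_dist hτ hD (hx n) (f5 _ (hx n) g hg) (hx2 n) h4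
      have h6 : norm2 τ (x n - g * x n * star g) ≤ ε / 2 := by
        refine CoB_le (by linarith) ?_
        linarith
      rw [Real.dist_eq, sub_zero, abs_of_nonneg (norm2_nonneg _)]
      linarith
    have h4 : c - g * c * star g = 0 := eq_zero_of_norm2 hτ (tendsto_nhds_unique h2 h3)
    have h5 : c = g * c * star g := sub_eq_zero.1 h4
    calc c * g = g * c * star g * g := by rw [← h5]
      _ = g * c * (star g * g) := by rw [mul_assoc (g * c)]
      _ = g * c := by rw [Unitary.star_mul_self_of_mem hg, mul_one]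
  have hcent : ∀ y : N, c * y = y * c := by
    intro y
    have hy : y ∈ Submodule.span ℂ (unitary N : Set N) := by
      rw [CStarAlgebra.span_unitary]
      exact Submodule.mem_top
    induction hy using Submodule.span_induction with
    | mem g hg => exact hz g hg
    | zero => simp
    | add a b _ _ ha hb => rw [mul_add, add_mul, ha, hb]
    | smul r a _ ha => rw [mul_smul_comm, smul_mul_assoc, ha]
  obtain ⟨r, hr⟩ := hN.factor c hcent
  have h1 := lim2_tr hτ hc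
  have h2 : Tendsto (fun n => τ (x n)) atTop (𝓝 (τ e)) := by
    have : (fun n => τ (x n)) = fun _ => τ e := funext fun n => f4 _ (hx n)
    rw [this]
    exact tendsto_const_nhds
  have h3 : τ c = τ e := tendsto_nhds_unique h1 h2
  have h4 : r = τ e := by
    rw [← h3, hr, map_smul, hτ.one, smul_eq_mul, mul_one]
  refine ⟨x, hx, ?_⟩
  rw [← h4, ← hr]
  exact hc

end Pool.Agent.Lib.MP_5d1ef1_an_SC
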