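import Pool.Agent.Lib.MP_5d1ef1_an_SC.CoB

set_option autoImplicit false

/-!
# MP_5d1ef1_an, project SC: corners of factors
-/

namespace Pool.Agent.Lib.MP_5d1ef1_an_SC

open Filter Topology

universe u v w

variable {N : Type u} [CStarAlgebra N] {τ : N →ₗ[ℂ] ℂ}

/-- If `f * g * e = 0` for all unitaries `g`, then `f * x = 0` for all `x` in `Cvx e` (as
`f * (g * e * star g) = 0`), so `τ e • f = 0` by `dixmier`. -/
theorem corner_ne (hN : II1 τ) {e f : N} (he : τ e ≠ 0) (hf : f ≠ 0) :
    ∃ x : N, f * x * e ≠ 0 := by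
  by_contra hc
  push Not at hc
  have hτ : TracialVN τ := hN.toTracialVN
  obtain ⟨x, hx, hl⟩ := dixmier hN e
  have h1 : Cvx e ⊆ {y : N | f * y = 0} := by
    refine convexHull_min ?_ ?_
    · rintro _ ⟨g, -, rfl⟩
      change f * (g * e * star g) = 0
      rw [← mul_assoc, ← mul_assoc, hc g, zero_mul]
    · intro y hy z hz a b _ _ _
      change f * y = 0 at hy
      change f * z = 0 at hz
      change f * (a • y + b • z) = 0
      rw [mul_add, mul_smul_comm, mul_smul_comm, hy, hz, smul_zero, smul_zero, add_zero]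
  have h2 : Lim2 τ (fun n => f * x n) (f * (τ e • (1 : N))) := lim2_mul_left hτ f hl
  have h3 : (fun n => f * x n) = fun _ => (0 : N) := funext fun n => h1 (hx n)
  rw [h3] at h2
  have h4 : (0 : N) = f * (τ e • (1 : N)) := lim2_unique hτ (lim2_const 0) h2
  rw [mul_smul_comm, mul_one] at h4
  rcases smul_eq_zero.1 h4.symm with h5 | h5
  · exact he h5
  · exact hf h5

end Pool.Agent.Lib.MP_5d1ef1_an_SC
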