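import Pool.Agent.Lib.MP_5d1ef1_an_SC.DcA

set_option autoImplicit false

/-!
# MP_5d1ef1_an, project SC: the dichotomy
-/

namespace Pool.Agent.Lib.MP_5d1ef1_an_SC

open Filter Topology

universe u v w

variable {N : Type u} [CStarAlgebra N] {τ : N →ₗ[ℂ] ℂ}

private theorem DcB_norm (hτ : TracialVN τ) {u : N} (hu : u ∈ unitary N) : ‖u‖ ≤ 1 := by
  have hne : Nontrivial N := by
    refine ⟨⟨1, 0, fun h => ?_⟩⟩
    have h1 := hτ.one
    rw [h, map_zero] at h1
    exact zero_ne_one h1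
  exact (CStarRing.norm_of_mem_unitary hu).le

private theorem DcB_conj (hτ : TracialVN τ) {a g v : N} (ha : a ∈ unitary N)
    (hg : g ∈ unitary N) (hv : v ∈ unitary N) :
    norm2 τ (a * v * star a - g * v * star g) ≤ 2 * norm2 τ (g - a) := by
  have h1 : a * v * star a - g * v * star g
      = (a - g) * v * star a + g * (v * star (a - g)) := by
    rw [star_sub]
    noncomm_ring
  have h2 : norm2 τ ((a - g) * v * star a) = norm2 τ (g - a) := by
    rw [norm2_mul_unit hτ (Unitary.star_mem ha), norm2_mul_unit hτ hv, norm2_sub_comm]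
  have h3 : norm2 τ (g * (v * star (a - g))) = norm2 τ (g - a) := by
    rw [norm2_unit_mul hg, norm2_unit_mul hv, norm2_star hτ, norm2_sub_comm]
  rw [h1]
  refine (norm2_add_le hτ _ _).trans ?_
  rw [h2, h3]
  linarith

/-- `exists_root`, `dc_small`, `dc_pow`, `haar_approx`, `rr_closed` -/
theorem dc_uniform (hN : II1 τ) {n : ℕ} {u v₁ : N} (hu : IsHaar τ u) (hv : IsHaar τ v₁)
    {δ : ℝ} (hδ : 0 < δ) (h : ∀ v : N, IsHaar τ v → norm2 τ (v - v₁) < δ → RR τ n u v) :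
    ∃ L : ℕ, ∀ u v : N, IsHaar τ u → IsHaar τ v → RR τ L u v := by
  have hτ := hN.toTracialVN
  obtain ⟨M, hM⟩ := exists_root hτ (show 0 < δ / 3 by linarith)
  have key : ∀ v : N, IsHaar τ v → RR τ (M * (2 * n + 1 + 1)) v₁ v := by
    intro v hv'
    refine rr_closed hτ (DcB_norm hτ hv.mem) (DcB_norm hτ hv'.mem) fun ε hε => ?_
    obtain ⟨g, hg, hg'⟩ := haar_approx hN hv hv' (show 0 < ε / 2 by linarith)
    obtain ⟨k, hk, hk1, hk2⟩ := hM g hg (ε / 4) (by linarith)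
    have hkM : k ^ M ∈ unitary N := pow_mem hk M
    refine ⟨v₁, k ^ M * v₁ * star (k ^ M), DcB_norm hτ hv.mem,
      DcB_norm hτ (mul_mem (mul_mem hkM hv.mem) (Unitary.star_mem hkM)), ?_, ?_,
      dc_pow hτ hv hk (dc_small hτ hu hv hδ h hk hk1) M⟩
    · rw [sub_self, norm2_zero]
      exact hε.le
    · have h1 := norm2_tri hτ (k ^ M * v₁ * star (k ^ M)) (g * v₁ * star g) v
      have h2 := DcB_conj hτ hkM hg hv.mem
      linarith
  exact ⟨M * (2 * n + 1 + 1) + M * (2 * n + 1 + 1) + 1, fun u' v' hu' hv' =>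
    rr_trans hτ hv (rr_symm hτ (key u' hu')) (key v' hv')⟩

/-- If `E n = {v | RR n u v}` is not nowhere dense for some `n`, then (closedness) it contains a
ball; otherwise the orbit is meagre. -/
theorem dichotomy (hN : II1 τ) :
    (∃ L : ℕ, ∀ u v : N, IsHaar τ u → IsHaar τ v → RR τ L u v) ∨
      ∀ u : N, IsHaar τ u → Mgr τ {v | IsHaar τ v ∧ ∃ n, RR τ n u v} := by
  have hτ := hN.toTracialVN
  by_cases hA : ∀ u : N, IsHaar τ u → ∀ n : ℕ, Nwd τ {v | RR τ n u v}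
  · refine Or.inr fun u hu => ⟨fun n => {v | RR τ n u v}, hA u hu, ?_⟩
    rintro v ⟨-, n, hn⟩
    exact Set.mem_iUnion.2 ⟨n, hn⟩
  · refine Or.inl ?_
    push Not at hA
    obtain ⟨u, hu, n, hn⟩ := hA
    unfold Nwd at hn
    push Not at hn
    obtain ⟨v, hv, ε, hε, hn⟩ := hn
    refine dc_uniform hN (n := n) hu hv hε fun v' hv' hv'' => ?_
    refine rr_closed hτ (DcB_norm hτ hu.mem) (DcB_norm hτ hv'.mem) fun ε' hε' => ?_
    obtain ⟨w, hw1, hw2, hw3⟩ := hn v' hv' hv'' ε' hε'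
    refine ⟨u, w, DcB_norm hτ hu.mem, DcB_norm hτ hw1.mem, ?_, hw2.le, hw3⟩
    rw [sub_self, norm2_zero]
    exact hε'.le

end Pool.Agent.Lib.MP_5d1ef1_an_SC
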