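import Pool.Agent.Lib.MP_5d1ef1_an_SC.LgA

set_option autoImplicit false

/-!
# MP_5d1ef1_an, project SC: logarithms: cutting the circle
-/

namespace Pool.Agent.Lib.MP_5d1ef1_an_SC

open Filter Topology

universe u v w

variable {N : Type u} [CStarAlgebra N] {τ : N →ₗ[ℂ] ℂ}

/-- `|exp (i x) - exp (i y)| ≤ |x - y|` -/
theorem LgB_exp_sub (x y : ℝ) :
    ‖Complex.exp (Complex.I * x) - Complex.exp (Complex.I * y)‖ ≤ |x - y| := by
  have h := Real.norm_exp_I_mul_ofReal_sub_one_le (x := x - y)
  have e : Complex.exp (Complex.I * x) - Complex.exp (Complex.I * y)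
      = Complex.exp (Complex.I * y) * (Complex.exp (Complex.I * ((x - y : ℝ) : ℂ)) - 1) := by
    rw [mul_sub, mul_one, ← Complex.exp_add]
    congr 2
    push_cast
    ring
  rw [e, norm_mul, mul_comm Complex.I (y : ℂ), Complex.norm_exp_ofReal_mul_I, one_mul]
  rwa [Real.norm_eq_abs] at h

/-- the modified argument is continuous on the circle -/
theorem LgB_cont {β : ℂ → ℝ} (hβ : Continuous β) (hm : β (-1) = 1) :
    ContinuousOn (fun z => Complex.arg z * (1 - β z)) (Metric.sphere (0 : ℂ) 1) := by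
  intro z hz
  by_cases hs : z ∈ Complex.slitPlane
  · exact ((Complex.continuousAt_arg hs).mul
      (continuousAt_const.sub hβ.continuousAt)).continuousWithinAt
  · have hz1 : z = -1 := by
      rw [Complex.mem_slitPlane_iff_not_le_zero, not_not] at hs
      have h1 := hs.1
      have h2 : z.im = 0 := hs.2
      have h3 : z.re ≤ 0 := h1
      rw [mem_sphere_zero_iff_norm] at hz
      have h4 : z = ((z.re : ℝ) : ℂ) := by
        apply Complex.ext <;> simp [h2]
      rw [h4, Complex.norm_real, Real.norm_eq_abs, abs_of_nonpos h3] at hz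
      rw [h4]
      have h5 : z.re = -1 := by linarith
      rw [h5]
      simp
    rw [hz1]
    have hlim : Tendsto (fun z => Complex.arg z * (1 - β z)) (𝓝 (-1 : ℂ)) (𝓝 0) := by
      have hb : Tendsto (fun z => 1 - β z) (𝓝 (-1 : ℂ)) (𝓝 0) := by
        have h6 := (hβ.tendsto (-1)).const_sub 1
        rw [hm, sub_self] at h6
        exact h6
      refine squeeze_zero_norm (a := fun z => Real.pi * |1 - β z|) (fun z => ?_) ?_
      · rw [norm_mul, Real.norm_eq_abs, Real.norm_eq_abs]
        exact mul_le_mul_of_nonneg_right (Complex.abs_arg_le_pi z) (abs_nonneg _)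
      · have h7 := (hb.abs).const_mul Real.pi
        rw [abs_zero, mul_zero] at h7
        exact h7
    have h8 : (fun z => Complex.arg z * (1 - β z)) (-1 : ℂ) = 0 := by
      show Complex.arg (-1 : ℂ) * (1 - β (-1)) = 0
      rw [hm, sub_self, mul_zero]
    show Tendsto _ _ _
    rw [h8]
    exact hlim.mono_left nhdsWithin_le_nhds

/-- the pointwise estimate -/
theorem LgB_pt {b : ℝ} (h0 : 0 ≤ b) (h1 : b ≤ 1) {z : ℂ} (hz : ‖z‖ = 1) :
    ‖Complex.exp (Complex.I * ((Complex.arg z * (1 - b) : ℝ) : ℂ)) - z‖ ^ 2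
      ≤ Real.pi ^ 2 * b := by
  have hzz : Complex.exp (Complex.I * (Complex.arg z : ℂ)) = z := by
    have h := Complex.norm_mul_exp_arg_mul_I z
    rw [hz, Complex.ofReal_one, one_mul] at h
    rw [mul_comm]
    exact h
  have h2 := LgB_exp_sub (Complex.arg z * (1 - b)) (Complex.arg z)
  rw [hzz] at h2
  have h3 : |Complex.arg z * (1 - b) - Complex.arg z| ≤ Real.pi * b := by
    rw [show Complex.arg z * (1 - b) - Complex.arg z = -(Complex.arg z * b) by ring, abs_neg,
      abs_mul, abs_of_nonneg h0]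
    exact mul_le_mul_of_nonneg_right (Complex.abs_arg_le_pi z) h0
  have h4 := h2.trans h3
  calc _ ≤ (Real.pi * b) ^ 2 := by gcongr
    _ = Real.pi ^ 2 * (b * b) := by ring
    _ ≤ Real.pi ^ 2 * b := by
        have : b * b ≤ b := by nlinarith
        gcongr

/-- A unitary `g` with `τ (β(g)) ≤ η` for a continuous bump `β` around `-1` (`β = 1` near `-1`,
`0 ≤ β ≤ 1`): with `a z = arg z * (1 - β z)`, continuous on the circle, and `h = cfc a g`,
`|exp (i a z) - z| ≤ π β z` on the circle, so `norm2 (ex h - g) ^ 2 ≤ π ^ 2 η`, `‖h‖ ≤ π`. -/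
theorem log_of_bump (hτ : TracialVN τ) {g : N} (hg : g ∈ unitary N) {β : ℂ → ℝ}
    (hβ : Continuous β) (h0 : ∀ z, 0 ≤ β z) (h1 : ∀ z, β z ≤ 1) (hm : β (-1) = 1) {η : ℝ}
    (hη : (τ (cfc (fun z => (β z : ℂ)) g)).re ≤ η) :
    ∃ h : N, star h = h ∧ ‖h‖ ≤ Real.pi ∧ norm2 τ (ex h - g) ^ 2 ≤ Real.pi ^ 2 * η := by
  have hn : IsStarNormal g := isStarNormal_of_mem_unitary hg
  have hsp : spectrum ℂ g ⊆ Metric.sphere (0 : ℂ) 1 := spectrum.subset_circle_of_unitary hg
  have hcr : ContinuousOn (fun z => Complex.arg z * (1 - β z)) (spectrum ℂ g) :=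
    (LgB_cont hβ hm).mono hsp
  obtain ⟨a, ha⟩ : ∃ a : ℂ → ℂ, a = fun z => ((Complex.arg z * (1 - β z) : ℝ) : ℂ) := ⟨_, rfl⟩
  have hca : ContinuousOn a (spectrum ℂ g) := by
    rw [ha]
    exact Complex.continuous_ofReal.comp_continuousOn hcr
  have hstar : star (cfc a g) = cfc a g := by
    rw [← cfc_star]
    congr 1
    funext z
    rw [ha]
    exact Complex.conj_ofReal _
  have hexp : ex (cfc a g) = cfc (fun z => Complex.exp (Complex.I * a z)) g := by
    have h3 : (Complex.I : ℂ) • cfc a g = cfc (fun z => Complex.I * a z) g := by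
      rw [← cfc_const_mul Complex.I a g hca]
    have hca2 : ContinuousOn (fun z => Complex.I * a z) (spectrum ℂ g) :=
      continuousOn_const.mul hca
    unfold ex
    rw [h3, ← CFC.exp_eq_normedSpace_exp (𝕜 := ℂ) (cfc_predicate _ g), ← Complex.exp_eq_exp_ℂ,
      ← cfc_comp' Complex.exp (fun z => Complex.I * a z) g
        Complex.continuous_exp.continuousOn hca2]
  refine ⟨cfc a g, hstar, ?_, ?_⟩
  · refine norm_cfc_le Real.pi_pos.le fun z _ => ?_
    have h2 : 1 - β z ≤ 1 := by linarith [h0 z]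
    have h3 := Complex.abs_arg_le_pi z
    have h4 : 0 ≤ 1 - β z := by linarith [h1 z]
    rw [ha, Complex.norm_real, Real.norm_eq_abs, abs_mul, abs_of_nonneg h4]
    calc |Complex.arg z| * (1 - β z) ≤ Real.pi * 1 := by gcongr
      _ = Real.pi := mul_one _
  · have hcE : ContinuousOn (fun z => Complex.exp (Complex.I * a z)) (spectrum ℂ g) :=
      Complex.continuous_exp.comp_continuousOn (continuousOn_const.mul hca)
    have hsub : ex (cfc a g) - g = cfc (fun z => Complex.exp (Complex.I * a z) - z) g := by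
      rw [hexp, cfc_sub (fun z => Complex.exp (Complex.I * a z)) (fun z => z) g hcE
        continuousOn_id, cfc_id' ℂ g]
    have hcf : ContinuousOn (fun z => Complex.exp (Complex.I * a z) - z) (spectrum ℂ g) :=
      hcE.sub continuousOn_id
    rw [hsub, norm2_cfc_sq hτ hn hcf]
    have hle := tr_cfc_mono hτ hn
      (r := fun z => ‖Complex.exp (Complex.I * a z) - z‖ ^ 2)
      (s := fun z => Real.pi ^ 2 * β z) (hcf.norm.pow 2)
      (continuous_const.mul hβ).continuousOn (fun z hz => by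
        have hz1 : ‖z‖ = 1 := mem_sphere_zero_iff_norm.mp (hsp hz)
        have h5 := LgB_pt (h0 z) (h1 z) hz1
        rw [ha]
        exact h5)
    refine hle.trans ?_
    have h6 : cfc (fun z => ((Real.pi ^ 2 * β z : ℝ) : ℂ)) g
        = ((Real.pi ^ 2 : ℝ) : ℂ) • cfc (fun z => (β z : ℂ)) g := by
      rw [← cfc_const_mul ((Real.pi ^ 2 : ℝ) : ℂ) (fun z => (β z : ℂ)) g
        (Complex.continuous_ofReal.comp hβ).continuousOn]
      congr 1
      funext z
      push_cast
      ring
    rw [h6, map_smul, smul_eq_mul, Complex.re_ofReal_mul]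
    gcongr

end Pool.Agent.Lib.MP_5d1ef1_an_SC
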