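import Pool.Agent.Lib.MP_5d1ef1_an_SC.LgB

set_option autoImplicit false

/-!
# MP_5d1ef1_an, project SC: logarithms of unitaries
-/

namespace Pool.Agent.Lib.MP_5d1ef1_an_SC

open Filter Topology

universe u v w

variable {N : Type u} [CStarAlgebra N] {τ : N →ₗ[ℂ] ℂ}

private noncomputable def LgC_b (K : ℕ) (j : ℕ) (z : ℂ) : ℝ :=
  max 0 (1 - |2 * K * z.re - 2 * j|)

private theorem LgC_cont (K j : ℕ) : Continuous (LgC_b K j) := by
  unfold LgC_b
  fun_prop

private theorem LgC_nonneg (K j : ℕ) (z : ℂ) : 0 ≤ LgC_b K j z := le_max_left _ _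

private theorem LgC_le_one (K j : ℕ) (z : ℂ) : LgC_b K j z ≤ 1 := by
  unfold LgC_b
  refine max_le (by norm_num) ?_
  have := abs_nonneg (2 * K * z.re - 2 * (j : ℝ))
  linarith

private theorem LgC_sum (K : ℕ) (z : ℂ) : ∑ j ∈ Finset.range K, LgC_b K j z ≤ 1 := by
  by_cases h : ∃ i ∈ Finset.range K, 0 < LgC_b K i z
  · obtain ⟨i, hi, hi0⟩ := h
    rw [Finset.sum_eq_single_of_mem i hi]
    · exact LgC_le_one K i z
    · intro j _ hji
      by_contra hne
      have hj0 : 0 < LgC_b K j z := lt_of_le_of_ne (LgC_nonneg K j z) (Ne.symm hne)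
      have h1 : |2 * K * z.re - 2 * (i : ℝ)| < 1 := by
        rcases lt_max_iff.1 hi0 with h | h
        · exact absurd h (lt_irrefl _)
        · linarith
      have h2 : |2 * K * z.re - 2 * (j : ℝ)| < 1 := by
        rcases lt_max_iff.1 hj0 with h | h
        · exact absurd h (lt_irrefl _)
        · linarith
      have h1' := abs_lt.1 h1
      have h2' := abs_lt.1 h2
      apply hji
      have h3 : (j : ℝ) < i + 1 := by linarith [h1'.1, h1'.2, h2'.1, h2'.2]
      have h4 : (i : ℝ) < j + 1 := by linarith [h1'.1, h1'.2, h2'.1, h2'.2]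
      have h5 : j < i + 1 := by exact_mod_cast h3
      have h6 : i < j + 1 := by exact_mod_cast h4
      omega
  · push Not at h
    calc ∑ j ∈ Finset.range K, LgC_b K j z ≤ ∑ j ∈ Finset.range K, (0 : ℝ) :=
          Finset.sum_le_sum h
      _ ≤ 1 := by simp

/-- one of the bumps has small trace -/
private theorem LgC_bump (hτ : TracialVN τ) {g : N} (hg : g ∈ unitary N) {K : ℕ} (hK : 0 < K) :
    ∃ j < K, (τ (cfc (fun z => (LgC_b K j z : ℂ)) g)).re ≤ 1 / K := by
  have hn : IsStarNormal g := by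
    have := Unitary.mem_iff.1 hg
    exact ⟨by rw [Commute, SemiconjBy, this.1, this.2]⟩
  have h1 : (τ (cfc (fun z => ((∑ j ∈ Finset.range K, LgC_b K j z : ℝ) : ℂ)) g)).re ≤
      (τ (cfc (fun _ => ((1 : ℝ) : ℂ)) g)).re := by
    refine tr_cfc_mono hτ hn (r := fun z => ∑ j ∈ Finset.range K, LgC_b K j z)
      (s := fun _ => (1 : ℝ)) ?_ continuousOn_const ?_
    · exact (continuous_finsetSum _ fun j _ => LgC_cont K j).continuousOn
    · intro z _
      exact LgC_sum K z
  have h2 : (τ (cfc (fun _ => ((1 : ℝ) : ℂ)) g)).re = 1 := by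
    have : cfc (fun _ : ℂ => ((1 : ℝ) : ℂ)) g = 1 := by
      have h := cfc_const (R := ℂ) (1 : ℂ) g
      simpa using h
    rw [this, hτ.one]
    simp
  have h3 : cfc (fun z => ((∑ j ∈ Finset.range K, LgC_b K j z : ℝ) : ℂ)) g =
      ∑ j ∈ Finset.range K, cfc (fun z => (LgC_b K j z : ℂ)) g := by
    have h := cfc_sum (R := ℂ) (fun (j : ℕ) (z : ℂ) => (LgC_b K j z : ℂ)) g (Finset.range K)
      (fun j _ => (Complex.continuous_ofReal.comp (LgC_cont K j)).continuousOn)
    rw [← h]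
    congr 1
    funext z
    simp [Finset.sum_apply]
  rw [h3, map_sum, h2, Complex.re_sum] at h1
  have h4 : ∑ j ∈ Finset.range K, (τ (cfc (fun z => (LgC_b K j z : ℂ)) g)).re ≤
      ∑ _j ∈ Finset.range K, (1 / K : ℝ) := by
    rw [Finset.sum_const, Finset.card_range, nsmul_eq_mul]
    have : (K : ℝ) ≠ 0 := by positivity
    rw [mul_one_div_cancel this]
    exact h1
  obtain ⟨j, hj, hj2⟩ := Finset.exists_le_of_sum_le (Finset.nonempty_range_iff.2 hK.ne') h4
  exact ⟨j, Finset.mem_range.1 hj, hj2⟩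

private theorem LgC_point {K j : ℕ} (hj : j < K) :
    ∃ ζ : ℂ, ‖ζ‖ = 1 ∧ LgC_b K j ζ = 1 := by
  have hK : (0 : ℝ) < K := by exact_mod_cast (Nat.zero_le j).trans_lt hj
  set x : ℝ := (j : ℝ) / K with hx
  have hx0 : 0 ≤ x := by positivity
  have hx1 : x ≤ 1 := by
    rw [hx, div_le_one hK]
    exact_mod_cast hj.le
  have hs : 0 ≤ 1 - x ^ 2 := by nlinarith
  refine ⟨⟨x, √(1 - x ^ 2)⟩, ?_, ?_⟩
  · have h1 : Complex.normSq ⟨x, √(1 - x ^ 2)⟩ = 1 := by
      rw [Complex.normSq_mk, Real.mul_self_sqrt hs]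
      ring
    have h2 : ‖(⟨x, √(1 - x ^ 2)⟩ : ℂ)‖ ^ 2 = 1 := by
      rw [← Complex.normSq_eq_norm_sq, h1]
    have h3 := norm_nonneg (⟨x, √(1 - x ^ 2)⟩ : ℂ)
    nlinarith
  · unfold LgC_b
    have : 2 * (K : ℝ) * x - 2 * j = 0 := by
      rw [hx]
      field_simp
      ring
    simp only [this]
    simp

private theorem LgC_ex_sub (h : N) (θ : ℝ) :
    ex (h - (θ : ℂ) • (1 : N)) = Complex.exp (-(θ * Complex.I)) • ex h := by
  unfold ex
  have e1 : (Complex.I : ℂ) • (h - (θ : ℂ) • (1 : N)) =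
      Complex.I • h + algebraMap ℂ N (-(θ * Complex.I)) := by
    rw [smul_sub, smul_smul, Algebra.algebraMap_eq_smul_one, neg_smul, sub_eq_add_neg,
      mul_comm Complex.I]
  have hc : Commute (Complex.I • h) (algebraMap ℂ N (-(θ * Complex.I))) :=
    (Algebra.commutes _ _).symm
  rw [e1]
  let _ : NormedAlgebra ℚ N := NormedAlgebra.restrictScalars ℚ ℂ N
  rw [NormedSpace.exp_add_of_commute hc, ← NormedSpace.algebraMap_exp_comm,
    Algebra.algebraMap_eq_smul_one, mul_smul_comm, mul_one, Complex.exp_eq_exp_ℂ]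

/-- For `K` points on the circle choose disjoint bumps; the sum of the traces is at most 1, so one of
them is at most `1 / K`; rotate this point to `-1`. -/
theorem exists_log (hτ : TracialVN τ) {g : N} (hg : g ∈ unitary N) {η : ℝ} (hη : 0 < η) :
    ∃ h : N, star h = h ∧ ‖h‖ ≤ 10 ∧ norm2 τ (g - ex h) ≤ η := by
  obtain ⟨K, hK⟩ := exists_nat_gt (Real.pi ^ 2 / η ^ 2)
  have hK0 : 0 < K := by
    have h1 : 0 ≤ Real.pi ^ 2 / η ^ 2 := by positivity
    have h2 : (0 : ℝ) < K := lt_of_le_of_lt h1 hK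
    exact_mod_cast h2
  have hn : IsStarNormal g := by
    have := Unitary.mem_iff.1 hg
    exact ⟨by rw [Commute, SemiconjBy, this.1, this.2]⟩
  obtain ⟨j, hj, hjt⟩ := LgC_bump hτ hg hK0
  obtain ⟨ζ, hζ, hζ1⟩ := LgC_point hj
  -- the rotation
  set c : ℂ := -(starRingEnd ℂ) ζ with hc
  have hcn : ‖c‖ = 1 := by rw [hc, norm_neg, RCLike.norm_conj, hζ]
  have hcc : (starRingEnd ℂ) c * c = 1 := by
    rw [Complex.conj_mul', hcn]
    norm_num
  have hcc' : c * (starRingEnd ℂ) c = 1 := by rw [mul_comm, hcc]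
  have hcu : c ∈ unitary ℂ := Unitary.mem_iff.2 ⟨hcc, hcc'⟩
  have hg' : c • g ∈ unitary N := by
    rw [Unitary.mem_iff]
    have hg2 := Unitary.mem_iff.1 hg
    constructor
    · rw [star_smul, smul_mul_smul_comm, hg2.1]
      have : star c * c = 1 := hcc
      rw [this, one_smul]
    · rw [star_smul, smul_mul_smul_comm, hg2.2]
      have : c * star c = 1 := hcc'
      rw [this, one_smul]
  have hcζ : (starRingEnd ℂ) c * (-1) = ζ := by
    rw [hc, map_neg, Complex.conj_conj]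
    ring
  obtain ⟨h', hs', hn', he'⟩ := log_of_bump hτ hg'
    (β := fun z => LgC_b K j ((starRingEnd ℂ) c * z))
    ((LgC_cont K j).comp (continuous_const.mul continuous_id)) (fun z => LgC_nonneg K j _)
    (fun z => LgC_le_one K j _) (by rw [hcζ, hζ1]) (η := 1 / K) (by
      have e : cfc (fun z => (LgC_b K j ((starRingEnd ℂ) c * z) : ℂ)) (c • g) =
          cfc (fun z => (LgC_b K j z : ℂ)) g := by
        have hco : Continuous fun z : ℂ => (LgC_b K j ((starRingEnd ℂ) c * z) : ℂ) :=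
          Complex.continuous_ofReal.comp
            ((LgC_cont K j).comp (continuous_const.mul continuous_id))
        have h := cfc_comp_const_mul (R := ℂ) c
          (fun z : ℂ => (LgC_b K j ((starRingEnd ℂ) c * z) : ℂ)) g hco.continuousOn
        rw [← h]
        congr 1
        funext z
        rw [← mul_assoc, hcc, one_mul]
      rw [e]
      exact hjt)
  -- the angle
  set θ : ℝ := Complex.arg c with hθ
  have hcθ : c = Complex.exp (θ * Complex.I) := by
    have h := Complex.norm_mul_exp_arg_mul_I c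
    rw [hcn] at h
    rw [hθ]
    simpa using h.symm
  refine ⟨h' - (θ : ℂ) • (1 : N), ?_, ?_, ?_⟩
  · rw [star_sub, hs', star_smul, star_one]
    simp
  · have h1 : ‖h' - (θ : ℂ) • (1 : N)‖ ≤ ‖h'‖ + ‖(θ : ℂ) • (1 : N)‖ := norm_sub_le _ _
    have h2 : ‖(θ : ℂ) • (1 : N)‖ ≤ Real.pi := by
      rw [norm_smul, Complex.norm_real]
      have h3 : |θ| ≤ Real.pi := Complex.abs_arg_le_pi c
      have h4 : ‖(1 : N)‖ ≤ 1 := by
        rcases subsingleton_or_nontrivial N with hN | hN
        · rw [Subsingleton.elim (1 : N) 0, norm_zero]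
          norm_num
        · exact CStarRing.norm_one.le
      calc ‖θ‖ * ‖(1 : N)‖ ≤ |θ| * 1 := by
            rw [Real.norm_eq_abs]
            exact mul_le_mul_of_nonneg_left h4 (abs_nonneg _)
        _ ≤ Real.pi := by rw [mul_one]; exact h3
    have h5 := Real.pi_lt_d2
    linarith
  · rw [LgC_ex_sub]
    have hinv : Complex.exp (-(θ * Complex.I)) = (starRingEnd ℂ) c := by
      have h1 : Complex.exp (-(θ * Complex.I)) * c = 1 := by
        rw [hcθ, ← Complex.exp_add]
        simp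
      calc Complex.exp (-(θ * Complex.I))
          = Complex.exp (-(θ * Complex.I)) * (c * (starRingEnd ℂ) c) := by rw [hcc', mul_one]
        _ = (starRingEnd ℂ) c := by rw [← mul_assoc, h1, one_mul]
    have e : g - Complex.exp (-(θ * Complex.I)) • ex h' =
        (starRingEnd ℂ) c • (c • g - ex h') := by
      rw [smul_sub, smul_smul, hcc, one_smul, hinv]
    rw [e, norm2_smul, RCLike.norm_conj, hcn, one_mul, norm2_sub_comm]
    have h1 : norm2 τ (ex h' - c • g) ^ 2 ≤ η ^ 2 := by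
      refine he'.trans ?_
      have h2 : Real.pi ^ 2 < K * η ^ 2 := by
        rwa [div_lt_iff₀ (by positivity)] at hK
      rw [mul_one_div, div_le_iff₀ (by exact_mod_cast hK0)]
      linarith
    exact (le_abs_self _).trans (abs_le_of_sq_le_sq h1 hη.le)

/-- small roots: `k = ex (h / M)` with `10 / M ≤ δ` -/
theorem exists_root (hτ : TracialVN τ) {δ : ℝ} (hδ : 0 < δ) :
    ∃ M : ℕ, ∀ g ∈ unitary N, ∀ η : ℝ, 0 < η →
      ∃ k ∈ unitary N, norm2 τ (k - 1) ≤ δ ∧ norm2 τ (g - k ^ M) ≤ η := by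
  obtain ⟨M, hM⟩ := exists_nat_gt (10 / δ)
  have hM0' : (0 : ℝ) < M := lt_of_le_of_lt (by positivity) hM
  have hM0 : 0 < M := by exact_mod_cast hM0'
  refine ⟨M, fun g hg η hη => ?_⟩
  obtain ⟨h, hs, hn, he⟩ := exists_log hτ hg hη
  have hs' : star ((1 / M : ℂ) • h) = (1 / M : ℂ) • h := by
    rw [star_smul, hs]
    congr 1
    simp
  refine ⟨ex ((1 / M : ℂ) • h), (ex_facts hs').1, ?_, ?_⟩
  · refine (norm2_le_norm hτ _).trans ((ex_facts hs').2.1.trans ?_)
    rw [norm_smul]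
    have h1 : ‖(1 / M : ℂ)‖ = 1 / M := by
      rw [norm_div, norm_one, Complex.norm_natCast]
    rw [h1]
    have h2 : 10 < M * δ := by rwa [div_lt_iff₀ hδ] at hM
    calc 1 / (M : ℝ) * ‖h‖ ≤ 1 / M * 10 :=
          mul_le_mul_of_nonneg_left hn (by positivity)
      _ ≤ δ := by
        rw [one_div_mul_eq_div, div_le_iff₀ hM0']
        linarith
  · rw [(ex_facts hs).2.2.2 M hM0]
    exact he

end Pool.Agent.Lib.MP_5d1ef1_an_SC
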