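import Pool.Agent.Lib.MP_5d1ef1_an_SC.Rr
import Pool.Agent.Lib.MP_5d1ef1_an_SC.Cnj
import Pool.Agent.Lib.MP_5d1ef1_an_SC.Lg

set_option autoImplicit false

/-!
# MP_5d1ef1_an, project SC: chains to conjugates
-/

namespace Pool.Agent.Lib.MP_5d1ef1_an_SC

open Filter Topology

universe u v w

variable {N : Type u} [CStarAlgebra N] {τ : N →ₗ[ℂ] ℂ}

/-- `(v₁, g v₁ star g)` is in `RR` of length `2 n + 1` for all unitaries `g` with
`norm2 (g - 1) ≤ δ / 3`: `norm2 (g v₁ star g - v₁) ≤ 2 norm2 (g - 1) < δ`, `rr_trans`. -/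
theorem dc_small (hτ : TracialVN τ) {n : ℕ} {u v₁ : N} (hu : IsHaar τ u) (hv : IsHaar τ v₁)
    {δ : ℝ} (hδ : 0 < δ) (h : ∀ v : N, IsHaar τ v → norm2 τ (v - v₁) < δ → RR τ n u v)
    {g : N} (hg : g ∈ unitary N) (hg' : norm2 τ (g - 1) ≤ δ / 3) :
    RR τ (2 * n + 1) v₁ (g * v₁ * star g) := by
  have gg' : g * star g = 1 := Unitary.mul_star_self_of_mem hg
  have h1 : RR τ n u v₁ := h v₁ hv (by rw [sub_self, norm2_zero]; exact hδ)
  have h2 : RR τ n u (g * v₁ * star g) := by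
    refine h _ (haar_conj hτ hv hg) ?_
    have e : g * v₁ * star g - v₁ = ((g - 1) * v₁ - v₁ * (g - 1)) * star g := by
      have e1 : ((g - 1) * v₁ - v₁ * (g - 1)) * star g =
          g * v₁ * star g - v₁ * (g * star g) := by noncomm_ring
      rw [e1, gg', mul_one]
    rw [e, norm2_mul_unit hτ (Unitary.star_mem hg)]
    have h3 := norm2_sub_le hτ ((g - 1) * v₁) (v₁ * (g - 1))
    rw [norm2_mul_unit hτ hv.mem, norm2_unit_mul hv.mem] at h3
    linarith
  have h3 := rr_trans hτ hu (rr_symm hτ h1) h2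
  rwa [← two_mul] at h3

/-- powers: induction on `M` with `rr_conj`, `rr_trans` -/
theorem dc_pow (hτ : TracialVN τ) {n : ℕ} {v₁ k : N} (hv : IsHaar τ v₁) (hk : k ∈ unitary N)
    (h : RR τ n v₁ (k * v₁ * star k)) (M : ℕ) :
    RR τ (M * (n + 1)) v₁ (k ^ M * v₁ * star (k ^ M)) := by
  induction M with
  | zero =>
    rw [zero_mul, pow_zero, one_mul, star_one, mul_one]
    exact rr_refl hτ v₁
  | succ M ih =>
    have h1 := rr_conj hτ hk ih
    have h2 := rr_trans hτ (haar_conj hτ hv hk) h h1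
    have e : k * (k ^ M * v₁ * star (k ^ M)) * star k =
        k ^ (M + 1) * v₁ * star (k ^ (M + 1)) := by
      rw [pow_succ', star_mul]
      noncomm_ring
    rw [e] at h2
    have e2 : n + M * (n + 1) + 1 = (M + 1) * (n + 1) := by ring
    rwa [e2] at h2

end Pool.Agent.Lib.MP_5d1ef1_an_SC
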