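import Mathlib

set_option autoImplicit false

/-!
# MP_5d1ef1_an, project SC (sequential commutation of Haar unitaries): definitions
-/

namespace Pool.Agent.Lib.MP_5d1ef1_an_SC

open Filter Topology

universe u v w

section

variable {N : Type u} [CStarAlgebra N]

/-- the 2-norm of a functional: the square root of `τ (x* x)` -/
noncomputable def norm2 (τ : N →ₗ[ℂ] ℂ) (x : N) : ℝ := Real.sqrt (τ (star x * x)).re

/-- A tracial von Neumann algebra: a C*-algebra `N` with a faithful tracial state `τ` such that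
every norm bounded sequence which is Cauchy for the 2-norm converges for the 2-norm (this says
that the unit ball of `N` is complete for the 2-norm, which is the standard intrinsic
characterisation of the von Neumann algebras with a faithful normal tracial state). -/
structure TracialVN (τ : N →ₗ[ℂ] ℂ) : Prop where
  one : τ 1 = 1
  tr : ∀ x y : N, τ (x * y) = τ (y * x)
  pos : ∀ x : N, 0 ≤ (τ (star x * x)).re ∧ (τ (star x * x)).im = 0
  faithful : ∀ x : N, τ (star x * x) = 0 → x = 0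
  complete : ∀ x : ℕ → N, (∃ C : ℝ, ∀ n, ‖x n‖ ≤ C) →
    (∀ ε : ℝ, 0 < ε → ∃ n₀ : ℕ, ∀ m ≥ n₀, ∀ n ≥ n₀, norm2 τ (x m - x n) ≤ ε) →
    ∃ y : N, Tendsto (fun n => norm2 τ (x n - y)) atTop (𝓝 0)

/-- `N` is a factor of type II_1 with trace `τ`: an infinite dimensional tracial von Neumann
algebra with trivial centre -/
structure II1 (τ : N →ₗ[ℂ] ℂ) : Prop extends TracialVN τ where
  factor : ∀ z : N, (∀ x : N, z * x = x * z) → ∃ c : ℂ, z = c • (1 : N)
  inf : ¬ FiniteDimensional ℂ N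

/-- `u` is a Haar unitary: a unitary all of whose nonzero integer powers have trace zero -/
structure IsHaar (τ : N →ₗ[ℂ] ℂ) (u : N) : Prop where
  mem : u ∈ unitary N
  pow : ∀ k : ℕ, k ≠ 0 → τ (u ^ k) = 0
  npow : ∀ k : ℕ, k ≠ 0 → τ (star u ^ k) = 0

/-- The sequence `w` represents a Haar unitary of the tracial ultrapower of `N` (norm bounded
sequences modulo the sequences whose 2-norm tends to zero along `U`). -/
structure IsHaarU (U : Ultrafilter ℕ) (τ : N →ₗ[ℂ] ℂ) (w : ℕ → N) : Prop where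
  bdd : ∃ C : ℝ, ∀ m, ‖w m‖ ≤ C
  left : Tendsto (fun m => norm2 τ (star (w m) * w m - 1)) U (𝓝 0)
  right : Tendsto (fun m => norm2 τ (w m * star (w m) - 1)) U (𝓝 0)
  pow : ∀ k : ℕ, k ≠ 0 → Tendsto (fun m => τ (w m ^ k)) U (𝓝 0)
  npow : ∀ k : ℕ, k ≠ 0 → Tendsto (fun m => τ (star (w m) ^ k)) U (𝓝 0)

/-- The elements of the ultrapower represented by `v` and `w` commute. -/
def CommU (U : Ultrafilter ℕ) (τ : N →ₗ[ℂ] ℂ) (v w : ℕ → N) : Prop :=
  Tendsto (fun m => norm2 τ (v m * w m - w m * v m)) U (𝓝 0)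

/-- A chain of length `n` from `u` to `v`: Haar unitaries `w 1, ..., w n` of the ultrapower such
that consecutive members of `u, w 1, ..., w n, v` commute. -/
def ChainU (U : Ultrafilter ℕ) (τ : N →ₗ[ℂ] ℂ) (n : ℕ) (u v : N) : Prop :=
  ∃ w : ℕ → ℕ → N, (∀ m, w 0 m = u) ∧ (∀ m, w (n + 1) m = v) ∧
    (∀ j, 1 ≤ j → j ≤ n → IsHaarU U τ (w j)) ∧ ∀ j ≤ n, CommU U τ (w j) (w (j + 1))

/-- sequential commutation -/
def SeqComm (U : Ultrafilter ℕ) (τ : N →ₗ[ℂ] ℂ) (u v : N) : Prop := ∃ n : ℕ, ChainU U τ n u v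

/-- the sequential commutation orbit of `u` -/
def orb (U : Ultrafilter ℕ) (τ : N →ₗ[ℂ] ℂ) (u : N) : Set N :=
  {v | IsHaar τ v ∧ SeqComm U τ u v}

/-- `S` is nowhere dense in the set of Haar unitaries with the distance of the 2-norm. -/
def Nwd (τ : N →ₗ[ℂ] ℂ) (S : Set N) : Prop :=
  ∀ v : N, IsHaar τ v → ∀ ε : ℝ, 0 < ε → ∃ v' : N, IsHaar τ v' ∧ norm2 τ (v' - v) < ε ∧
    ∃ δ : ℝ, 0 < δ ∧ ∀ v'' : N, IsHaar τ v'' → norm2 τ (v'' - v') < δ → v'' ∉ S

/-- `S` is meagre in the set of Haar unitaries with the distance of the 2-norm. -/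
def Mgr (τ : N →ₗ[ℂ] ℂ) (S : Set N) : Prop :=
  ∃ E : ℕ → Set N, (∀ n, Nwd τ (E n)) ∧ S ⊆ ⋃ n, E n

/-- `S` is dense in the set of Haar unitaries with the distance of the 2-norm. -/
def Dns (τ : N →ₗ[ℂ] ℂ) (S : Set N) : Prop :=
  ∀ v : N, IsHaar τ v → ∀ ε : ℝ, 0 < ε → ∃ v' ∈ S, IsHaar τ v' ∧ norm2 τ (v' - v) < ε

/-! ### Working definitions -/

/-- convergence for the 2-norm -/
def Lim2 (τ : N →ₗ[ℂ] ℂ) (x : ℕ → N) (y : N) : Prop :=
  Tendsto (fun n => norm2 τ (x n - y)) atTop (𝓝 0)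

/-- projections -/
structure Pr (p : N) : Prop where
  sa : star p = p
  idem : p * p = p

/-- the cut-off functions of an open set -/
noncomputable def cut (O : Set ℂ) (n : ℕ) (z : ℂ) : ℝ := min 1 (n * Metric.infDist z Oᶜ)

/-- `p` is the spectral projection of the normal element `a` which belongs to the open set `O` -/
structure SP (τ : N →ₗ[ℂ] ℂ) (a : N) (O : Set ℂ) (p : N) : Prop where
  pr : Pr p
  lim : Lim2 τ (fun n => cfc (fun z => (cut O n z : ℂ)) a) p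
  comm : ∀ b : N, b * a = a * b → b * star a = star a * b → b * p = p * b
  cfc_comm : ∀ f : ℂ → ℂ, Continuous f → cfc f a * p = p * cfc f a
  est : ∀ (f : ℂ → ℂ) (c : ℝ), Continuous f → 0 ≤ c →
    (∀ z ∈ spectrum ℂ a, z ∈ O → ‖f z‖ ≤ c) → norm2 τ (cfc f a * p) ^ 2 ≤ c ^ 2 * (τ p).re

/-- the exponential of `i h` -/
noncomputable def ex (h : N) : N := NormedSpace.exp ((Complex.I : ℂ) • h)

/-- an approximate chain -/
def AC (τ : N →ₗ[ℂ] ℂ) (n : ℕ) (ε : ℝ) (K : ℕ) (u v : N) : Prop :=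
  ∃ w : ℕ → N, w 0 = u ∧ w (n + 1) = v ∧
    (∀ j, 1 ≤ j → j ≤ n → ‖w j‖ ≤ 1 ∧ norm2 τ (star (w j) * w j - 1) ≤ ε ∧
      ∀ k ≤ K, k ≠ 0 → ‖τ (w j ^ k)‖ ≤ ε) ∧
    ∀ j ≤ n, norm2 τ (w j * w (j + 1) - w (j + 1) * w j) ≤ ε

/-- the relation `there are approximate chains of length n` -/
def RR (τ : N →ₗ[ℂ] ℂ) (n : ℕ) (u v : N) : Prop := ∀ ε : ℝ, 0 < ε → ∀ K : ℕ, AC τ n ε K u v

end

/-- `(N, τ)` is the tensor product of the tracial von Neumann algebras `(P, τP)` and `(Q, τQ)`,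
with the embeddings `i` and `j`: the images commute, the trace is multiplicative and the linear
span of the products is dense for the 2-norm. -/
structure IsTensor {P : Type u} {Q : Type v} {N : Type w} [CStarAlgebra P] [CStarAlgebra Q]
    [CStarAlgebra N] (τP : P →ₗ[ℂ] ℂ) (τQ : Q →ₗ[ℂ] ℂ) (τ : N →ₗ[ℂ] ℂ)
    (i : P →⋆ₐ[ℂ] N) (j : Q →⋆ₐ[ℂ] N) : Prop where
  comm : ∀ (p : P) (q : Q), i p * j q = j q * i p
  tr : ∀ (p : P) (q : Q), τ (i p * j q) = τP p * τQ q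
  dense : ∀ (x : N) (ε : ℝ), 0 < ε →
    ∃ y ∈ Submodule.span ℂ {z : N | ∃ (p : P) (q : Q), z = i p * j q}, norm2 τ (x - y) ≤ ε

end Pool.Agent.Lib.MP_5d1ef1_an_SC
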