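import Pool.Agent.Lib.MP_5d1ef1_an_SC.Tr

set_option autoImplicit false

/-!
# MP_5d1ef1_an, project SC: dense subgroups of unitaries
-/

namespace Pool.Agent.Lib.MP_5d1ef1_an_SC

open Filter Topology

universe u v w

variable {N : Type u} [CStarAlgebra N] {τ : N →ₗ[ℂ] ℂ}

private theorem Dg_mul {a b c d : N} (hb : b ∈ unitary N) (hc : c ∈ unitary N) :
    ‖a * b - c * d‖ ≤ ‖a - c‖ + ‖b - d‖ := by
  have h : a * b - c * d = (a - c) * b + c * (b - d) := by noncomm_ring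
  rw [h]
  refine (norm_add_le _ _).trans ?_
  rw [CStarRing.norm_mul_mem_unitary _ hb, CStarRing.norm_mem_unitary_mul _ hc]

private theorem Dg_pow {a b : N} (ha : a ∈ unitary N) (hb : b ∈ unitary N) (n : ℕ) :
    ‖a ^ n - b ^ n‖ ≤ n * ‖a - b‖ := by
  induction n with
  | zero => simp
  | succ n ih =>
    rw [pow_succ, pow_succ]
    refine (Dg_mul ha (pow_mem hb n)).trans ?_
    push_cast
    linarith

private theorem Dg_coe (r : ℝ) (x : N) : r • x = (r : ℂ) • x := (Complex.coe_smul r x).symm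

private theorem Dg_star (r : ℝ) {x : N} (hx : star x = x) :
    star ((r : ℂ) • x) = (r : ℂ) • x := by
  rw [star_smul, hx]
  simp

private theorem Dg_span {A : Set N} (hA : ∀ a ∈ A, star a = a) {b : N}
    (hb : b ∈ Submodule.span ℝ A) : star b = b := by
  induction hb using Submodule.span_induction with
  | mem x hx => exact hA x hx
  | zero => exact star_zero N
  | add x y _ _ ih1 ih2 => rw [star_add, ih1, ih2]
  | smul r x _ ih => rw [Dg_coe, Dg_star r ih]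

private theorem Dg_main {S A : Set N} (hS : ∀ s ∈ S, s ∈ unitary N)
    (hm : ∀ s ∈ S, ∀ t ∈ S, s * t ∈ S) (h1 : (1 : N) ∈ S) (hA : ∀ a ∈ A, star a = a)
    (h : ∀ a ∈ A, ∀ t : ℝ, ex ((t : ℂ) • a) ∈ S) {b : N} (hb : b ∈ Submodule.span ℝ A) :
    ∀ (t ε : ℝ), 0 < ε → ∃ s ∈ S, ‖ex ((t : ℂ) • b) - s‖ ≤ ε := by
  have hp : ∀ s ∈ S, ∀ n : ℕ, s ^ n ∈ S := by
    intro s hs n
    induction n with
    | zero => rw [pow_zero]; exact h1
    | succ n ih => rw [pow_succ]; exact hm _ ih _ hs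
  induction hb using Submodule.span_induction with
  | mem x hx =>
    intro t ε hε
    refine ⟨_, h x hx t, ?_⟩
    rw [sub_self, norm_zero]
    exact hε.le
  | zero =>
    intro t ε hε
    refine ⟨1, h1, ?_⟩
    rw [smul_zero]
    unfold ex
    rw [smul_zero, NormedSpace.exp_zero, sub_self, norm_zero]
    exact hε.le
  | add x y hx hy ih1 ih2 =>
    intro t ε hε
    have sx := Dg_span hA hx
    have sy := Dg_span hA hy
    obtain ⟨L, hL, hT⟩ := trotter (Dg_star t sx) (Dg_star t sy) (half_pos hε)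
    have hL' : (0 : ℝ) < L := by exact_mod_cast hL
    have hδ : 0 < ε / (4 * L) := by positivity
    obtain ⟨s, hs, e1⟩ := ih1 (t / L) _ hδ
    obtain ⟨r, hr, e2⟩ := ih2 (t / L) _ hδ
    have g1 : ∀ z : N, ((1 / L : ℂ)) • ((t : ℂ) • z) = ((t / L : ℝ) : ℂ) • z := by
      intro z
      rw [smul_smul]
      congr 1
      push_cast
      ring
    rw [g1, g1] at hT
    refine ⟨(s * r) ^ L, hp _ (hm _ hs _ hr) L, ?_⟩
    have ux := (ex_facts (Dg_star (t / L) sx)).1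
    have uy := (ex_facts (Dg_star (t / L) sy)).1
    have h3 := Dg_pow (mul_mem ux uy) (mul_mem (hS _ hs) (hS _ hr)) L
    have h4 := Dg_mul (a := ex (((t / L : ℝ) : ℂ) • x)) (d := r) uy (hS _ hs)
    have h5 : (L : ℝ) * (ε / (4 * L) + ε / (4 * L)) = ε / 2 := by
      field_simp
      ring
    have h6 : (L : ℝ) * ‖ex (((t / L : ℝ) : ℂ) • x) * ex (((t / L : ℝ) : ℂ) • y) - s * r‖ ≤
        L * (ε / (4 * L) + ε / (4 * L)) :=
      mul_le_mul_of_nonneg_left (h4.trans (add_le_add e1 e2)) hL'.le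
    rw [smul_add]
    calc _ ≤ ‖ex ((t : ℂ) • x + (t : ℂ) • y) - (ex (((t / L : ℝ) : ℂ) • x) *
          ex (((t / L : ℝ) : ℂ) • y)) ^ L‖ + ‖(ex (((t / L : ℝ) : ℂ) • x) *
          ex (((t / L : ℝ) : ℂ) • y)) ^ L - (s * r) ^ L‖ := norm_sub_le_norm_sub_add_norm_sub _ _ _
      _ ≤ ε / 2 + ε / 2 := add_le_add hT (by linarith)
      _ = ε := by ring
  | smul r x _ ih =>
    intro t ε hε
    obtain ⟨s, hs, e⟩ := ih (t * r) ε hε
    refine ⟨s, hs, ?_⟩
    rw [Dg_coe, smul_smul]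
    rw [Complex.ofReal_mul] at e
    exact e

/-- A set of unitaries closed under products which contains the `ex (t a)`, `t ∈ ℝ`, for all `a` in
a set `A` of selfadjoint elements approximates `ex h` for `h` in the real span of `A` (norm):
induction over sums with `trotter`. -/
theorem span_ex {S A : Set N} (hS : ∀ s ∈ S, s ∈ unitary N)
    (hm : ∀ s ∈ S, ∀ t ∈ S, s * t ∈ S) (h1 : (1 : N) ∈ S) (hA : ∀ a ∈ A, star a = a)
    (h : ∀ a ∈ A, ∀ t : ℝ, ex ((t : ℂ) • a) ∈ S) {b : N} (hb : b ∈ Submodule.span ℝ A)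
    {ε : ℝ} (hε : 0 < ε) : ∃ s ∈ S, ‖ex b - s‖ ≤ ε := by
  have h2 := Dg_main hS hm h1 hA h hb 1 ε hε
  rwa [Complex.ofReal_one, one_smul] at h2

/-- If the real span of `A` is 2-norm dense in the selfadjoint elements, then `S` is dense in the
unitaries: `exists_log`, `ex_lip`, `span_ex`. -/
theorem dense_unitary (hτ : TracialVN τ) {S A : Set N} (hS : ∀ s ∈ S, s ∈ unitary N)
    (hm : ∀ s ∈ S, ∀ t ∈ S, s * t ∈ S) (h1 : (1 : N) ∈ S) (hA : ∀ a ∈ A, star a = a)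
    (h : ∀ a ∈ A, ∀ t : ℝ, ex ((t : ℂ) • a) ∈ S)
    (hd : ∀ x : N, star x = x → ∀ ε : ℝ, 0 < ε → ∃ b ∈ Submodule.span ℝ A,
      norm2 τ (x - b) ≤ ε)
    {g : N} (hg : g ∈ unitary N) {ε : ℝ} (hε : 0 < ε) : ∃ s ∈ S, norm2 τ (g - s) ≤ ε := by
  have h3 : 0 < ε / 3 := by positivity
  obtain ⟨k, hk, -, hk2⟩ := exists_log hτ hg h3
  obtain ⟨b, hb, hb2⟩ := hd k hk _ h3
  obtain ⟨s, hs, hs2⟩ := span_ex hS hm h1 hA h hb h3
  refine ⟨s, hs, ?_⟩
  have h4 := ex_lip hτ hk (Dg_span hA hb)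
  have h5 := norm2_le_norm hτ (ex b - s)
  have h6 := norm2_tri hτ g (ex k) s
  have h7 := norm2_tri hτ (ex k) (ex b) s
  linarith

end Pool.Agent.Lib.MP_5d1ef1_an_SC
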