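import Pool.Agent.Lib.MP_5d1ef1_an_SC.EtA

set_option autoImplicit false

/-!
# MP_5d1ef1_an, project SC: dyadic partitions
-/

namespace Pool.Agent.Lib.MP_5d1ef1_an_SC

open Filter Topology

universe u v w

variable {N : Type u} [CStarAlgebra N] {τ : N →ₗ[ℂ] ℂ}

private def EtB_P (τ : N →ₗ[ℂ] ℂ) (m : ℕ) (e : ℕ → N) : Prop :=
  (∀ k, k < 2 ^ m → Pr (e k)) ∧ (∀ k, k < 2 ^ m → τ (e k) = ((1 / 2 ^ m : ℝ) : ℂ)) ∧
    (∀ k l, k < 2 ^ m → l < 2 ^ m → k ≠ l → e k * e l = 0) ∧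
    ∑ k ∈ Finset.range (2 ^ m), e k = 1

private theorem EtB_sum (f : ℕ → N) (n : ℕ) :
    ∑ j ∈ Finset.range (2 * n), f j = ∑ k ∈ Finset.range n, (f (2 * k) + f (2 * k + 1)) := by
  induction n with
  | zero => simp
  | succ n ih =>
    rw [Finset.sum_range_succ, ← ih, mul_add, mul_one, Finset.sum_range_succ,
      Finset.sum_range_succ, add_assoc]

private theorem EtB_step (hN : II1 τ) (m : ℕ) (e : ℕ → N) (he : EtB_P τ m e) :
    ∃ e' : ℕ → N, EtB_P τ (m + 1) e' ∧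
      ∀ k, k < 2 ^ m → e k = e' (2 * k) + e' (2 * k + 1) := by
  obtain ⟨h1, h2, h3, h4⟩ := he
  have hp : (1 / 2 ^ (m + 1) : ℝ) ≤ 1 / 2 ^ m := by
    apply one_div_le_one_div_of_le (by positivity)
    exact pow_le_pow_right₀ (by norm_num) (by omega)
  have h5 : ∀ k, ∃ q : N, k < 2 ^ m → Pr q ∧ q * e k = q ∧ e k * q = q ∧
      τ q = ((1 / 2 ^ (m + 1) : ℝ) : ℂ) := by
    intro k
    by_cases hk : k < 2 ^ m
    · obtain ⟨q, hq⟩ := exact_tr hN (h1 k hk) (t := 1 / 2 ^ (m + 1)) (by positivity)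
        (by rw [h2 k hk, Complex.ofReal_re]; exact hp)
      exact ⟨q, fun _ => hq⟩
    · exact ⟨0, fun h => absurd h hk⟩
  choose q hq using h5
  have hpow : 2 ^ (m + 1) = 2 * 2 ^ m := by rw [pow_succ]; ring
  -- the new partition
  set e' : ℕ → N := fun j => if j % 2 = 0 then q (j / 2) else e (j / 2) - q (j / 2) with he'
  have e0 : ∀ k, e' (2 * k) = q k := by
    intro k
    have a1 : 2 * k % 2 = 0 := by omega
    have a2 : 2 * k / 2 = k := by omega
    simp only [he', a1, a2, if_true]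
  have e1 : ∀ k, e' (2 * k + 1) = e k - q k := by
    intro k
    have a1 : ¬ (2 * k + 1) % 2 = 0 := by omega
    have a2 : (2 * k + 1) / 2 = k := by omega
    simp only [he', a1, a2, if_false]
  have hc : ∀ j, j < 2 ^ (m + 1) → ∃ k, k < 2 ^ m ∧ (j = 2 * k ∨ j = 2 * k + 1) := by
    intro j hj
    exact ⟨j / 2, by omega, by omega⟩
  have hid : ∀ k, k < 2 ^ m → e k * e k = e k := fun k hk => (h1 k hk).idem
  -- the members are below the old ones
  have hb : ∀ k j, k < 2 ^ m → (j = 2 * k ∨ j = 2 * k + 1) →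
      e' j * e k = e' j ∧ e k * e' j = e' j := by
    rintro k j hk (rfl | rfl)
    · rw [e0]
      exact ⟨(hq k hk).2.1, (hq k hk).2.2.1⟩
    · rw [e1]
      refine ⟨?_, ?_⟩
      · rw [sub_mul, hid k hk, (hq k hk).2.1]
      · rw [mul_sub, hid k hk, (hq k hk).2.2.1]
  refine ⟨e', ⟨?_, ?_, ?_, ?_⟩, ?_⟩
  · intro j hj
    obtain ⟨k, hk, rfl | rfl⟩ := hc j hj
    · rw [e0]
      exact (hq k hk).1
    · rw [e1]
      exact pr_sub (h1 k hk) (hq k hk).1 (hq k hk).2.1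
  · intro j hj
    obtain ⟨k, hk, rfl | rfl⟩ := hc j hj
    · rw [e0]
      exact (hq k hk).2.2.2
    · rw [e1, map_sub, h2 k hk, (hq k hk).2.2.2, ← Complex.ofReal_sub]
      congr 1
      rw [pow_succ]
      field_simp
      norm_num
  · intro j l hj hl hjl
    obtain ⟨k, hk, hjk⟩ := hc j hj
    obtain ⟨k', hk', hlk⟩ := hc l hl
    by_cases hkk : k = k'
    · subst hkk
      have hqq : q k * q k = q k := (hq k hk).1.idem
      rcases hjk with rfl | rfl <;> rcases hlk with rfl | rfl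
      · exact absurd rfl hjl
      · rw [e0, e1, mul_sub, (hq k hk).2.1, hqq, sub_self]
      · rw [e0, e1, sub_mul, (hq k hk).2.2.1, hqq, sub_self]
      · exact absurd rfl hjl
    · calc e' j * e' l = (e' j * e k) * (e k' * e' l) := by
            rw [(hb k j hk hjk).1, (hb k' l hk' hlk).2]
        _ = e' j * (e k * e k') * e' l := by simp only [mul_assoc]
        _ = 0 := by rw [h3 k k' hk hk' hkk, mul_zero, zero_mul]
  · rw [hpow, EtB_sum, ← h4]
    refine Finset.sum_congr rfl fun k _ => ?_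
    rw [e0, e1, add_sub_cancel]
  · intro k _
    rw [e0, e1, add_sub_cancel]

/-- a partition of 1 into `2 ^ m` projections of trace `2 ^ (-m)`, refining each other -/
theorem dyadic (hN : II1 τ) : ∃ e : ℕ → ℕ → N, (∀ m k, k < 2 ^ m → Pr (e m k)) ∧
    (∀ m k, k < 2 ^ m → τ (e m k) = ((1 / 2 ^ m : ℝ) : ℂ)) ∧
    (∀ m k l, k < 2 ^ m → l < 2 ^ m → k ≠ l → e m k * e m l = 0) ∧
    (∀ m, ∑ k ∈ Finset.range (2 ^ m), e m k = 1) ∧
    (∀ m k, k < 2 ^ m → e m k = e (m + 1) (2 * k) + e (m + 1) (2 * k + 1)) := by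
  have hP0 : EtB_P τ 0 (fun _ => (1 : N)) := by
    refine ⟨fun k _ => ⟨star_one N, one_mul 1⟩, fun k _ => ?_, fun k l hk hl hkl => ?_, by simp⟩
    · rw [hN.one]
      norm_num
    · rw [pow_zero] at hk hl
      omega
  choose F hF using fun (m : ℕ) (e : ℕ → N) (he : EtB_P τ m e) => EtB_step hN m e he
  let sq : (m : ℕ) → {e : ℕ → N // EtB_P τ m e} := fun m =>
    Nat.rec (motive := fun m => {e : ℕ → N // EtB_P τ m e}) ⟨fun _ => (1 : N), hP0⟩
      (fun m p => ⟨F m p.1 p.2, (hF m p.1 p.2).1⟩) m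
  refine ⟨fun m => (sq m).1, fun m => (sq m).2.1, fun m => (sq m).2.2.1,
    fun m => (sq m).2.2.2.1, fun m => (sq m).2.2.2.2, fun m k hk => ?_⟩
  exact (hF m (sq m).1 (sq m).2).2 k hk

end Pool.Agent.Lib.MP_5d1ef1_an_SC
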