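import Pool.Agent.Lib.MP_5d1ef1_an_SC.Mn

set_option autoImplicit false

/-!
# MP_5d1ef1_an, project SC: projections of given trace
-/

namespace Pool.Agent.Lib.MP_5d1ef1_an_SC

open Filter Topology

universe u v w

variable {N : Type u} [CStarAlgebra N] {τ : N →ₗ[ℂ] ℂ}

private structure EtA_G (τ : N →ₗ[ℂ] ℂ) (e : N) (t : ℝ) (q : N) : Prop where
  pr : Pr q
  r : q * e = q
  tr : (τ q).re ≤ t

private structure EtA_A (τ : N →ₗ[ℂ] ℂ) (e : N) (t : ℝ) (q w : N) : Prop where
  pr : Pr w
  r : w * (e - q) = w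
  tr : (τ w).re ≤ t - (τ q).re

private theorem EtA_step {e q w : N} {t : ℝ} (he : Pr e) (hq : EtA_G τ e t q)
    (hw : EtA_A τ e t q w) : EtA_G τ e t (q + w) ∧ q * w = 0 := by
  have eq : e * q = q := by
    have := congrArg star hq.r
    rwa [star_mul, he.sa, hq.pr.sa] at this
  have h1 : w * q = 0 := by
    calc w * q = w * (e - q) * q := by rw [hw.r]
      _ = w * (e * q - q * q) := by noncomm_ring
      _ = 0 := by rw [eq, hq.pr.idem, sub_self, mul_zero]
  have h2 : q * w = 0 := by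
    have := congrArg star h1
    rwa [star_mul, hw.pr.sa, hq.pr.sa, star_zero] at this
  have h3 : w * e = w := by
    calc w * e = w * (e - q) * e := by rw [hw.r]
      _ = w * (e * e - q * e) := by noncomm_ring
      _ = w := by rw [he.idem, hq.r, hw.r]
  refine ⟨⟨pr_add hq.pr hw.pr h2, by rw [add_mul, hq.r, h3], ?_⟩, h2⟩
  rw [map_add, Complex.add_re]
  have := hw.tr
  linarith

private theorem EtA_greedy (hτ : TracialVN τ) {e q : N} {t : ℝ} :
    ∃ w, EtA_G τ e t q → EtA_A τ e t q w ∧ ∀ w', EtA_A τ e t q w' →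
      (τ w').re ≤ 2 * (τ w).re := by
  by_cases hq : EtA_G τ e t q
  swap
  · exact ⟨0, fun h => absurd h hq⟩
  have h0 : EtA_A τ e t q 0 := by
    refine ⟨⟨by simp, by simp⟩, by simp, ?_⟩
    have := hq.tr
    simpa using this
  let X : Set ℝ := {s | ∃ w, EtA_A τ e t q w ∧ s = (τ w).re}
  have hb : BddAbove X := by
    refine ⟨1, ?_⟩
    rintro s ⟨w, hw, rfl⟩
    exact pr_tr_le_one hτ hw.pr
  have h0X : (0 : ℝ) ∈ X := ⟨0, h0, by simp⟩
  have hs0 : 0 ≤ sSup X := le_csSup hb h0X
  rcases hs0.lt_or_eq with h1 | h1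
  · obtain ⟨s, ⟨w, hw, rfl⟩, h3⟩ := exists_lt_of_lt_csSup ⟨0, h0X⟩ (half_lt_self h1)
    refine ⟨w, fun _ => ⟨hw, fun w' hw' => ?_⟩⟩
    have h4 : (τ w').re ≤ sSup X := le_csSup hb ⟨w', hw', rfl⟩
    linarith
  · refine ⟨0, fun _ => ⟨h0, fun w' hw' => ?_⟩⟩
    have h4 : (τ w').re ≤ sSup X := le_csSup hb ⟨w', hw', rfl⟩
    simp only [map_zero, Complex.zero_re]
    linarith

/-- Greedy choice of subprojections (compare `cmp_max`): `q 0 = 0`; `s n` the supremum of the
traces of projections `r` with `r * (e - q n) = r` and `τ r ≤ t - τ (q n)`; choose `r` with trace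
at least `s n / 2`.  If the limit `q` has `τ q < t`, a small projection (`small_pr`) is equivalent
(`cmp_le`) to a subprojection of `e - q`, admissible for all `n`. -/
theorem exact_tr (hN : II1 τ) {e : N} (he : Pr e) {t : ℝ} (h0 : 0 ≤ t) (ht : t ≤ (τ e).re) :
    ∃ q : N, Pr q ∧ q * e = q ∧ e * q = q ∧ τ q = (t : ℂ) := by
  have hτ := hN.toTracialVN
  choose W hW using fun q : N => EtA_greedy hτ (e := e) (t := t) (q := q)
  let Q : ℕ → N := fun n => Nat.rec 0 (fun _ q => q + W q) n
  have Q0 : Q 0 = 0 := rfl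
  have QS : ∀ n, Q (n + 1) = Q n + W (Q n) := fun n => rfl
  have hG : ∀ n, EtA_G τ e t (Q n) := by
    intro n
    induction n with
    | zero => exact ⟨⟨by simp [Q0], by simp [Q0]⟩, by simp [Q0], by simpa [Q0] using h0⟩
    | succ n ih => exact (EtA_step he ih (hW _ ih).1).1
  have hA : ∀ n, EtA_A τ e t (Q n) (W (Q n)) := fun n => (hW _ (hG n)).1
  have hQW : ∀ n, Q n * W (Q n) = 0 := fun n => (EtA_step he (hG n) (hA n)).2
  have hle : ∀ n m, n ≤ m → Q n * Q m = Q n := by
    intro n m hnm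
    induction m, hnm using Nat.le_induction with
    | base => exact (hG n).pr.idem
    | succ m hm ih =>
      rw [QS, mul_add, ih]
      have h1 : Q n * W (Q m) = 0 := by
        rw [← ih, mul_assoc, hQW, mul_zero]
      rw [h1, add_zero]
  let b : ℕ → ℝ := fun n => (τ (Q n)).re
  have hb1 : ∀ n, b n ≤ 1 := fun n => pr_tr_le_one hτ (hG n).pr
  have hbS : ∀ n, b (n + 1) = b n + (τ (W (Q n))).re := by
    intro n
    show (τ (Q (n + 1))).re = _
    rw [QS, map_add, Complex.add_re]
  have hd : ∀ n m, n ≤ m → norm2 τ (Q m - Q n) ^ 2 ≤ b m - b n := by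
    intro n m hnm
    have h1 : Pr (Q m - Q n) := pr_sub (hG m).pr (hG n).pr (hle n m hnm)
    rw [norm2_sq hτ, h1.sa, h1.idem, map_sub, Complex.sub_re]
  have hbd : ∃ C : ℝ, ∀ n, ‖Q n‖ ≤ C := ⟨1, fun n => pr_norm_le (hG n).pr⟩
  obtain ⟨q, hq⟩ := lim2_mono hτ hbd b ⟨1, hb1⟩ hd
  have hqp : Pr q := lim2_pr hτ hq fun n => (hG n).pr
  have hqe : q * e = q := by
    have h1 := lim2_mul_right hτ e hq
    have h2 : (fun n => Q n * e) = Q := funext fun n => (hG n).r
    rw [h2] at h1
    exact lim2_unique hτ h1 hq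
  have heq : e * q = q := by
    have := congrArg star hqe
    rwa [star_mul, he.sa, hqp.sa] at this
  have hQq : ∀ n, Q n * q = Q n := by
    intro n
    refine lim2_unique hτ (lim2_mul_left hτ (Q n) hq) ?_
    refine (lim2_const (τ := τ) (Q n)).congr' ?_
    filter_upwards [eventually_ge_atTop n] with m hm
    rw [hle n m hm]
  have hqQ : ∀ n, q * Q n = Q n := by
    intro n
    have := congrArg star (hQq n)
    rwa [star_mul, (hG n).pr.sa, hqp.sa] at this
  have hbq : ∀ n, b n ≤ (τ q).re := by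
    intro n
    have h1 := pr_tr_nonneg hτ (pr_sub hqp (hG n).pr (hQq n))
    rw [map_sub, Complex.sub_re] at h1
    show (τ (Q n)).re ≤ _
    linarith
  have hqt : (τ q).re ≤ t := by
    have h1 : Tendsto (fun n => (τ (Q n)).re) atTop (𝓝 (τ q).re) :=
      (Complex.continuous_re.tendsto _).comp (lim2_tr hτ hq)
    exact le_of_tendsto h1 (Eventually.of_forall fun n => (hG n).tr)
  refine ⟨q, hqp, hqe, heq, ?_⟩
  by_contra hcon
  have hlt : (τ q).re < t := by
    refine lt_of_le_of_ne hqt fun h1 => hcon ?_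
    have h2 := pr_tr hτ hqp
    refine Complex.ext ?_ ?_
    · rw [Complex.ofReal_re]
      exact h1
    · rw [h2, Complex.ofReal_im, Complex.ofReal_im]
  have hpe : Pr (e - q) := pr_sub he hqp hqe
  obtain ⟨p, hp, hp0, hp1⟩ := small_pr hN (sub_pos.2 hlt)
  obtain ⟨v, v1, v2, -, v4⟩ := cmp_le hN hp hpe (by
    rw [map_sub, Complex.sub_re]
    linarith)
  have hr1 : v * star v * (e - q) = v * star v := by
    have := congrArg star v2
    rw [star_mul, hpe.sa] at this
    rw [mul_assoc, this]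
  have hr2 : (τ (v * star v)).re = (τ p).re := by rw [hτ.tr, v1]
  have hadm : ∀ n, EtA_A τ e t (Q n) (v * star v) := by
    intro n
    refine ⟨v4, ?_, ?_⟩
    · have e1 : e * Q n = Q n := by
        have := congrArg star (hG n).r
        rwa [star_mul, he.sa, (hG n).pr.sa] at this
      have e2 : (e - q) * (e - Q n) = e - q := by
        rw [sub_mul, mul_sub, mul_sub, he.idem, e1, hqe, hqQ]
        abel
      rw [← hr1, mul_assoc, e2]
    · rw [hr2]
      have := hbq n
      have : (τ (Q n)).re ≤ (τ q).re := hbq n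
      linarith
  have hpos : 0 < (τ (v * star v)).re := by
    rw [hr2]
    exact pr_tr_pos hτ hp hp0
  have hlin : ∀ n : ℕ, (n : ℝ) * ((τ (v * star v)).re / 2) ≤ b n := by
    intro n
    induction n with
    | zero =>
      have : b 0 = 0 := by
        show (τ (Q 0)).re = 0
        rw [Q0]
        simp
      rw [this]
      simp
    | succ n ih =>
      have h1 := (hW _ (hG n)).2 _ (hadm n)
      rw [hbS]
      push_cast
      linarith
  obtain ⟨n, hn⟩ := exists_nat_gt (1 / ((τ (v * star v)).re / 2))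
  have h1 := hlin n
  have h2 := hb1 n
  rw [div_lt_iff₀ (by linarith)] at hn
  linarith

end Pool.Agent.Lib.MP_5d1ef1_an_SC
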