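import Pool.Agent.Lib.MP_5d1ef1_an_SC.HIa

set_option autoImplicit false

/-!
# MP_5d1ef1_an, project SC: the distribution of a Haar unitary
-/

namespace Pool.Agent.Lib.MP_5d1ef1_an_SC

open Filter Topology

universe u v w

variable {N : Type u} [CStarAlgebra N] {τ : N →ₗ[ℂ] ℂ}

/-- the function `z ^ n` for `n ≥ 0` and `star z ^ (-n)` for `n < 0` -/
private noncomputable def HIb_p (n : ℤ) (z : ℂ) : ℂ :=
  if 0 ≤ n then z ^ n.toNat else (star z) ^ (-n).toNat

private theorem HIb_cont (n : ℤ) : Continuous (HIb_p n) := by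
  by_cases h : 0 ≤ n
  · have h1 : HIb_p n = fun z => z ^ n.toNat := by
      funext z
      simp [HIb_p, h]
    rw [h1]
    exact continuous_id.pow _
  · have h1 : HIb_p n = fun z => (star z) ^ (-n).toNat := by
      funext z
      simp [HIb_p, h]
    rw [h1]
    exact continuous_star.pow _

private theorem HIb_zpow (n : ℤ) {z : ℂ} (hz : ‖z‖ = 1) : HIb_p n z = z ^ n := by
  by_cases h : 0 ≤ n
  · rw [HIb_p, if_pos h]
    conv_rhs => rw [← Int.toNat_of_nonneg h]
    rw [zpow_natCast]
  · have h1 : star z = z⁻¹ := by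
      rw [Complex.inv_def, Complex.normSq_eq_norm_sq, hz]
      simp
    rw [HIb_p, if_neg h, h1, inv_pow, ← zpow_natCast, Int.toNat_of_nonneg (by omega), zpow_neg,
      inv_inv]

private theorem HIb_approx {f : ℂ → ℂ} (hf : Continuous f) {ε : ℝ} (hε : 0 < ε) :
    ∃ (s : Finset ℤ) (c : ℤ → ℂ), ∀ z : ℂ, ‖z‖ = 1 →
      ‖f z - ∑ n ∈ s, c n * HIb_p n z‖ ≤ ε := by
  have : Fact (0 < (1 : ℝ)) := ⟨one_pos⟩
  obtain ⟨F, hF⟩ : ∃ F : C(AddCircle (1 : ℝ), ℂ), ∀ x, F x = f (AddCircle.toCircle x) :=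
    ⟨⟨fun x => f (AddCircle.toCircle x),
      hf.comp (continuous_subtype_val.comp AddCircle.continuous_toCircle)⟩, fun _ => rfl⟩
  have hF' : F ∈ closure ((Submodule.span ℂ (Set.range (@fourier (1 : ℝ))) :
      Submodule ℂ C(AddCircle (1 : ℝ), ℂ)) : Set C(AddCircle (1 : ℝ), ℂ)) := by
    rw [← Submodule.topologicalClosure_coe, span_fourier_closure_eq_top]
    trivial
  obtain ⟨G, hG, hd⟩ := Metric.mem_closure_iff.1 hF' ε hε
  rw [SetLike.mem_coe, Finsupp.mem_span_range_iff_exists_finsupp] at hG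
  obtain ⟨c, hc⟩ := hG
  refine ⟨c.support, c, fun z hz => ?_⟩
  obtain ⟨x, hx⟩ : ∃ x : AddCircle (1 : ℝ), (AddCircle.toCircle x : ℂ) = z := by
    obtain ⟨w, hw⟩ : ∃ w : Circle, (w : ℂ) = z :=
      ⟨⟨z, by simpa [Submonoid.unitSphere] using hz⟩, rfl⟩
    refine ⟨(AddCircle.homeomorphCircle (one_ne_zero : (1 : ℝ) ≠ 0)).symm w, ?_⟩
    rw [← AddCircle.homeomorphCircle_apply (one_ne_zero : (1 : ℝ) ≠ 0),
      Homeomorph.apply_symm_apply, hw]
  have h1 : dist (F x) (G x) ≤ ε := (ContinuousMap.dist_apply_le_dist x).trans hd.le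
  rw [dist_eq_norm, hF, hx] at h1
  have h2 : G x = ∑ n ∈ c.support, c n * HIb_p n z := by
    rw [← hc, Finsupp.sum, ContinuousMap.sum_apply]
    refine Finset.sum_congr rfl fun n _ => ?_
    rw [ContinuousMap.smul_apply, smul_eq_mul, fourier_apply, AddCircle.toCircle_zsmul,
      Circle.coe_zpow, hx, HIb_zpow n hz]
  rw [← h2]
  exact h1

private theorem HIb_int (n : ℤ) :
    ∫ t in (0 : ℝ)..1, HIb_p n (ec t) = if n = 0 then 1 else 0 := by
  have h0 : ∀ t : ℝ, HIb_p n (ec t) = Complex.exp ((2 * Real.pi * Complex.I * n) * t) := by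
    intro t
    rw [HIb_zpow n (ec_props.2.1 t), ec, ← Complex.exp_int_mul]
    congr 1
    ring
  simp only [h0]
  split_ifs with h
  · simp [h]
  · have h1 : (2 * Real.pi * Complex.I * n : ℂ) ≠ 0 :=
      mul_ne_zero Complex.two_pi_I_ne_zero (Int.cast_ne_zero.2 h)
    rw [integral_exp_mul_complex h1]
    have h2 : Complex.exp (2 * Real.pi * Complex.I * n * (1 : ℝ)) = 1 := by
      rw [Complex.exp_eq_one_iff]
      exact ⟨n, by push_cast; ring⟩
    rw [h2]
    simp

private theorem HIb_tr (hτ : TracialVN τ) {u : N} (hu : IsHaar τ u) (hn : IsStarNormal u)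
    (n : ℤ) : τ (cfc (HIb_p n) u) = if n = 0 then 1 else 0 := by
  by_cases h : 0 ≤ n
  · have h1 : HIb_p n = fun z => z ^ n.toNat := by
      funext z
      simp [HIb_p, h]
    rw [h1, cfc_pow_id (R := ℂ) u n.toNat]
    split_ifs with h2
    · rw [h2, Int.toNat_zero, pow_zero, hτ.one]
    · exact hu.pow _ (by omega)
  · have h1 : HIb_p n = fun z => (star z) ^ (-n).toNat := by
      funext z
      simp [HIb_p, h]
    rw [h1, cfc_pow (R := ℂ) (fun z => star z) (-n).toNat u continuous_star.continuousOn,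
      cfc_star_id (R := ℂ) u, if_neg (by omega)]
    exact hu.npow _ (by omega)

/-- Both sides are linear in `f` and bounded by the supremum of `‖f‖` on the unit circle; they agree
for `z ^ k`, `star z ^ k` (moments of a Haar unitary; `∫ ec (k t) = 0` for `k ≠ 0`), whose linear
combinations are dense in the continuous functions on the circle (Stone-Weierstrass or
`span_fourier_closure_eq_top`). -/
theorem haar_int (hτ : TracialVN τ) {u : N} (hu : IsHaar τ u) {f : ℂ → ℂ} (hf : Continuous f) :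
    τ (cfc f u) = ∫ t in (0 : ℝ)..1, f (ec t) := by
  have hn : IsStarNormal u := by
    refine ⟨?_⟩
    show star u * u = u * star u
    rw [(Unitary.mem_iff.1 hu.mem).1, (Unitary.mem_iff.1 hu.mem).2]
  have hsp : ∀ z ∈ spectrum ℂ u, ‖z‖ = 1 := by
    intro z hz
    have h1 := spectrum.subset_circle_of_unitary hu.mem hz
    rwa [mem_sphere_zero_iff_norm] at h1
  have key : ∀ ε : ℝ, 0 < ε → ‖τ (cfc f u) - ∫ t in (0 : ℝ)..1, f (ec t)‖ ≤ ε := by
    intro ε hε
    obtain ⟨s, c, hsc⟩ := HIb_approx hf (half_pos hε)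
    obtain ⟨P, hP⟩ : ∃ P : ℂ → ℂ, P = fun z => ∑ n ∈ s, c n * HIb_p n z := ⟨_, rfl⟩
    have hPc : Continuous P := by
      rw [hP]
      exact continuous_finsetSum s fun n _ => continuous_const.mul (HIb_cont n)
    have e1 : τ (cfc P u) = ∑ n ∈ s, c n * (if n = 0 then 1 else 0) := by
      have h1 : cfc P u = ∑ n ∈ s, c n • cfc (HIb_p n) u := by
        have h2 : P = ∑ n ∈ s, fun z => c n * HIb_p n z := by
          rw [hP]
          funext z
          rw [Finset.sum_apply]
        rw [h2, cfc_sum (R := ℂ) (fun n z => c n * HIb_p n z) u s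
          (fun n _ => (continuous_const.mul (HIb_cont n)).continuousOn)]
        refine Finset.sum_congr rfl fun n _ => ?_
        rw [cfc_const_mul (R := ℂ) (c n) (HIb_p n) u (HIb_cont n).continuousOn]
      rw [h1, map_sum]
      refine Finset.sum_congr rfl fun n _ => ?_
      rw [map_smul, smul_eq_mul, HIb_tr hτ hu hn n]
    have e2 : ∫ t in (0 : ℝ)..1, P (ec t) = ∑ n ∈ s, c n * (if n = 0 then 1 else 0) := by
      rw [hP]
      rw [intervalIntegral.integral_finsetSum]
      · refine Finset.sum_congr rfl fun n _ => ?_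
        rw [intervalIntegral.integral_const_mul, HIb_int n]
      · intro n _
        exact (continuous_const.mul ((HIb_cont n).comp ec_props.1)).intervalIntegrable _ _
    have e3 : ‖τ (cfc f u) - τ (cfc P u)‖ ≤ ε / 2 := by
      rw [← map_sub, ← cfc_sub (R := ℂ) f P u hf.continuousOn hPc.continuousOn]
      refine ((norm_tr_le hτ _).trans (norm2_le_norm hτ _)).trans ?_
      refine norm_cfc_le (half_pos hε).le fun z hz => ?_
      have h1 := hsc z (hsp z hz)
      rw [hP]
      exact h1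
    have e4 : ‖(∫ t in (0 : ℝ)..1, P (ec t)) - ∫ t in (0 : ℝ)..1, f (ec t)‖ ≤ ε / 2 := by
      have i1 : IntervalIntegrable (fun t => P (ec t)) MeasureTheory.volume 0 1 :=
        (hPc.comp ec_props.1).intervalIntegrable _ _
      have i2 : IntervalIntegrable (fun t => f (ec t)) MeasureTheory.volume 0 1 :=
        (hf.comp ec_props.1).intervalIntegrable _ _
      rw [← intervalIntegral.integral_sub i1 i2]
      have h1 := intervalIntegral.norm_integral_le_of_norm_le_const
        (a := (0 : ℝ)) (b := 1) (C := ε / 2) (f := fun t => P (ec t) - f (ec t))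
        (fun t _ => by
          have h2 := hsc (ec t) (ec_props.2.1 t)
          rw [norm_sub_rev] at h2
          rw [hP]
          exact h2)
      simpa using h1
    have e5 : τ (cfc f u) - ∫ t in (0 : ℝ)..1, f (ec t) =
        (τ (cfc f u) - τ (cfc P u)) + ((∫ t in (0 : ℝ)..1, P (ec t)) -
          ∫ t in (0 : ℝ)..1, f (ec t)) := by
      rw [e1, e2]
      ring
    rw [e5]
    refine (norm_add_le _ _).trans ?_
    linarith
  have h0 : ‖τ (cfc f u) - ∫ t in (0 : ℝ)..1, f (ec t)‖ ≤ 0 :=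
    le_of_forall_pos_le_add fun ε hε => by
      rw [zero_add]
      exact key ε hε
  exact sub_eq_zero.1 (norm_le_zero_iff.1 h0)

end Pool.Agent.Lib.MP_5d1ef1_an_SC
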