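import Pool.Agent.Lib.MP_5d1ef1_an_SC.Et
import Pool.Agent.Lib.MP_5d1ef1_an_SC.HInt

set_option autoImplicit false

/-!
# MP_5d1ef1_an, project SC: existence of Haar unitaries
-/

namespace Pool.Agent.Lib.MP_5d1ef1_an_SC

open Filter Topology

universe u v w

variable {N : Type u} [CStarAlgebra N] {τ : N →ₗ[ℂ] ℂ}

private theorem HEx_mul {e : ℕ → N} {n : ℕ} (hp : ∀ k < n, Pr (e k))
    (ho : ∀ k l, k < n → l < n → k ≠ l → e k * e l = 0) (a b : ℕ → ℂ) :
    (∑ k ∈ Finset.range n, a k • e k) * (∑ k ∈ Finset.range n, b k • e k) =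
      ∑ k ∈ Finset.range n, (a k * b k) • e k := by
  rw [Finset.sum_mul_sum]
  refine Finset.sum_congr rfl fun k hk => ?_
  rw [Finset.mem_range] at hk
  rw [Finset.sum_eq_single k]
  · rw [smul_mul_smul_comm, (hp k hk).idem]
  · intro l hl hlk
    rw [Finset.mem_range] at hl
    rw [smul_mul_smul_comm, ho k l hk hl hlk.symm, smul_zero]
  · intro h
    exact absurd (Finset.mem_range.2 hk) h

private theorem HEx_star {e : ℕ → N} {n : ℕ} (hp : ∀ k < n, Pr (e k)) (a : ℕ → ℂ) :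
    star (∑ k ∈ Finset.range n, a k • e k) =
      ∑ k ∈ Finset.range n, (starRingEnd ℂ (a k)) • e k := by
  rw [star_sum]
  refine Finset.sum_congr rfl fun k hk => ?_
  rw [Finset.mem_range] at hk
  rw [star_smul, (hp k hk).sa]
  rfl

private theorem HEx_pow {e : ℕ → N} {n : ℕ} (hp : ∀ k < n, Pr (e k))
    (ho : ∀ k l, k < n → l < n → k ≠ l → e k * e l = 0)
    (hs : ∑ k ∈ Finset.range n, e k = 1) (a : ℕ → ℂ) (j : ℕ) :
    (∑ k ∈ Finset.range n, a k • e k) ^ j = ∑ k ∈ Finset.range n, (a k ^ j) • e k := by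
  induction j with
  | zero =>
    rw [pow_zero, ← hs]
    refine Finset.sum_congr rfl fun k _ => ?_
    rw [pow_zero, one_smul]
  | succ j ih =>
    rw [pow_succ, ih, HEx_mul hp ho]
    rfl

private theorem HEx_unit {e : ℕ → N} {n : ℕ} (hp : ∀ k < n, Pr (e k))
    (ho : ∀ k l, k < n → l < n → k ≠ l → e k * e l = 0)
    (hs : ∑ k ∈ Finset.range n, e k = 1) {a : ℕ → ℂ} (ha : ∀ k, ‖a k‖ = 1) :
    (∑ k ∈ Finset.range n, a k • e k) ∈ unitary N := by
  have h1 : ∀ k, starRingEnd ℂ (a k) * a k = 1 := by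
    intro k
    rw [Complex.conj_mul', ha]
    norm_num
  rw [Unitary.mem_iff, HEx_star hp, HEx_mul hp ho, HEx_mul hp ho]
  constructor
  · rw [← hs]
    exact Finset.sum_congr rfl fun k _ => by rw [h1, one_smul]
  · rw [← hs]
    exact Finset.sum_congr rfl fun k _ => by rw [mul_comm, h1, one_smul]

private theorem HEx_norm2 (hτ : TracialVN τ) {e : ℕ → N} {n : ℕ} (hp : ∀ k < n, Pr (e k))
    (ho : ∀ k l, k < n → l < n → k ≠ l → e k * e l = 0) (a : ℕ → ℂ) :
    norm2 τ (∑ k ∈ Finset.range n, a k • e k) ^ 2 =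
      ∑ k ∈ Finset.range n, ‖a k‖ ^ 2 * (τ (e k)).re := by
  rw [norm2_sum_orth hτ]
  · refine Finset.sum_congr rfl fun k hk => ?_
    rw [Finset.mem_range] at hk
    rw [norm2_smul, mul_pow, pr_tr hτ (hp k hk), Complex.ofReal_re]
  · intro i hi j hj hij
    rw [Finset.mem_range] at hi hj
    rw [star_smul, (hp i hi).sa, smul_mul_smul_comm, ho i j hi hj hij, smul_zero]

private theorem HEx_split (f : ℕ → N) (n : ℕ) :
    ∑ l ∈ Finset.range (2 * n), f l = ∑ k ∈ Finset.range n, (f (2 * k) + f (2 * k + 1)) := by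
  induction n with
  | zero => simp
  | succ n ih =>
    rw [Finset.sum_range_succ, ← ih, show 2 * (n + 1) = 2 * n + 1 + 1 by ring,
      Finset.sum_range_succ, Finset.sum_range_succ, add_assoc]

private theorem HEx_geom {m j : ℕ} (h0 : 0 < j) (hj : j < 2 ^ m) :
    ∑ k ∈ Finset.range (2 ^ m), ec ((k : ℝ) / 2 ^ m) ^ j = 0 := by
  obtain ⟨-, -, hadd, hper, -, hinj, -⟩ := ec_props
  have hz : ec 0 = 1 := by
    unfold ec
    simp
  have hmul : ∀ (t : ℝ) (k : ℕ), ec t ^ k = ec (k * t) := by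
    intro t k
    induction k with
    | zero => simp [hz]
    | succ k ih =>
      rw [pow_succ, ih, ← hadd]
      congr 1
      push_cast
      ring
  have hnat : ∀ k : ℕ, ec k = 1 := by
    intro k
    induction k with
    | zero => simp [hz]
    | succ k ih =>
      push_cast
      rw [hper, ih]
  have h2 : (0 : ℝ) < 2 ^ m := by positivity
  have e1 : ∀ k ∈ Finset.range (2 ^ m), ec ((k : ℝ) / 2 ^ m) ^ j = ec ((j : ℝ) / 2 ^ m) ^ k := by
    intro k _
    rw [hmul, hmul]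
    congr 1
    ring
  rw [Finset.sum_congr rfl e1]
  have hne : ec ((j : ℝ) / 2 ^ m) ≠ 1 := by
    intro h
    rw [← hz] at h
    obtain ⟨k, hk⟩ := hinj _ _ h
    rw [zero_add] at hk
    have h3 : (0 : ℝ) < (j : ℝ) / 2 ^ m := by
      have : (0 : ℝ) < j := by exact_mod_cast h0
      positivity
    have h4 : (j : ℝ) / 2 ^ m < 1 := by
      rw [div_lt_one h2]
      exact_mod_cast hj
    rw [hk] at h3 h4
    have h5 : 0 < k := by exact_mod_cast h3
    have h6 : k < 1 := by exact_mod_cast h4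
    omega
  rw [geom_sum_eq hne, hmul]
  have h3 : (((2 ^ m : ℕ) : ℝ)) * ((j : ℝ) / 2 ^ m) = j := by
    push_cast
    field_simp
  rw [h3, hnat, sub_self, zero_div]

/-- `w m = ∑ k < 2 ^ m, ec (k / 2 ^ m) • e m k` is a unitary, `‖w m - w (m + 1)‖ ≤ 2 π / 2 ^ m`
(or the 2-norm), `τ (w m ^ j) = 0` for `0 < j < 2 ^ m` (geometric sum); the limit is a Haar
unitary (`lim2_cauchy`, `lim2_unitary`, `lim2_mul`). -/
theorem exists_haar (hN : II1 τ) : ∃ u : N, IsHaar τ u := by
  have hτ := hN.toTracialVN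
  obtain ⟨e, hp, htr, ho, hs, href⟩ := dyadic hN
  obtain ⟨hcont, hnorm, hadd, hper, hlip, hinj, -⟩ := ec_props
  have hNt : Nontrivial N := by
    refine ⟨1, 0, fun h => ?_⟩
    have h1 := hτ.one
    rw [h, map_zero] at h1
    exact zero_ne_one h1
  obtain ⟨w, hw⟩ : ∃ w : ℕ → N, ∀ m, w m = ∑ k ∈ Finset.range (2 ^ m),
      ec ((k : ℝ) / 2 ^ m) • e m k := ⟨_, fun m => rfl⟩
  have hwu : ∀ m, w m ∈ unitary N := by
    intro m
    rw [hw]
    exact HEx_unit (hp m) (ho m) (hs m) fun k => hnorm _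
  have hstep : ∀ m, norm2 τ (w m - w (m + 1)) ≤ Real.pi / 2 ^ m := by
    intro m
    have e1 : w m = ∑ l ∈ Finset.range (2 ^ (m + 1)),
        ec (((l / 2 : ℕ) : ℝ) / 2 ^ m) • e (m + 1) l := by
      rw [hw, show 2 ^ (m + 1) = 2 * 2 ^ m by ring, HEx_split]
      refine Finset.sum_congr rfl fun k hk => ?_
      rw [Finset.mem_range] at hk
      rw [href m k hk, smul_add, show 2 * k / 2 = k by omega, show (2 * k + 1) / 2 = k by omega]
    have e2 : w m - w (m + 1) = ∑ l ∈ Finset.range (2 ^ (m + 1)),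
        (ec (((l / 2 : ℕ) : ℝ) / 2 ^ m) - ec ((l : ℝ) / 2 ^ (m + 1))) • e (m + 1) l := by
      rw [e1, hw (m + 1), ← Finset.sum_sub_distrib]
      exact Finset.sum_congr rfl fun l _ => (sub_smul _ _ _).symm
    have hc : ∀ l : ℕ, ‖ec (((l / 2 : ℕ) : ℝ) / 2 ^ m) - ec ((l : ℝ) / 2 ^ (m + 1))‖ ≤
        Real.pi / 2 ^ m := by
      intro l
      refine (hlip _ _).trans ?_
      have h1 : (l : ℝ) = 2 * ((l / 2 : ℕ) : ℝ) + ((l % 2 : ℕ) : ℝ) := by
        have := Nat.div_add_mod l 2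
        exact_mod_cast this.symm
      have h2 : ((l % 2 : ℕ) : ℝ) ≤ 1 := by
        have : l % 2 ≤ 1 := by omega
        exact_mod_cast this
      have h3 : (0 : ℝ) ≤ ((l % 2 : ℕ) : ℝ) := Nat.cast_nonneg _
      have h4 : ((l / 2 : ℕ) : ℝ) / 2 ^ m - (l : ℝ) / 2 ^ (m + 1) =
          -(((l % 2 : ℕ) : ℝ) / 2 ^ (m + 1)) := by
        rw [pow_succ]
        field_simp
        linarith
      have h5 : (0 : ℝ) < 2 ^ (m + 1) := by positivity
      rw [h4, abs_neg, abs_of_nonneg (by positivity)]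
      have h6 : ((l % 2 : ℕ) : ℝ) / 2 ^ (m + 1) ≤ 1 / 2 ^ (m + 1) := by gcongr
      have h7 : Real.pi / 2 ^ m = 2 * Real.pi * (1 / 2 ^ (m + 1)) := by
        rw [pow_succ]
        field_simp
      rw [h7]
      exact mul_le_mul_of_nonneg_left h6 (by positivity)
    have h1 : norm2 τ (w m - w (m + 1)) ^ 2 ≤ (Real.pi / 2 ^ m) ^ 2 := by
      rw [e2, HEx_norm2 hτ (hp (m + 1)) (ho (m + 1))]
      have h2 : ∀ l ∈ Finset.range (2 ^ (m + 1)),
          ‖ec (((l / 2 : ℕ) : ℝ) / 2 ^ m) - ec ((l : ℝ) / 2 ^ (m + 1))‖ ^ 2 *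
            (τ (e (m + 1) l)).re ≤ (Real.pi / 2 ^ m) ^ 2 * (1 / 2 ^ (m + 1)) := by
        intro l hl
        rw [Finset.mem_range] at hl
        rw [htr _ _ hl, Complex.ofReal_re]
        have h3 := hc l
        gcongr
      refine (Finset.sum_le_sum h2).trans ?_
      rw [Finset.sum_const, Finset.card_range, nsmul_eq_mul]
      apply le_of_eq
      push_cast
      field_simp
    exact le_of_sq_le_sq h1 (by positivity)
  have hdist : ∀ m k, norm2 τ (w m - w (m + k)) ≤ 2 * Real.pi / 2 ^ m -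
      2 * Real.pi / 2 ^ (m + k) := by
    intro m k
    induction k with
    | zero =>
      rw [add_zero, sub_self, norm2_zero, sub_self]
    | succ k ih =>
      have h1 := norm2_tri hτ (w m) (w (m + k)) (w (m + k + 1))
      have h2 := hstep (m + k)
      have h3 : Real.pi / 2 ^ (m + k) = 2 * Real.pi / 2 ^ (m + k) -
          2 * Real.pi / 2 ^ (m + k + 1) := by
        rw [pow_succ]
        field_simp
        ring
      rw [← add_assoc]
      linarith
  have hdist' : ∀ m n, m ≤ n → norm2 τ (w m - w n) ≤ 2 * Real.pi / 2 ^ m := by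
    intro m n hmn
    obtain ⟨k, rfl⟩ := Nat.exists_eq_add_of_le hmn
    have h1 := hdist m k
    have h2 : 0 ≤ 2 * Real.pi / 2 ^ (m + k) := by positivity
    linarith
  have hb : ∀ m k, ‖w m ^ k‖ ≤ 1 := fun m k =>
    (CStarRing.norm_of_mem_unitary (pow_mem (hwu m) k)).le
  have hlim : ∃ u, Lim2 τ w u := by
    refine lim2_cauchy hτ ⟨1, fun n => ?_⟩ fun ε hε => ?_
    · have := hb n 1
      rwa [pow_one] at this
    · obtain ⟨n₀, hn₀⟩ := exists_pow_lt_of_lt_one (show (0 : ℝ) < ε / (2 * Real.pi) by positivity)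
        (show (1 / 2 : ℝ) < 1 by norm_num)
      have h0 : ∀ m ≥ n₀, 2 * Real.pi / 2 ^ m ≤ ε := by
        intro m hm
        have h1 : (1 / 2 : ℝ) ^ m ≤ (1 / 2) ^ n₀ :=
          pow_le_pow_of_le_one (by norm_num) (by norm_num) hm
        have h2 : 2 * Real.pi / 2 ^ m = (1 / 2 : ℝ) ^ m * (2 * Real.pi) := by
          rw [div_pow, one_pow]
          ring
        rw [h2]
        have h3 := (h1.trans_lt hn₀).le
        rwa [le_div_iff₀ (by positivity)] at h3
      refine ⟨n₀, fun m hm n hn => ?_⟩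
      rcases le_total m n with h1 | h1
      · exact (hdist' m n h1).trans (h0 m hm)
      · rw [norm2_sub_comm]
        exact (hdist' n m h1).trans (h0 n hn)
  obtain ⟨u, hu⟩ := hlim
  have hpow : ∀ k, Lim2 τ (fun n => w n ^ k) (u ^ k) := by
    intro k
    induction k with
    | zero =>
      simp only [pow_zero]
      exact lim2_const 1
    | succ k ih =>
      simp only [pow_succ]
      exact lim2_mul hτ ih hu ⟨1, fun n => hb n k⟩
  refine ⟨u, (haar_iff hτ u).2 ⟨lim2_unitary hτ hu hwu, fun k hk => ?_⟩⟩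
  have h1 := lim2_tr hτ (hpow k)
  have h2 : Tendsto (fun n => τ (w n ^ k)) atTop (𝓝 0) := by
    refine tendsto_const_nhds.congr' ?_
    filter_upwards [eventually_ge_atTop k] with m hm
    have h3 : k < 2 ^ m := lt_of_le_of_lt hm Nat.lt_two_pow_self
    rw [hw, HEx_pow (hp m) (ho m) (hs m), map_sum]
    have h4 : ∀ l ∈ Finset.range (2 ^ m), τ (ec ((l : ℝ) / 2 ^ m) ^ k • e m l) =
        ec ((l : ℝ) / 2 ^ m) ^ k * ((1 / 2 ^ m : ℝ) : ℂ) := by
      intro l hl
      rw [Finset.mem_range] at hl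
      rw [map_smul, htr m l hl, smul_eq_mul]
    rw [Finset.sum_congr rfl h4, ← Finset.sum_mul, HEx_geom (Nat.pos_of_ne_zero hk) h3, zero_mul]
  exact tendsto_nhds_unique h1 h2

end Pool.Agent.Lib.MP_5d1ef1_an_SC
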