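import Pool.Agent.Lib.MP_5d1ef1_an_SC.Cf

set_option autoImplicit false

/-!
# MP_5d1ef1_an, project SC: points of the unit circle
-/

namespace Pool.Agent.Lib.MP_5d1ef1_an_SC

open Filter Topology

universe u v w

variable {N : Type u} [CStarAlgebra N] {τ : N →ₗ[ℂ] ℂ}

/-- the point of the unit circle -/
noncomputable def ec (t : ℝ) : ℂ := Complex.exp (2 * Real.pi * t * Complex.I)

theorem ec_props : Continuous ec ∧ (∀ t, ‖ec t‖ = 1) ∧ (∀ s t, ec (s + t) = ec s * ec t) ∧
    (∀ t, ec (t + 1) = ec t) ∧ (∀ s t, ‖ec s - ec t‖ ≤ 2 * Real.pi * |s - t|) ∧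
    (∀ s t, ec s = ec t → ∃ k : ℤ, s = t + k) ∧ ∀ z : ℂ, ‖z‖ = 1 → ∀ a : ℝ,
      ∃ t : ℝ, a ≤ t ∧ t < a + 1 ∧ z = ec t := by
  have hpi := Real.pi_pos
  have hadd : ∀ s t, ec (s + t) = ec s * ec t := by
    intro s t
    unfold ec
    rw [← Complex.exp_add]
    congr 1
    push_cast
    ring
  have hnorm : ∀ t, ‖ec t‖ = 1 := by
    intro t
    have h : ec t = Complex.exp (((2 * Real.pi * t : ℝ) : ℂ) * Complex.I) := by
      unfold ec
      push_cast
      rfl
    rw [h, Complex.norm_exp_ofReal_mul_I]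
  have hone : ec 1 = 1 := by
    unfold ec
    rw [Complex.ofReal_one, mul_one, Complex.exp_two_pi_mul_I]
  have hint : ∀ k : ℤ, ec k = 1 := by
    intro k
    unfold ec
    have h : (2 * (Real.pi : ℂ) * ((k : ℝ) : ℂ) * Complex.I) = k * (2 * Real.pi * Complex.I) := by
      push_cast
      ring
    rw [h, Complex.exp_int_mul_two_pi_mul_I]
  refine ⟨?_, hnorm, hadd, ?_, ?_, ?_, ?_⟩
  · unfold ec
    exact Complex.continuous_exp.comp
      ((continuous_const.mul Complex.continuous_ofReal).mul continuous_const)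
  · intro t
    rw [hadd, hone, mul_one]
  · intro s t
    have h1 : ec s - ec t = ec t * (ec (s - t) - 1) := by
      have h2 : ec s = ec t * ec (s - t) := by
        rw [← hadd]
        congr 1
        ring
      rw [h2]
      ring
    rw [h1, norm_mul, hnorm, one_mul]
    have h3 : ec (s - t) = Complex.exp (Complex.I * ((2 * Real.pi * (s - t) : ℝ) : ℂ)) := by
      unfold ec
      congr 1
      push_cast
      ring
    rw [h3]
    refine (Real.norm_exp_I_mul_ofReal_sub_one_le).trans (le_of_eq ?_)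
    rw [Real.norm_eq_abs, abs_mul, abs_of_pos (by positivity : 0 < 2 * Real.pi)]
  · intro s t hst
    unfold ec at hst
    rw [Complex.exp_eq_exp_iff_exists_int] at hst
    obtain ⟨k, hk⟩ := hst
    refine ⟨k, ?_⟩
    have h1 : (2 * (Real.pi : ℂ) * Complex.I) ≠ 0 := Complex.two_pi_I_ne_zero
    have h2 : ((s : ℂ) - (t + k)) * (2 * Real.pi * Complex.I) = 0 := by
      linear_combination hk
    have h3 : (s : ℂ) - (t + k) = 0 := (mul_eq_zero.1 h2).resolve_right h1
    have h4 : ((s - (t + k) : ℝ) : ℂ) = 0 := by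
      push_cast
      exact h3
    have h5 : s - (t + k) = 0 := by exact_mod_cast h4
    linarith
  · intro z hz a
    have h0 : z = ec (z.arg / (2 * Real.pi)) := by
      conv_lhs => rw [← Complex.norm_mul_exp_arg_mul_I z, hz, Complex.ofReal_one, one_mul]
      unfold ec
      congr 1
      have : (Real.pi : ℂ) ≠ 0 := by exact_mod_cast hpi.ne'
      push_cast
      field_simp
    obtain ⟨t, ht⟩ : ∃ t : ℝ, t = z.arg / (2 * Real.pi) := ⟨_, rfl⟩
    rw [← ht] at h0
    refine ⟨t + (⌈a - t⌉ : ℤ), ?_, ?_, ?_⟩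
    · have := Int.le_ceil (a - t)
      linarith
    · have := Int.ceil_lt_add_one (a - t)
      linarith
    · rw [hadd, hint, mul_one]
      exact h0

end Pool.Agent.Lib.MP_5d1ef1_an_SC
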