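import Pool.Agent.Lib.MP_5d1ef1_an_SC.Cf

set_option autoImplicit false

/-!
# MP_5d1ef1_an, project SC: exponentials of selfadjoint elements
-/

namespace Pool.Agent.Lib.MP_5d1ef1_an_SC

open Filter Topology

universe u v w

variable {N : Type u} [CStarAlgebra N] {τ : N →ₗ[ℂ] ℂ}

/-- `ex h` is unitary for selfadjoint `h`, `ex (h / n) ^ n = ex h`, `‖ex h - 1‖ ≤ ‖h‖`
(`ex h = cfc (exp (i ·)) h` and `|exp (i t) - 1| ≤ |t|`). -/
theorem ex_facts {h : N} (hh : star h = h) : ex h ∈ unitary N ∧ ‖ex h - 1‖ ≤ ‖h‖ ∧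
    star (ex h) = ex (-h) ∧ ∀ n : ℕ, 0 < n → ex ((1 / n : ℂ) • h) ^ n = ex h := by
  let _ : NormedAlgebra ℚ N := NormedAlgebra.restrictScalars ℚ ℂ N
  have hsa : IsSelfAdjoint h := hh
  have hIh : star ((Complex.I : ℂ) • h) = (Complex.I : ℂ) • (-h) := by
    rw [star_smul, hh, Complex.star_def, Complex.conj_I, neg_smul, smul_neg]
  refine ⟨?_, ?_, ?_, ?_⟩
  · unfold ex
    refine NormedSpace.exp_mem_unitary_of_mem_skewAdjoint ?_
    rw [skewAdjoint.mem_iff, hIh, smul_neg]
  · rcases subsingleton_or_nontrivial N with hN | hN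
    · rw [Subsingleton.elim (ex h - 1) 0, norm_zero]
      exact norm_nonneg _
    have hnorm : IsStarNormal ((Complex.I : ℂ) • h) := by
      refine ⟨?_⟩
      rw [hIh, smul_neg]
      exact (Commute.refl _).neg_left
    have h1 : ex h - 1 = cfc (fun z : ℂ => Complex.exp z - 1) ((Complex.I : ℂ) • h) := by
      unfold ex
      rw [cfc_sub .., CFC.complex_exp_eq_normedSpace_exp, cfc_const_one ..]
    rw [h1]
    refine norm_cfc_le (norm_nonneg _) fun z hz => ?_
    have h2 : -Complex.I * z ∈ spectrum ℂ h := by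
      have h3 := spectrum.smul_mem_smul_iff (s := z) (r := Units.mk0 (-Complex.I) (by simp))
        (a := (Complex.I : ℂ) • h)
      have h4 := h3.2 hz
      have h5 : (Units.mk0 (-Complex.I) (by simp) : ℂˣ) • ((Complex.I : ℂ) • h) = h := by
        rw [Units.smul_def, Units.val_mk0, smul_smul]
        simp
      rw [h5] at h4
      exact h4
    have h3 := hsa.mem_spectrum_eq_re h2
    have h4 := spectrum.norm_le_norm_of_mem h2
    have h5 : z = Complex.I * ((-Complex.I * z).re : ℂ) := by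
      rw [← h3, ← mul_assoc]
      simp
    rw [h5]
    refine Real.norm_exp_I_mul_ofReal_sub_one_le.trans ?_
    rw [h3, Complex.norm_real] at h4
    exact h4
  · unfold ex
    rw [NormedSpace.star_exp, hIh]
  · intro n hn
    unfold ex
    rw [← NormedSpace.exp_nsmul]
    congr 1
    rw [← Nat.cast_smul_eq_nsmul ℂ, smul_smul, smul_smul]
    congr 1
    have : (n : ℂ) ≠ 0 := by
      exact_mod_cast hn.ne'
    field_simp

end Pool.Agent.Lib.MP_5d1ef1_an_SC
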