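import Pool.Agent.Lib.MP_5d1ef1_an_SC.LmA

set_option autoImplicit false

/-!
# MP_5d1ef1_an, project SC: limits for the 2-norm, second part
-/

namespace Pool.Agent.Lib.MP_5d1ef1_an_SC

open Filter Topology

universe u v w

variable {N : Type u} [CStarAlgebra N] {τ : N →ₗ[ℂ] ℂ}

private theorem LmB_norm {u : N} (hu : u ∈ unitary N) : ‖u‖ ≤ 1 := by
  rcases subsingleton_or_nontrivial N with h | h
  · rw [Subsingleton.elim u 0, norm_zero]
    exact zero_le_one
  · exact (CStarRing.norm_of_mem_unitary hu).le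

/-- A Haar unitary is a unitary `u` with `τ (u ^ k) = 0` for the positive `k`: `tr_star`. -/
theorem haar_iff (hτ : TracialVN τ) (u : N) :
    IsHaar τ u ↔ u ∈ unitary N ∧ ∀ k : ℕ, k ≠ 0 → τ (u ^ k) = 0 := by
  refine ⟨fun h => ⟨h.mem, h.pow⟩, fun h => ⟨h.1, h.2, fun k hk => ?_⟩⟩
  rw [← star_pow, tr_star hτ, h.2 k hk, map_zero]

theorem lim2_haar (hτ : TracialVN τ) {x : ℕ → N} {a : N} (h : Lim2 τ x a)
    (hx : ∀ n, IsHaar τ (x n)) : IsHaar τ a := by
  have hu : a ∈ unitary N := lim2_unitary hτ h fun n => (hx n).mem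
  have hp : ∀ k : ℕ, Lim2 τ (fun n => x n ^ k) (a ^ k) := by
    intro k
    induction k with
    | zero =>
      simp only [pow_zero]
      exact lim2_const 1
    | succ k ih =>
      simp only [pow_succ]
      exact lim2_mul hτ ih h ⟨1, fun n => LmB_norm (pow_mem (hx n).mem k)⟩
  rw [haar_iff hτ]
  refine ⟨hu, fun k hk => ?_⟩
  have h1 := lim2_tr hτ (hp k)
  have h2 : (fun n => τ (x n ^ k)) = fun _ => (0 : ℂ) := by
    funext n
    exact (hx n).pow k hk
  rw [h2] at h1
  exact tendsto_nhds_unique h1 tendsto_const_nhds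

theorem haar_conj (hτ : TracialVN τ) {u g : N} (hu : IsHaar τ u) (hg : g ∈ unitary N) :
    IsHaar τ (g * u * star g) := by
  have hg1 : star g * g = 1 := Unitary.star_mul_self_of_mem hg
  rw [haar_iff hτ]
  refine ⟨mul_mem (mul_mem hg hu.mem) (Unitary.star_mem hg), fun k hk => ?_⟩
  have h1 : (g * u * star g) ^ k = g * u ^ k * star g := by
    induction k with
    | zero => simp [Unitary.mul_star_self_of_mem hg]
    | succ k ih =>
      by_cases h0 : k = 0
      · subst h0
        simp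
      · rw [pow_succ, ih h0, pow_succ]
        calc g * u ^ k * star g * (g * u * star g)
            = g * u ^ k * (star g * g) * u * star g := by simp only [mul_assoc]
          _ = g * (u ^ k * u) * star g := by rw [hg1, mul_one]; simp only [mul_assoc]
  rw [h1, hτ.tr (g * u ^ k) (star g), ← mul_assoc, hg1, one_mul]
  exact hu.pow k hk

theorem lim2_cauchy (hτ : TracialVN τ) {x : ℕ → N} (hx : ∃ C : ℝ, ∀ n, ‖x n‖ ≤ C)
    (h : ∀ ε : ℝ, 0 < ε → ∃ n₀ : ℕ, ∀ m ≥ n₀, ∀ n ≥ n₀, norm2 τ (x m - x n) ≤ ε) :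
    ∃ y, Lim2 τ x y := hτ.complete x hx h

/-- convergence by a monotone bounded control: `norm2 (x m - x n) ^ 2 ≤ b m - b n` -/
theorem lim2_mono (hτ : TracialVN τ) {x : ℕ → N} (hx : ∃ C : ℝ, ∀ n, ‖x n‖ ≤ C)
    (b : ℕ → ℝ) (hb : ∃ C : ℝ, ∀ n, b n ≤ C)
    (h : ∀ n m, n ≤ m → norm2 τ (x m - x n) ^ 2 ≤ b m - b n) : ∃ y, Lim2 τ x y := by
  have hm : Monotone b := by
    intro n m hnm
    have h1 := h n m hnm
    have h2 := sq_nonneg (norm2 τ (x m - x n))
    linarith
  have hbd : BddAbove (Set.range b) := by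
    obtain ⟨C, hC⟩ := hb
    refine ⟨C, ?_⟩
    rintro _ ⟨n, rfl⟩
    exact hC n
  have hlim := tendsto_atTop_ciSup hm hbd
  have hle : ∀ n, b n ≤ ⨆ i, b i := fun n => le_ciSup hbd n
  refine lim2_cauchy hτ hx fun ε hε => ?_
  have h1 : ∀ᶠ n in atTop, (⨆ i, b i) - ε ^ 2 < b n := by
    refine hlim.eventually (lt_mem_nhds ?_)
    have : 0 < ε ^ 2 := by positivity
    linarith
  obtain ⟨n₀, hn₀⟩ := eventually_atTop.1 h1
  have key : ∀ m n, n₀ ≤ n → n ≤ m → norm2 τ (x m - x n) ≤ ε := by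
    intro m n hn hnm
    have h2 := h n m hnm
    have h3 := hn₀ n hn
    have h4 := hle m
    have h5 : norm2 τ (x m - x n) ^ 2 ≤ ε ^ 2 := by linarith
    exact (abs_le_of_sq_le_sq' h5 hε.le).2
  refine ⟨n₀, fun m hm' n hn => ?_⟩
  rcases le_total n m with h6 | h6
  · exact key m n hn h6
  · rw [norm2_sub_comm]
    exact key n m hm' h6

/-- limits of projections (norm bounded by 1: `pr_norm_le`) -/
theorem lim2_pr (hτ : TracialVN τ) {x : ℕ → N} {a : N} (h : Lim2 τ x a)
    (hx : ∀ n, Pr (x n)) : Pr a := by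
  have h1 : Lim2 τ x (star a) := by
    have h2 := lim2_star hτ h
    have h3 : (fun n => star (x n)) = x := by
      funext n
      exact (hx n).sa
    rwa [h3] at h2
  have h4 : Lim2 τ x (a * a) := by
    have h2 := lim2_mul hτ h h ⟨1, fun n => pr_norm_le (hx n)⟩
    have h3 : (fun n => x n * x n) = x := by
      funext n
      exact (hx n).idem
    rwa [h3] at h2
  exact ⟨lim2_unique hτ h1 h, lim2_unique hτ h4 h⟩

/-- a bounded sequence which converges in norm converges for the 2-norm -/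
theorem lim2_of_norm (hτ : TracialVN τ) {x : ℕ → N} {a : N}
    (h : Tendsto x atTop (𝓝 a)) : Lim2 τ x a := by
  have h1 : Tendsto (fun n => ‖x n - a‖) atTop (𝓝 0) := tendsto_iff_norm_sub_tendsto_zero.1 h
  exact squeeze_zero (fun n => norm2_nonneg _) (fun n => norm2_le_norm hτ _) h1

end Pool.Agent.Lib.MP_5d1ef1_an_SC
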