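import Pool.Agent.Lib.MP_5d1ef1_an_SC.NrB

set_option autoImplicit false

/-!
# MP_5d1ef1_an, project SC: limits for the 2-norm, first part
-/

namespace Pool.Agent.Lib.MP_5d1ef1_an_SC

open Filter Topology

universe u v w

variable {N : Type u} [CStarAlgebra N] {τ : N →ₗ[ℂ] ℂ}

private theorem LmA_of_le {x : ℕ → N} {a : N} {c : ℕ → ℝ} (hc : Tendsto c atTop (𝓝 0))
    (h : ∀ n, norm2 τ (x n - a) ≤ c n) : Lim2 τ x a :=
  squeeze_zero (fun _ => norm2_nonneg _) h hc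

theorem lim2_unique (hτ : TracialVN τ) {x : ℕ → N} {y z : N} (h : Lim2 τ x y)
    (h' : Lim2 τ x z) : y = z := by
  have h1 : Tendsto (fun n => norm2 τ (x n - y) + norm2 τ (x n - z)) atTop (𝓝 (0 + 0)) := h.add h'
  rw [add_zero] at h1
  have h2 : norm2 τ (y - z) ≤ 0 := by
    refine ge_of_tendsto h1 (Eventually.of_forall fun n => ?_)
    rw [norm2_sub_comm (x n) y]
    exact norm2_tri hτ y (x n) z
  exact sub_eq_zero.1 (eq_zero_of_norm2 hτ (le_antisymm h2 (norm2_nonneg _)))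

theorem lim2_const (y : N) : Lim2 τ (fun _ => y) y := by
  refine LmA_of_le (c := fun _ => 0) tendsto_const_nhds fun n => ?_
  rw [sub_self, norm2_zero]

theorem lim2_add (hτ : TracialVN τ) {x y : ℕ → N} {a b : N} (h : Lim2 τ x a)
    (h' : Lim2 τ y b) : Lim2 τ (fun n => x n + y n) (a + b) := by
  have h1 : Tendsto (fun n => norm2 τ (x n - a) + norm2 τ (y n - b)) atTop (𝓝 (0 + 0)) := h.add h'
  rw [add_zero] at h1
  refine LmA_of_le h1 fun n => ?_
  rw [add_sub_add_comm]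
  exact norm2_add_le hτ _ _

theorem lim2_sub (hτ : TracialVN τ) {x y : ℕ → N} {a b : N} (h : Lim2 τ x a)
    (h' : Lim2 τ y b) : Lim2 τ (fun n => x n - y n) (a - b) := by
  have h1 : Tendsto (fun n => norm2 τ (x n - a) + norm2 τ (y n - b)) atTop (𝓝 (0 + 0)) := h.add h'
  rw [add_zero] at h1
  refine LmA_of_le h1 fun n => ?_
  rw [sub_sub_sub_comm]
  exact norm2_sub_le hτ _ _

theorem lim2_smul (hτ : TracialVN τ) (c : ℂ) {x : ℕ → N} {a : N} (h : Lim2 τ x a) :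
    Lim2 τ (fun n => c • x n) (c • a) := by
  have h1 : Tendsto (fun n => ‖c‖ * norm2 τ (x n - a)) atTop (𝓝 (‖c‖ * 0)) := h.const_mul ‖c‖
  rw [mul_zero] at h1
  refine LmA_of_le h1 fun n => ?_
  rw [← smul_sub, norm2_smul]

theorem lim2_star (hτ : TracialVN τ) {x : ℕ → N} {a : N} (h : Lim2 τ x a) :
    Lim2 τ (fun n => star (x n)) (star a) := by
  refine LmA_of_le (c := fun n => norm2 τ (x n - a)) h fun n => ?_
  rw [← star_sub, norm2_star hτ]

theorem lim2_mul (hτ : TracialVN τ) {x y : ℕ → N} {a b : N} (h : Lim2 τ x a)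
    (h' : Lim2 τ y b) (hx : ∃ C : ℝ, ∀ n, ‖x n‖ ≤ C) :
    Lim2 τ (fun n => x n * y n) (a * b) := by
  obtain ⟨C, hC⟩ := hx
  have h1 : Tendsto (fun n => C * norm2 τ (y n - b) + norm2 τ (x n - a) * ‖b‖) atTop
      (𝓝 (C * 0 + 0 * ‖b‖)) := (h'.const_mul C).add (h.mul_const ‖b‖)
  rw [mul_zero, zero_mul, add_zero] at h1
  refine LmA_of_le h1 fun n => ?_
  have h2 : x n * y n - a * b = x n * (y n - b) + (x n - a) * b := by noncomm_ring
  rw [h2]
  refine (norm2_add_le hτ _ _).trans (add_le_add ?_ (norm2_mul_right hτ _ _))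
  exact (norm2_mul_left hτ _ _).trans (mul_le_mul_of_nonneg_right (hC n) (norm2_nonneg _))

theorem lim2_mul_left (hτ : TracialVN τ) (c : N) {x : ℕ → N} {a : N} (h : Lim2 τ x a) :
    Lim2 τ (fun n => c * x n) (c * a) := by
  have h1 : Tendsto (fun n => ‖c‖ * norm2 τ (x n - a)) atTop (𝓝 (‖c‖ * 0)) := h.const_mul ‖c‖
  rw [mul_zero] at h1
  refine LmA_of_le h1 fun n => ?_
  rw [← mul_sub]
  exact norm2_mul_left hτ _ _

theorem lim2_mul_right (hτ : TracialVN τ) (c : N) {x : ℕ → N} {a : N} (h : Lim2 τ x a) :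
    Lim2 τ (fun n => x n * c) (a * c) := by
  have h1 : Tendsto (fun n => norm2 τ (x n - a) * ‖c‖) atTop (𝓝 (0 * ‖c‖)) := h.mul_const ‖c‖
  rw [zero_mul] at h1
  refine LmA_of_le h1 fun n => ?_
  rw [← sub_mul]
  exact norm2_mul_right hτ _ _

theorem lim2_tr (hτ : TracialVN τ) {x : ℕ → N} {a : N} (h : Lim2 τ x a) :
    Tendsto (fun n => τ (x n)) atTop (𝓝 (τ a)) := by
  rw [tendsto_iff_norm_sub_tendsto_zero]
  refine squeeze_zero (fun n => norm_nonneg _) (fun n => ?_) h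
  rw [← map_sub]
  exact norm_tr_le hτ _

theorem lim2_norm2 (hτ : TracialVN τ) {x : ℕ → N} {a : N} (h : Lim2 τ x a) :
    Tendsto (fun n => norm2 τ (x n)) atTop (𝓝 (norm2 τ a)) := by
  rw [tendsto_iff_norm_sub_tendsto_zero]
  refine squeeze_zero (fun n => norm_nonneg _) (fun n => ?_) h
  rw [Real.norm_eq_abs, abs_le]
  have h1 := norm2_add_le hτ (x n - a) a
  have h2 := norm2_add_le hτ (a - x n) (x n)
  rw [sub_add_cancel] at h1 h2
  rw [norm2_sub_comm a (x n)] at h2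
  constructor
  · linarith
  · linarith

theorem lim2_comm (hτ : TracialVN τ) {x : ℕ → N} {a b : N} (h : Lim2 τ x a)
    (hb : ∀ n, x n * b = b * x n) : a * b = b * a := by
  have h1 := lim2_mul_right hτ b h
  have h2 := lim2_mul_left hτ b h
  simp only [hb] at h1
  exact lim2_unique hτ h1 h2

theorem lim2_unitary (hτ : TracialVN τ) {x : ℕ → N} {a : N} (h : Lim2 τ x a)
    (hx : ∀ n, x n ∈ unitary N) : a ∈ unitary N := by
  have h0 : ∀ n, ‖x n‖ = ‖(1 : N)‖ := fun n => by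
    have h1 := CStarRing.norm_mem_unitary_mul (1 : N) (hx n)
    rwa [mul_one] at h1
  have h1 := lim2_mul hτ (lim2_star hτ h) h ⟨‖(1 : N)‖, fun n => by rw [norm_star, h0]⟩
  have h2 := lim2_mul hτ h (lim2_star hτ h) ⟨‖(1 : N)‖, fun n => (h0 n).le⟩
  simp only [Unitary.star_mul_self_of_mem (hx _)] at h1
  simp only [Unitary.mul_star_self_of_mem (hx _)] at h2
  exact Unitary.mem_iff.2 ⟨lim2_unique hτ h1 (lim2_const 1), lim2_unique hτ h2 (lim2_const 1)⟩

end Pool.Agent.Lib.MP_5d1ef1_an_SC
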