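import Pool.Agent.Lib.MP_5d1ef1_an_SC.TeC
import Pool.Agent.Lib.MP_5d1ef1_an_SC.Dc
import Pool.Agent.Lib.MP_5d1ef1_an_SC.Ch
import Pool.Agent.Lib.MP_5d1ef1_an_SC.Br

set_option autoImplicit false

/-!
# MP_5d1ef1_an, project SC: the theorem
-/

namespace Pool.Agent.Lib.MP_5d1ef1_an_SC

open Filter Topology

universe u v w

variable {P : Type u} {Q : Type v} {N : Type w} [CStarAlgebra P] [CStarAlgebra Q]
  [CStarAlgebra N] {τP : P →ₗ[ℂ] ℂ} {τQ : Q →ₗ[ℂ] ℂ} {τ : N →ₗ[ℂ] ℂ} {i : P →⋆ₐ[ℂ] N}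
  {j : Q →⋆ₐ[ℂ] N}

/-- the general dichotomy, in terms of chains in the ultrapower -/
theorem general (hN : II1 τ) (U : Ultrafilter ℕ) (hU : ∀ m : ℕ, U ≠ pure m) :
    (∃ L : ℕ, ∀ u v : N, IsHaar τ u → IsHaar τ v → ChainU U τ L u v) ∨
      ((∀ u : N, IsHaar τ u → Mgr τ (orb U τ u)) ∧
        ∀ f : ℕ → N, (∀ k, IsHaar τ (f k)) →
          ∃ v : N, IsHaar τ v ∧ ∀ k, ¬ SeqComm U τ (f k) v) := by
  rcases dichotomy hN with ⟨L, hL⟩ | h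
  · exact Or.inl ⟨L, fun u v hu hv => chainU_of_rr hN.toTracialVN hU (hL u v hu hv)⟩
  · have h' : ∀ u : N, IsHaar τ u → Mgr τ (orb U τ u) := by
      intro u hu
      obtain ⟨E, hE, hE'⟩ := h u hu
      refine ⟨E, hE, fun v hv => hE' ⟨hv.1, ?_⟩⟩
      obtain ⟨n, hn⟩ := hv.2
      exact ⟨n, rr_of_chainU hN.toTracialVN hu hv.1 hn⟩
    refine Or.inr ⟨h', fun f hf => ?_⟩
    obtain ⟨v, hv, hv'⟩ := baire_mgr hN.toTracialVN (hf 0) (S := fun k => orb U τ (f k))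
      (fun k => h' (f k) (hf k))
    exact ⟨v, hv, fun k hk => hv' k ⟨hv, hk⟩⟩

theorem tensor (hN : II1 τ) (hP : II1 τP) (hQ : II1 τQ) (h : IsTensor τP τQ τ i j)
    (U : Ultrafilter ℕ) (hU : ∀ m : ℕ, U ≠ pure m) :
    (∃ p : P, IsHaar τP p) ∧ (∃ q : Q, IsHaar τQ q) ∧
      (∀ (p : P) (q : Q), IsHaar τP p → IsHaar τQ q →
        SeqComm U τ (i p) (j q) ∧ Dns τ (orb U τ (i p)) ∧ Dns τ (orb U τ (j q))) := by
  have key : ∀ x : N, Dns τ {v | IsHaar τ v ∧ ∃ n, RR τ n x v} → Dns τ (orb U τ x) := by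
    intro x hx v hv ε hε
    obtain ⟨v', ⟨hv1, n, hn⟩, hv2, hv3⟩ := hx v hv ε hε
    exact ⟨v', ⟨hv1, n, chainU_of_rr hN.toTracialVN hU hn⟩, hv2, hv3⟩
  refine ⟨exists_haar hP, exists_haar hQ, fun p q hp hq => ⟨⟨0, ?_⟩, ?_, ?_⟩⟩
  · exact chainU_of_rr hN.toTracialVN hU (rr_of_comm hN.toTracialVN (h.comm p q))
  · exact key _ (ten_dense hN hP hQ h hp)
  · exact key _ (ten_dense hN hQ hP (tensor_swap h) hq)

end Pool.Agent.Lib.MP_5d1ef1_an_SC
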