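import Pool.Agent.Lib.MP_5d1ef1_an_SC.MnA

set_option autoImplicit false

/-!
# MP_5d1ef1_an, project SC: minimal projections: finite dimension
-/

namespace Pool.Agent.Lib.MP_5d1ef1_an_SC

open Filter Topology

universe u v w

variable {N : Type u} [CStarAlgebra N] {τ : N →ₗ[ℂ] ℂ}

private theorem MnB_idem (hτ : TracialVN τ) {e : N} (he : Pr e) {k : ℕ} {v : ℕ → N}
    (h1 : ∀ i < k, star (v i) * v i = e)
    (h2 : ∀ i < k, ∀ j < k, i ≠ j → star (v i) * v j = 0) :
    (∀ i < k, v i * e = v i ∧ e * star (v i) = star (v i)) ∧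
      Pr (∑ i ∈ Finset.range k, v i * star (v i)) ∧
      ∀ i < k, star (v i) * (∑ j ∈ Finset.range k, v j * star (v j)) = star (v i) := by
  have h3 : ∀ i < k, v i * e = v i := by
    intro i hi
    have h := (pi_facts hτ (v := v i) (by rw [h1 i hi]; exact he)).1
    rwa [h1 i hi] at h
  have h4 : ∀ i < k, e * star (v i) = star (v i) := by
    intro i hi
    have h := congrArg star (h3 i hi)
    rwa [star_mul, he.sa] at h
  have h5 : ∀ i < k, star (v i) * (∑ j ∈ Finset.range k, v j * star (v j)) = star (v i) := by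
    intro i hi
    rw [Finset.mul_sum, Finset.sum_eq_single i]
    · rw [← mul_assoc, h1 i hi, h4 i hi]
    · intro j hj hji
      rw [← mul_assoc, h2 i hi j (Finset.mem_range.1 hj) (Ne.symm hji), zero_mul]
    · intro h
      exact absurd (Finset.mem_range.2 hi) h
  refine ⟨fun i hi => ⟨h3 i hi, h4 i hi⟩, ⟨?_, ?_⟩, h5⟩
  · rw [star_sum]
    refine Finset.sum_congr rfl fun i _ => ?_
    rw [star_mul, star_star]
  · rw [Finset.sum_mul]
    refine Finset.sum_congr rfl fun i hi => ?_
    rw [mul_assoc, h5 i (Finset.mem_range.1 hi)]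

private theorem MnB_step (hN : II1 τ) {e : N} (he : Mnl e) {k : ℕ} {v : ℕ → N}
    (h1 : ∀ i < k, star (v i) * v i = e)
    (h2 : ∀ i < k, ∀ j < k, i ≠ j → star (v i) * v j = 0)
    (h3 : ∑ i ∈ Finset.range k, v i * star (v i) ≠ 1) :
    ∃ w : N, star w * w = e ∧ ∀ i < k, star (v i) * w = 0 := by
  have hτ : TracialVN τ := hN.toTracialVN
  obtain ⟨h4, h5, h6⟩ := MnB_idem hτ he.1 h1 h2
  obtain ⟨f, hf⟩ : ∃ f, f = ∑ i ∈ Finset.range k, v i * star (v i) := ⟨_, rfl⟩
  rw [← hf] at h3 h5 h6
  have hone : Pr (1 : N) := ⟨star_one N, mul_one 1⟩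
  have hg : Pr (1 - f) := pr_sub hone h5 (mul_one f)
  have hg0 : (1 : N) - f ≠ 0 := fun h => h3 (sub_eq_zero.1 h).symm
  have hte : τ e ≠ 0 := by
    intro h
    have := pr_tr_pos hτ he.1 he.2.1
    rw [h] at this
    simp at this
  obtain ⟨x, hx⟩ := corner_ne hN hte hg0
  have hgx : (1 - f) * ((1 - f) * x * e) * e = (1 - f) * x * e := by
    rw [← mul_assoc, ← mul_assoc, hg.idem, mul_assoc, he.1.idem]
  obtain ⟨w, hw0, hw1, hw2, hw3, hw4⟩ := exists_pi hτ hx he.1 hg hgx
  have hp : star w * w * e = star w * w := by rw [mul_assoc, hw2]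
  have hw5 : star w * w = e := by
    rcases he.2.2 _ hw3 hp with h | h
    · exact absurd (CStarRing.star_mul_self_eq_zero_iff w |>.1 h) hw0
    · exact h
  refine ⟨w, hw5, fun i hi => ?_⟩
  rw [← hw1, ← mul_assoc, mul_sub, mul_one, h6 i hi, sub_self, zero_mul]

private theorem MnB_bound (hτ : TracialVN τ) {e : N} (he : Pr e) {k : ℕ} {v : ℕ → N}
    (h1 : ∀ i < k, star (v i) * v i = e)
    (h2 : ∀ i < k, ∀ j < k, i ≠ j → star (v i) * v j = 0) : (k : ℝ) * (τ e).re ≤ 1 := by
  have h3 := pr_tr_le_one hτ (MnB_idem hτ he h1 h2).2.1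
  have h4 : τ (∑ i ∈ Finset.range k, v i * star (v i)) = (k : ℂ) * τ e := by
    rw [map_sum]
    have h5 : ∀ i ∈ Finset.range k, τ (v i * star (v i)) = τ e := by
      intro i hi
      rw [hτ.tr, h1 i (Finset.mem_range.1 hi)]
    rw [Finset.sum_congr rfl h5, Finset.sum_const, Finset.card_range, nsmul_eq_mul]
  rw [h4] at h3
  have h5 : ((k : ℂ) * τ e).re = (k : ℝ) * (τ e).re := by
    rw [← Complex.ofReal_natCast, Complex.re_ofReal_mul]
  rwa [h5] at h3

private theorem MnB_fin {e : N} (hτ : TracialVN τ) (he : Mnl e) {k : ℕ} {v : ℕ → N}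
    (h1 : ∀ i < k, star (v i) * v i = e)
    (h2 : ∀ i < k, ∀ j < k, i ≠ j → star (v i) * v j = 0)
    (h3 : ∑ i ∈ Finset.range k, v i * star (v i) = 1) : FiniteDimensional ℂ N := by
  obtain ⟨h4, -, -⟩ := MnB_idem hτ he.1 h1 h2
  refine Module.finite_def.2 (Submodule.fg_def.2
    ⟨(fun p : ℕ × ℕ => v p.1 * star (v p.2)) '' ↑(Finset.range k ×ˢ Finset.range k),
      (Finset.finite_toSet _).image _, ?_⟩)
  rw [eq_top_iff]
  intro x _
  have h5 : x = ∑ i ∈ Finset.range k, ∑ j ∈ Finset.range k,
      v i * (star (v i) * x * v j) * star (v j) := by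
    calc x = (∑ i ∈ Finset.range k, v i * star (v i)) * x
          * (∑ j ∈ Finset.range k, v j * star (v j)) := by rw [h3, one_mul, mul_one]
      _ = _ := by
          rw [Finset.sum_mul, Finset.sum_mul]
          refine Finset.sum_congr rfl fun i _ => ?_
          rw [Finset.mul_sum]
          refine Finset.sum_congr rfl fun j _ => ?_
          simp only [mul_assoc]
  rw [h5]
  refine Submodule.sum_mem _ fun i hi => Submodule.sum_mem _ fun j hj => ?_
  have hi' := Finset.mem_range.1 hi
  have hj' := Finset.mem_range.1 hj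
  obtain ⟨c, hc⟩ := mnl_scalar hτ he (star (v i) * x * v j)
  have h6 : e * (star (v i) * x * v j) * e = star (v i) * x * v j := by
    rw [mul_assoc, mul_assoc (star (v i) * x), (h4 j hj').1, ← mul_assoc, ← mul_assoc,
      (h4 i hi').2]
  have h7 : v i * (star (v i) * x * v j) * star (v j) = c • (v i * star (v j)) := by
    rw [← h6, hc, mul_smul_comm, smul_mul_assoc, (h4 i hi').1]
  rw [h7]
  refine Submodule.smul_mem _ _ (Submodule.subset_span ⟨(i, j), ?_, rfl⟩)
  rw [Finset.mem_coe, Finset.mem_product]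
  exact ⟨hi, hj⟩

/-- Let `k` be maximal such that there are `k` orthogonal projections equivalent to `e` (at most
`1 / τ e`); their sum is 1 (`corner_ne`, `exists_pi`: a nonzero partial isometry from a subprojection
of `e`, so from `e`, into the complement), and `N` is spanned by the `k ^ 2` elements
`v i * star (v j)`. -/
theorem mnl_finite (hN : II1 τ) {e : N} (he : Mnl e) : False := by
  have hτ : TracialVN τ := hN.toTracialVN
  by_contra _
  have key : ∀ k : ℕ, ∃ v : ℕ → N, (∀ i < k, star (v i) * v i = e) ∧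
      ∀ i < k, ∀ j < k, i ≠ j → star (v i) * v j = 0 := by
    intro k
    induction k with
    | zero =>
      exact ⟨fun _ => 0, fun i hi => absurd hi (Nat.not_lt_zero i),
        fun i hi => absurd hi (Nat.not_lt_zero i)⟩
    | succ k ih =>
      obtain ⟨v, h1, h2⟩ := ih
      have h3 : ∑ i ∈ Finset.range k, v i * star (v i) ≠ 1 :=
        fun h => hN.inf (MnB_fin hτ he h1 h2 h)
      obtain ⟨w, hw, hw2⟩ := MnB_step hN he h1 h2 h3
      have hw3 : ∀ i < k, star w * v i = 0 := by
        intro i hi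
        have := congrArg star (hw2 i hi)
        rwa [star_mul, star_star, star_zero] at this
      refine ⟨Function.update v k w, ?_, ?_⟩
      · intro i hi
        rcases eq_or_ne i k with rfl | hik
        · rw [Function.update_self, hw]
        · rw [Function.update_of_ne hik]
          exact h1 i (by omega)
      · intro i hi j hj hij
        rcases eq_or_ne i k with rfl | hik
        · rw [Function.update_self, Function.update_of_ne (Ne.symm hij)]
          exact hw3 j (by omega)
        · rcases eq_or_ne j k with rfl | hjk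
          · rw [Function.update_self, Function.update_of_ne hik]
            exact hw2 i (by omega)
          · rw [Function.update_of_ne hik, Function.update_of_ne hjk]
            exact h2 i (by omega) j (by omega) hij
  have hpos := pr_tr_pos hτ he.1 he.2.1
  obtain ⟨k, hk⟩ := exists_nat_gt (1 / (τ e).re)
  obtain ⟨v, h1, h2⟩ := key k
  have h3 := MnB_bound hτ he.1 h1 h2
  rw [div_lt_iff₀ hpos] at hk
  linarith

end Pool.Agent.Lib.MP_5d1ef1_an_SC
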