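import Pool.Agent.Lib.MP_5d1ef1_an_SC.MnB

set_option autoImplicit false

/-!
# MP_5d1ef1_an, project SC: small projections
-/

namespace Pool.Agent.Lib.MP_5d1ef1_an_SC

open Filter Topology

universe u v w

variable {N : Type u} [CStarAlgebra N] {τ : N →ₗ[ℂ] ℂ}

/-- below every nonzero projection there is a nonzero one with at most half the trace -/
private theorem MnC_half (hN : II1 τ) {e : N} (he : Pr e) (h0 : e ≠ 0) :
    ∃ p : N, Pr p ∧ p ≠ 0 ∧ (τ p).re ≤ (τ e).re / 2 := by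
  have h1 : ¬ Mnl e := fun h => mnl_finite hN h
  have h2 : ∃ p : N, Pr p ∧ p * e = p ∧ p ≠ 0 ∧ p ≠ e := by
    by_contra hcon
    push Not at hcon
    refine h1 ⟨he, h0, fun p hp hpe => ?_⟩
    by_cases hp0 : p = 0
    · exact Or.inl hp0
    · exact Or.inr (hcon p hp hpe hp0)
  obtain ⟨p, hp, hpe, hp0, hpe'⟩ := h2
  have h3 : Pr (e - p) := pr_sub he hp hpe
  have h4 : (τ (e - p)).re = (τ e).re - (τ p).re := by rw [map_sub, Complex.sub_re]
  rcases le_total (τ p).re ((τ e).re / 2) with h5 | h5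
  · exact ⟨p, hp, hp0, h5⟩
  · exact ⟨e - p, h3, fun h => hpe' (sub_eq_zero.1 h).symm, by rw [h4]; linarith⟩

/-- there are nonzero projections of arbitrarily small trace: below every nonzero projection there
is a proper nonzero subprojection, so one with at most half the trace -/
theorem small_pr (hN : II1 τ) {ε : ℝ} (hε : 0 < ε) :
    ∃ p : N, Pr p ∧ p ≠ 0 ∧ (τ p).re < ε := by
  have h1 : (1 : N) ≠ 0 := by
    intro h
    have h2 := hN.one
    rw [h, map_zero] at h2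
    exact zero_ne_one h2
  have hn : ∀ n : ℕ, ∃ p : N, Pr p ∧ p ≠ 0 ∧ (τ p).re ≤ (1 / 2 : ℝ) ^ n := by
    intro n
    induction n with
    | zero => exact ⟨1, ⟨star_one N, one_mul 1⟩, h1, by rw [hN.one]; simp⟩
    | succ n ih =>
      obtain ⟨p, hp, hp0, h2⟩ := ih
      obtain ⟨q, hq, hq0, h3⟩ := MnC_half hN hp hp0
      refine ⟨q, hq, hq0, ?_⟩
      rw [pow_succ]
      linarith
  obtain ⟨n, hn'⟩ := exists_pow_lt_of_lt_one hε (by norm_num : (1 / 2 : ℝ) < 1)
  obtain ⟨p, hp, hp0, h2⟩ := hn n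
  exact ⟨p, hp, hp0, h2.trans_lt hn'⟩

end Pool.Agent.Lib.MP_5d1ef1_an_SC
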