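import Pool.Agent.Lib.MP_5d1ef1_an_SC.Sa
import Pool.Agent.Lib.MP_5d1ef1_an_SC.Cmp

set_option autoImplicit false

/-!
# MP_5d1ef1_an, project SC: minimal projections: scalars
-/

namespace Pool.Agent.Lib.MP_5d1ef1_an_SC

open Filter Topology

universe u v w

variable {N : Type u} [CStarAlgebra N] {τ : N →ₗ[ℂ] ℂ}

/-- `e` is minimal: no proper subprojections -/
def Mnl (e : N) : Prop := Pr e ∧ e ≠ 0 ∧ ∀ p : N, Pr p → p * e = p → p = 0 ∨ p = e

/-- approximation by a multiple of a minimal projection -/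
private theorem MnA_approx (hτ : TracialVN τ) {e : N} (he : Mnl e) {x : N} (hx : star x = x)
    {ε : ℝ} (hε : 0 < ε) : ∃ s : ℂ, norm2 τ (e * x * e - s • e) ≤ ε := by
  obtain ⟨hpr, h0, hmin⟩ := he
  have hy : star (e * x * e) = e * x * e := by
    rw [star_mul, star_mul, hpr.sa, hx, mul_assoc]
  obtain ⟨m, p, s, hp, hort, hsum, hcomm, hdist⟩ := step_approx hτ hy hε
  have hey : e * (e * x * e) = e * x * e * e := by
    rw [mul_assoc (e * x) e e, hpr.idem, ← mul_assoc, ← mul_assoc, hpr.idem]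
  have hc : ∀ i, e * p i = p i * e := hcomm e hey
  have hpe : ∀ i, Pr (p i * e) := by
    intro i
    refine ⟨?_, ?_⟩
    · rw [star_mul, hpr.sa, (hp i).sa, hc]
    · calc p i * e * (p i * e) = p i * (e * p i) * e := by simp only [mul_assoc]
        _ = p i * p i * (e * e) := by rw [hc]; simp only [mul_assoc]
        _ = p i * e := by rw [(hp i).idem, hpr.idem]
  have hdich : ∀ i, p i * e = 0 ∨ p i * e = e := fun i =>
    hmin _ (hpe i) (by rw [mul_assoc, hpr.idem])
  have hex : ∃ i, p i * e = e := by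
    by_contra hcon
    push Not at hcon
    refine h0 ?_
    calc e = (∑ i, p i) * e := by rw [hsum, one_mul]
      _ = ∑ i, p i * e := Finset.sum_mul _ _ _
      _ = 0 := Finset.sum_eq_zero fun i _ => (hdich i).resolve_right (hcon i)
  obtain ⟨i, hi⟩ := hex
  refine ⟨(s i : ℂ), ?_⟩
  have h1 : (∑ j, (s j : ℂ) • p j) * e = (s i : ℂ) • e := by
    rw [Finset.sum_mul, Finset.sum_eq_single i]
    · rw [smul_mul_assoc, hi]
    · intro j _ hj
      rw [smul_mul_assoc, ← hi, ← mul_assoc, hort j i hj, zero_mul, smul_zero]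
    · intro h
      exact absurd (Finset.mem_univ _) h
  have h2 : e * x * e - (s i : ℂ) • e = (e * x * e - ∑ j, (s j : ℂ) • p j) * e := by
    rw [sub_mul, h1, mul_assoc (e * x) e e, hpr.idem]
  rw [h2]
  refine (norm2_mul_right hτ _ _).trans ?_
  calc norm2 τ (e * x * e - ∑ j, (s j : ℂ) • p j) * ‖e‖ ≤ ε * 1 :=
        mul_le_mul hdist (pr_norm_le hpr) (norm_nonneg _) hε.le
    _ = ε := mul_one _

private theorem MnA_sa (hτ : TracialVN τ) {e : N} (he : Mnl e) {x : N} (hx : star x = x) :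
    ∃ c : ℂ, e * x * e = c • e := by
  obtain ⟨hpr, h0, -⟩ := id he
  have ht : 0 < (τ e).re := pr_tr_pos hτ hpr h0
  have hte : τ e ≠ 0 := by
    intro h
    rw [h, Complex.zero_re] at ht
    exact lt_irrefl _ ht
  have hte' : 0 < ‖τ e‖ := norm_pos_iff.2 hte
  refine ⟨τ (e * x * e) / τ e, ?_⟩
  obtain ⟨y, hy⟩ : ∃ y, y = e * x * e := ⟨_, rfl⟩
  obtain ⟨c, hc⟩ : ∃ c, c = τ (e * x * e) / τ e := ⟨_, rfl⟩
  rw [← hy] at hc
  rw [← hy, ← hc]
  have hcy : c * τ e = τ y := by rw [hc]; field_simp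
  have he1 : norm2 τ e ≤ 1 := (norm2_le_norm hτ e).trans (pr_norm_le hpr)
  have hb : ∀ ε : ℝ, 0 < ε → norm2 τ (y - c • e) ≤ ε + ε / ‖τ e‖ := by
    intro ε hε
    obtain ⟨s, hs⟩ := MnA_approx hτ he hx hε
    rw [← hy] at hs
    have h1 : ‖τ (y - s • e)‖ ≤ ε := (norm_tr_le hτ _).trans hs
    have h2 : τ (y - s • e) = (c - s) * τ e := by
      rw [map_sub, map_smul, smul_eq_mul, ← hcy]
      ring
    rw [h2, norm_mul, ← le_div_iff₀ hte'] at h1
    have h3 : y - c • e = (y - s • e) + (-(c - s)) • e := by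
      rw [neg_smul, sub_smul]
      abel
    rw [h3]
    refine (norm2_add_le hτ _ _).trans (add_le_add hs ?_)
    rw [norm2_smul, norm_neg]
    calc ‖c - s‖ * norm2 τ e ≤ ε / ‖τ e‖ * 1 :=
          mul_le_mul h1 he1 (norm2_nonneg _) (by positivity)
      _ = ε / ‖τ e‖ := mul_one _
  have h4 : norm2 τ (y - c • e) ≤ 0 := by
    refine le_of_forall_pos_le_add fun δ hδ => ?_
    have hk : 0 < 1 + 1 / ‖τ e‖ := by positivity
    have h5 := hb (δ / (1 + 1 / ‖τ e‖)) (by positivity)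
    have h6 : δ / (1 + 1 / ‖τ e‖) + δ / (1 + 1 / ‖τ e‖) / ‖τ e‖ = 0 + δ := by
      have h7 : δ / (1 + 1 / ‖τ e‖) + δ / (1 + 1 / ‖τ e‖) / ‖τ e‖
          = δ / (1 + 1 / ‖τ e‖) * (1 + 1 / ‖τ e‖) := by ring
      rw [h7, div_mul_cancel₀ _ hk.ne', zero_add]
    rw [h6] at h5
    exact h5
  exact sub_eq_zero.1 (eq_zero_of_norm2 hτ (le_antisymm h4 (norm2_nonneg _)))

/-- Let `y = e * x * e` with `x` selfadjoint.  For `ε > 0` take `step_approx` for `y`: the `e i`
commute with `e`, so the `e i * e` are orthogonal subprojections of `e` with sum `e`, so one of them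
is `e` and the others are 0, and `norm2 (y - s i • e) ≤ ε`.  Hence `norm2 (y - c • e) ≤ C ε` with
`c = τ y / τ e` for all `ε`, so `y = c • e`.  The general case by real and imaginary parts. -/
theorem mnl_scalar (hτ : TracialVN τ) {e : N} (he : Mnl e) (x : N) :
    ∃ c : ℂ, e * x * e = c • e := by
  obtain ⟨c₁, h1⟩ := MnA_sa hτ he (x := x + star x) (by rw [star_add, star_star, add_comm])
  obtain ⟨c₂, h2⟩ := MnA_sa hτ he (x := Complex.I • (x - star x)) (by
    rw [star_smul, star_sub, star_star, Complex.star_def, Complex.conj_I, neg_smul, ← smul_neg,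
      neg_sub])
  have h3 : x = (1 / 2 : ℂ) • (x + star x) + (-Complex.I / 2) • (Complex.I • (x - star x)) := by
    have h4 : (-Complex.I / 2) * Complex.I = 1 / 2 := by
      rw [div_mul_eq_mul_div, neg_mul, Complex.I_mul_I, neg_neg]
    rw [smul_smul, h4, ← smul_add]
    have h5 : x + star x + (x - star x) = (2 : ℂ) • x := by
      rw [two_smul]
      abel
    rw [h5, smul_smul]
    norm_num
  refine ⟨1 / 2 * c₁ + -Complex.I / 2 * c₂, ?_⟩
  calc e * x * e
      = (1 / 2 : ℂ) • (e * (x + star x) * e)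
        + (-Complex.I / 2) • (e * (Complex.I • (x - star x)) * e) := by
        conv_lhs => rw [h3]
        rw [mul_add, add_mul, mul_smul_comm, smul_mul_assoc, mul_smul_comm, smul_mul_assoc]
    _ = (1 / 2 * c₁ + -Complex.I / 2 * c₂) • e := by
        rw [h1, h2, smul_smul, smul_smul, add_smul]

end Pool.Agent.Lib.MP_5d1ef1_an_SC
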