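import Pool.Agent.Lib.MP_5d1ef1_an_SC.Defs

set_option autoImplicit false

/-!
# MP_5d1ef1_an, project SC: the 2-norm, first part
-/

namespace Pool.Agent.Lib.MP_5d1ef1_an_SC

open Filter Topology

universe u v w

variable {N : Type u} [CStarAlgebra N] {τ : N →ₗ[ℂ] ℂ}

/-- For every `x` the number `τ (star x * x)` is real; apply this to `x + 1` and to `x + i`:
`Im (τ (star x) + τ x) = 0` and `Re (τ x - τ (star x)) = 0`. -/
theorem tr_star (hτ : TracialVN τ) (x : N) : τ (star x) = (starRingEnd ℂ) (τ x) := by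
  have h0 := (hτ.pos x).2
  have h1 := (hτ.pos (x + 1)).2
  have h2 := (hτ.pos (x + Complex.I • 1)).2
  have e1 : star (x + 1) * (x + 1) = star x * x + star x + x + 1 := by
    rw [star_add, star_one]
    noncomm_ring
  have e2 : star (x + Complex.I • (1 : N)) * (x + Complex.I • (1 : N)) =
      star x * x + Complex.I • star x - Complex.I • x + 1 := by
    rw [star_add, star_smul, star_one]
    have hI : star Complex.I = -Complex.I := Complex.conj_I
    rw [hI, add_mul, mul_add, mul_add, smul_mul_assoc, smul_mul_assoc, mul_smul_comm, one_mul,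
      mul_one, one_mul, smul_smul, neg_mul, Complex.I_mul_I, neg_neg, one_smul, neg_smul]
    abel
  rw [e1, map_add, map_add, map_add, hτ.one] at h1
  rw [e2, map_add, map_sub, map_add, map_smul, map_smul, hτ.one] at h2
  simp only [Complex.add_im, Complex.one_im, smul_eq_mul, Complex.sub_im, Complex.mul_im,
    Complex.I_re, Complex.I_im, h0] at h1 h2
  apply Complex.ext
  · rw [Complex.conj_re]
    linarith
  · rw [Complex.conj_im]
    linarith

theorem norm2_nonneg (x : N) : 0 ≤ norm2 τ x := Real.sqrt_nonneg _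

theorem norm2_sq (hτ : TracialVN τ) (x : N) : norm2 τ x ^ 2 = (τ (star x * x)).re :=
  Real.sq_sqrt (hτ.pos x).1

theorem tr_eq_sq (hτ : TracialVN τ) (x : N) : τ (star x * x) = ((norm2 τ x ^ 2 : ℝ) : ℂ) := by
  rw [norm2_sq hτ]
  apply Complex.ext
  · rw [Complex.ofReal_re]
  · rw [Complex.ofReal_im]
    exact (hτ.pos x).2

theorem norm2_zero : norm2 τ 0 = 0 := by
  unfold norm2
  rw [mul_zero, map_zero, Complex.zero_re, Real.sqrt_zero]

theorem norm2_one (hτ : TracialVN τ) : norm2 τ 1 = 1 := by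
  unfold norm2
  rw [star_one, mul_one, hτ.one, Complex.one_re, Real.sqrt_one]

theorem norm2_smul (c : ℂ) (x : N) : norm2 τ (c • x) = ‖c‖ * norm2 τ x := by
  have h : (τ (star (c • x) * (c • x))).re = ‖c‖ ^ 2 * (τ (star x * x)).re := by
    rw [star_smul, smul_mul_smul_comm, map_smul, smul_eq_mul]
    have h1 : star c * c = ((‖c‖ ^ 2 : ℝ) : ℂ) := by
      rw [Complex.ofReal_pow]
      exact Complex.conj_mul' c
    rw [h1, Complex.re_ofReal_mul]
  unfold norm2
  rw [h, Real.sqrt_mul (sq_nonneg _), Real.sqrt_sq (norm_nonneg _)]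

theorem norm2_neg (x : N) : norm2 τ (-x) = norm2 τ x := by
  unfold norm2
  rw [star_neg, neg_mul_neg]

theorem norm2_sub_comm (x y : N) : norm2 τ (x - y) = norm2 τ (y - x) := by
  rw [← neg_sub, norm2_neg]

theorem norm2_star (hτ : TracialVN τ) (x : N) : norm2 τ (star x) = norm2 τ x := by
  unfold norm2
  rw [star_star, hτ.tr]

theorem eq_zero_of_norm2 (hτ : TracialVN τ) {x : N} (h : norm2 τ x = 0) : x = 0 := by
  refine hτ.faithful x ?_
  rw [tr_eq_sq hτ, h]
  simp

@[implicit_reducible]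
private noncomputable def NrA_core (hτ : TracialVN τ) : PreInnerProductSpace.Core ℂ N where
  inner x y := τ (star x * y)
  conj_inner_symm x y := by
    change (starRingEnd ℂ) (τ (star y * x)) = τ (star x * y)
    rw [← tr_star hτ, star_mul, star_star]
  re_inner_nonneg x := (hτ.pos x).1
  add_left x y z := by
    change τ (star (x + y) * z) = τ (star x * z) + τ (star y * z)
    rw [star_add, add_mul, map_add]
  smul_left x y r := by
    change τ (star (r • x) * y) = (starRingEnd ℂ) r * τ (star x * y)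
    rw [star_smul, smul_mul_assoc, map_smul]
    rfl

/-- Cauchy-Schwarz (discriminant, or `InnerProductSpace.Core` on a type synonym) -/
theorem cauchy (hτ : TracialVN τ) (x y : N) :
    ‖τ (star x * y)‖ ≤ norm2 τ x * norm2 τ y := by
  have h1 : ‖τ (star x * y)‖ * ‖τ (star y * x)‖ ≤
      (τ (star x * x)).re * (τ (star y * y)).re :=
    @InnerProductSpace.Core.inner_mul_inner_self_le ℂ N _ _ _ (NrA_core hτ) x y
  have h2 : ‖τ (star y * x)‖ = ‖τ (star x * y)‖ := by
    have h3 : star y * x = star (star x * y) := by rw [star_mul, star_star]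
    rw [h3, tr_star hτ, Complex.norm_conj]
  rw [h2, ← norm2_sq hτ, ← norm2_sq hτ, ← pow_two, ← mul_pow] at h1
  exact le_of_sq_le_sq h1 (mul_nonneg (norm2_nonneg x) (norm2_nonneg y))

theorem norm2_add_le (hτ : TracialVN τ) (x y : N) :
    norm2 τ (x + y) ≤ norm2 τ x + norm2 τ y := by
  refine le_of_sq_le_sq ?_ (add_nonneg (norm2_nonneg x) (norm2_nonneg y))
  have h1 : norm2 τ (x + y) ^ 2 =
      norm2 τ x ^ 2 + norm2 τ y ^ 2 + (τ (star x * y)).re + (τ (star y * x)).re := by
    rw [norm2_sq hτ, norm2_sq hτ, norm2_sq hτ, star_add, add_mul, mul_add, mul_add, map_add,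
      map_add, map_add]
    simp only [Complex.add_re]
    ring
  have h2 : (τ (star x * y)).re ≤ norm2 τ x * norm2 τ y :=
    (Complex.re_le_norm _).trans (cauchy hτ x y)
  have h3 : (τ (star y * x)).re ≤ norm2 τ y * norm2 τ x :=
    (Complex.re_le_norm _).trans (cauchy hτ y x)
  rw [h1]
  nlinarith

theorem norm2_sub_le (hτ : TracialVN τ) (x y : N) :
    norm2 τ (x - y) ≤ norm2 τ x + norm2 τ y := by
  rw [sub_eq_add_neg]
  refine (norm2_add_le hτ _ _).trans ?_
  rw [norm2_neg]

theorem norm2_tri (hτ : TracialVN τ) (x y z : N) :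
    norm2 τ (x - z) ≤ norm2 τ (x - y) + norm2 τ (y - z) := by
  have h := norm2_add_le hτ (x - y) (y - z)
  rwa [sub_add_sub_cancel] at h

theorem norm2_sum_le (hτ : TracialVN τ) {ι : Type*} (s : Finset ι) (f : ι → N) :
    norm2 τ (∑ i ∈ s, f i) ≤ ∑ i ∈ s, norm2 τ (f i) :=
  Finset.le_sum_of_subadditive (norm2 τ) norm2_zero.le (norm2_add_le hτ) s f

theorem norm_tr_le (hτ : TracialVN τ) (x : N) : ‖τ x‖ ≤ norm2 τ x := by
  have h := cauchy hτ 1 x
  rwa [star_one, one_mul, norm2_one hτ, one_mul] at h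

end Pool.Agent.Lib.MP_5d1ef1_an_SC
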