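import Pool.Agent.Lib.MP_5d1ef1_an_SC.NrA

set_option autoImplicit false

/-!
# MP_5d1ef1_an, project SC: the 2-norm, second part
-/

namespace Pool.Agent.Lib.MP_5d1ef1_an_SC

open Filter Topology

universe u v w

variable {N : Type u} [CStarAlgebra N] {τ : N →ₗ[ℂ] ℂ}

/-- `star y * (‖x‖ ^ 2 - star x * x) * y` is positive: `‖x‖ ^ 2 - star x * x = star b * b` for some
`b` (order of C*-algebras, `CStarAlgebra.spectralOrder` as a local instance). -/
theorem norm2_mul_left (hτ : TracialVN τ) (x y : N) :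
    norm2 τ (x * y) ≤ ‖x‖ * norm2 τ y := by
  let _ := CStarAlgebra.spectralOrder N
  have := CStarAlgebra.spectralOrderedRing N
  have h1 : star x * x ≤ algebraMap ℝ N (‖x‖ ^ 2) := CStarAlgebra.star_mul_le_algebraMap_norm_sq
  obtain ⟨b, hb⟩ := CStarAlgebra.nonneg_iff_eq_star_mul_self.1 (sub_nonneg.2 h1)
  have h2 : star x * x = ((‖x‖ ^ 2 : ℝ) : ℂ) • (1 : N) - star b * b := by
    rw [← hb, Algebra.algebraMap_eq_smul_one, Complex.coe_smul]
    abel
  have h3 : star (x * y) * (x * y) =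
      ((‖x‖ ^ 2 : ℝ) : ℂ) • (star y * y) - star (b * y) * (b * y) := by
    calc star (x * y) * (x * y) = star y * (star x * x) * y := by
          rw [star_mul]; simp only [mul_assoc]
      _ = _ := by
          rw [h2, mul_sub, sub_mul, mul_smul_comm, smul_mul_assoc, mul_one, star_mul]
          simp only [mul_assoc]
  have h4 : norm2 τ (x * y) ^ 2 ≤ (‖x‖ * norm2 τ y) ^ 2 := by
    rw [norm2_sq hτ, h3, map_sub, map_smul, smul_eq_mul, Complex.sub_re, Complex.re_ofReal_mul,
      mul_pow, norm2_sq hτ]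
    have := (hτ.pos (b * y)).1
    linarith
  exact le_of_sq_le_sq h4 (mul_nonneg (norm_nonneg _) (norm2_nonneg _))

/-- `norm2_mul_left` and `norm2_star` -/
theorem norm2_mul_right (hτ : TracialVN τ) (x y : N) :
    norm2 τ (x * y) ≤ norm2 τ x * ‖y‖ := by
  rw [← norm2_star hτ (x * y), star_mul]
  refine (norm2_mul_left hτ _ _).trans (le_of_eq ?_)
  rw [norm_star, norm2_star hτ, mul_comm]

theorem norm2_le_norm (hτ : TracialVN τ) (x : N) : norm2 τ x ≤ ‖x‖ := by
  have h := norm2_mul_left hτ x 1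
  rwa [mul_one, norm2_one hτ, mul_one] at h

theorem norm2_unit_mul {u : N} (hu : u ∈ unitary N) (x : N) :
    norm2 τ (u * x) = norm2 τ x := by
  unfold norm2
  have h : star (u * x) * (u * x) = star x * x := by
    rw [star_mul, mul_assoc, ← mul_assoc (star u) u x, Unitary.star_mul_self_of_mem hu, one_mul]
  rw [h]

theorem norm2_mul_unit (hτ : TracialVN τ) {u : N} (hu : u ∈ unitary N) (x : N) :
    norm2 τ (x * u) = norm2 τ x := by
  rw [← norm2_star hτ (x * u), star_mul, norm2_unit_mul (Unitary.star_mem hu), norm2_star hτ]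

theorem norm2_conj (hτ : TracialVN τ) {u : N} (hu : u ∈ unitary N) (x : N) :
    norm2 τ (u * x * star u) = norm2 τ x := by
  rw [norm2_mul_unit hτ (Unitary.star_mem hu), norm2_unit_mul hu]

theorem norm2_para (hτ : TracialVN τ) (x y : N) :
    norm2 τ (x + y) ^ 2 + norm2 τ (x - y) ^ 2 = 2 * norm2 τ x ^ 2 + 2 * norm2 τ y ^ 2 := by
  rw [norm2_sq hτ, norm2_sq hτ, norm2_sq hτ, norm2_sq hτ, star_add, star_sub]
  have h : τ ((star x + star y) * (x + y)) + τ ((star x - star y) * (x - y)) =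
      2 * τ (star x * x) + 2 * τ (star y * y) := by
    simp only [add_mul, sub_mul, mul_add, mul_sub, map_add, map_sub]
    ring
  have h2 := congrArg Complex.re h
  simpa using h2

theorem norm2_pyth (hτ : TracialVN τ) (x y : N) (h : star x * y = 0) :
    norm2 τ (x + y) ^ 2 = norm2 τ x ^ 2 + norm2 τ y ^ 2 := by
  have h' : star y * x = 0 := by
    have := congrArg star h
    rwa [star_mul, star_star, star_zero] at this
  rw [norm2_sq hτ, norm2_sq hτ, norm2_sq hτ, star_add, add_mul, mul_add, mul_add, h, h', add_zero,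
    zero_add, map_add, Complex.add_re]

theorem norm2_sum_orth (hτ : TracialVN τ) {ι : Type*} (s : Finset ι) (f : ι → N)
    (h : ∀ i ∈ s, ∀ j ∈ s, i ≠ j → star (f i) * f j = 0) :
    norm2 τ (∑ i ∈ s, f i) ^ 2 = ∑ i ∈ s, norm2 τ (f i) ^ 2 := by
  classical
  induction s using Finset.induction_on with
  | empty => simp [norm2_zero]
  | insert i s hi ih =>
    rw [Finset.sum_insert hi, Finset.sum_insert hi, norm2_pyth hτ, ih]
    · intro a ha b hb hab
      exact h a (Finset.mem_insert_of_mem ha) b (Finset.mem_insert_of_mem hb) hab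
    · rw [Finset.mul_sum]
      refine Finset.sum_eq_zero (fun j hj => ?_)
      refine h i (Finset.mem_insert_self i s) j (Finset.mem_insert_of_mem hj) ?_
      rintro rfl
      exact hi hj

/-- a commutator with a unitary -/
theorem norm2_comm_unit (hτ : TracialVN τ) {u : N} (hu : u ∈ unitary N) (x : N) :
    norm2 τ (u * x - x * u) = norm2 τ (u * x * star u - x) := by
  rw [← norm2_mul_unit hτ hu (u * x * star u - x), sub_mul, mul_assoc (u * x),
    Unitary.star_mul_self_of_mem hu, mul_one]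

/-- the trace of a projection -/
theorem pr_tr (hτ : TracialVN τ) {p : N} (hp : Pr p) :
    τ p = ((norm2 τ p ^ 2 : ℝ) : ℂ) := by
  rw [← tr_eq_sq hτ, hp.sa, hp.idem]

theorem pr_tr_nonneg (hτ : TracialVN τ) {p : N} (hp : Pr p) : 0 ≤ (τ p).re := by
  rw [pr_tr hτ hp, Complex.ofReal_re]
  positivity

theorem pr_tr_pos (hτ : TracialVN τ) {p : N} (hp : Pr p) (h0 : p ≠ 0) : 0 < (τ p).re := by
  rw [pr_tr hτ hp, Complex.ofReal_re]
  have h1 : norm2 τ p ≠ 0 := fun h => h0 (eq_zero_of_norm2 hτ h)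
  positivity

theorem pr_norm_le {p : N} (hp : Pr p) : ‖p‖ ≤ 1 := by
  have h1 := CStarRing.norm_star_mul_self (x := p)
  rw [hp.sa, hp.idem] at h1
  by_contra h2
  rw [not_le] at h2
  nlinarith

theorem pr_tr_le_one (hτ : TracialVN τ) {p : N} (hp : Pr p) : (τ p).re ≤ 1 := by
  rw [pr_tr hτ hp, Complex.ofReal_re]
  have h1 := (norm2_le_norm hτ p).trans (pr_norm_le hp)
  have h2 := norm2_nonneg (τ := τ) p
  nlinarith

theorem pr_sub {p q : N} (hp : Pr p) (hq : Pr q) (h : q * p = q) : Pr (p - q) := by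
  have h' : p * q = q := by
    have h1 := congrArg star h
    rwa [star_mul, hp.sa, hq.sa] at h1
  refine ⟨by rw [star_sub, hp.sa, hq.sa], ?_⟩
  rw [sub_mul, mul_sub, mul_sub, hp.idem, hq.idem, h, h']
  abel

theorem pr_add {p q : N} (hp : Pr p) (hq : Pr q) (h : p * q = 0) : Pr (p + q) := by
  have h' : q * p = 0 := by
    have h1 := congrArg star h
    rwa [star_mul, hp.sa, hq.sa, star_zero] at h1
  refine ⟨by rw [star_add, hp.sa, hq.sa], ?_⟩
  rw [add_mul, mul_add, mul_add, hp.idem, hq.idem, h, h', add_zero, zero_add]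

end Pool.Agent.Lib.MP_5d1ef1_an_SC
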