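import Pool.Agent.Lib.MP_5d1ef1_an_SC.Lm

set_option autoImplicit false

/-!
# MP_5d1ef1_an, project SC: the relations RR
-/

namespace Pool.Agent.Lib.MP_5d1ef1_an_SC

open Filter Topology

universe u v w

variable {N : Type u} [CStarAlgebra N] {τ : N →ₗ[ℂ] ℂ}

private theorem Rr_norm_one_le : ‖(1 : N)‖ ≤ 1 := by
  have h := CStarRing.norm_star_mul_self (x := (1 : N))
  rw [star_one, one_mul] at h
  by_contra hc
  rw [not_le] at hc
  nlinarith

private theorem Rr_unit_norm {u : N} (hu : u ∈ unitary N) : ‖u‖ ≤ 1 := by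
  have h := CStarRing.norm_star_mul_self (x := u)
  rw [Unitary.star_mul_self_of_mem hu] at h
  have h1 := Rr_norm_one_le (N := N)
  by_contra hc
  rw [not_le] at hc
  nlinarith

private theorem Rr_haar {u : N} (hu : IsHaar τ u) {ε : ℝ} (hε : 0 < ε) (K : ℕ) :
    ‖u‖ ≤ 1 ∧ norm2 τ (star u * u - 1) ≤ ε ∧ ∀ k ≤ K, k ≠ 0 → ‖τ (u ^ k)‖ ≤ ε := by
  refine ⟨Rr_unit_norm hu.mem, ?_, fun k _ hk => ?_⟩
  · rw [Unitary.star_mul_self_of_mem hu.mem, sub_self, norm2_zero]
    exact hε.le
  · rw [hu.pow k hk, norm_zero]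
    exact hε.le

private theorem Rr_comm_close (hτ : TracialVN τ) {a b a' b' : N} {δ : ℝ} (hb : ‖b‖ ≤ 1)
    (ha' : ‖a'‖ ≤ 1) (ha : ‖a‖ ≤ 1) (hb' : ‖b'‖ ≤ 1) (h1 : norm2 τ (a' - a) ≤ δ)
    (h2 : norm2 τ (b' - b) ≤ δ) :
    norm2 τ (a * b - b * a) ≤ norm2 τ (a' * b' - b' * a') + 4 * δ := by
  have h1' : norm2 τ (a - a') ≤ δ := by rw [norm2_sub_comm]; exact h1
  have h2' : norm2 τ (b - b') ≤ δ := by rw [norm2_sub_comm]; exact h2
  have e : a * b - b * a = (a' * b' - b' * a') + ((((a - a') * b + a' * (b - b')) -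
      (b' * (a - a'))) - ((b - b') * a)) := by noncomm_ring
  have n0 : ∀ x : N, 0 ≤ norm2 τ x := fun x => norm2_nonneg x
  have m1 : norm2 τ ((a - a') * b) ≤ δ := by
    refine (norm2_mul_right hτ _ _).trans ?_
    nlinarith [n0 (a - a'), norm_nonneg b]
  have m2 : norm2 τ (a' * (b - b')) ≤ δ := by
    refine (norm2_mul_left hτ _ _).trans ?_
    nlinarith [n0 (b - b'), norm_nonneg a']
  have m3 : norm2 τ (b' * (a - a')) ≤ δ := by
    refine (norm2_mul_left hτ _ _).trans ?_
    nlinarith [n0 (a - a'), norm_nonneg b']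
  have m4 : norm2 τ ((b - b') * a) ≤ δ := by
    refine (norm2_mul_right hτ _ _).trans ?_
    nlinarith [n0 (b - b'), norm_nonneg a]
  rw [e]
  refine (norm2_add_le hτ _ _).trans ?_
  have k1 := norm2_sub_le hτ (((a - a') * b + a' * (b - b')) - (b' * (a - a'))) ((b - b') * a)
  have k2 := norm2_sub_le hτ ((a - a') * b + a' * (b - b')) (b' * (a - a'))
  have k3 := norm2_add_le hτ ((a - a') * b) (a' * (b - b'))
  linarith

theorem rr_symm (hτ : TracialVN τ) {n : ℕ} {u v : N} (h : RR τ n u v) : RR τ n v u := by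
  intro ε hε K
  obtain ⟨w, h0, h1, h2, h3⟩ := h ε hε K
  refine ⟨fun j => w (n + 1 - j), by simpa using h1, by simpa using h0, fun j hj hj' => ?_,
    fun j hj => ?_⟩
  · exact h2 (n + 1 - j) (by omega) (by omega)
  · have e1 : n + 1 - j = (n - j) + 1 := by omega
    have e2 : n + 1 - (j + 1) = n - j := by omega
    have := h3 (n - j) (by omega)
    simp only [e1, e2]
    rw [norm2_sub_comm]
    exact this

/-- `v` becomes a member of the chain -/
theorem rr_trans (hτ : TracialVN τ) {n m : ℕ} {u v t : N} (hv : IsHaar τ v)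
    (h : RR τ n u v) (h' : RR τ m v t) : RR τ (n + m + 1) u t := by
  intro ε hε K
  obtain ⟨w, h0, h1, h2, h3⟩ := h ε hε K
  obtain ⟨w', h0', h1', h2', h3'⟩ := h' ε hε K
  refine ⟨fun j => if j ≤ n then w j else w' (j - (n + 1)), ?_, ?_, fun j hj hj' => ?_,
    fun j hj => ?_⟩
  · simp [h0]
  · have : ¬ (n + m + 1 + 1 ≤ n) := by omega
    simp only [this, if_false]
    rw [show n + m + 1 + 1 - (n + 1) = m + 1 by omega]
    exact h1'
  · by_cases hjn : j ≤ n
    · simp only [hjn, if_true]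
      exact h2 j hj hjn
    · simp only [hjn, if_false]
      rcases Nat.eq_or_lt_of_le (Nat.lt_of_not_le hjn) with h | h
      · rw [← h, Nat.succ_eq_add_one, Nat.sub_self, h0']
        exact Rr_haar hv hε K
      · exact h2' (j - (n + 1)) (by omega) (by omega)
  · rcases lt_trichotomy j n with hjn | hjn | hjn
    · have a1 : j ≤ n := hjn.le
      have a2 : j + 1 ≤ n := hjn
      simp only [a1, a2, if_true]
      exact h3 j a1
    · subst hjn
      have a2 : ¬ (j + 1 ≤ j) := by omega
      simp only [le_refl, a2, if_true, if_false, Nat.sub_self]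
      rw [h0', ← h1]
      exact h3 j le_rfl
    · have a1 : ¬ (j ≤ n) := by omega
      have a2 : ¬ (j + 1 ≤ n) := by omega
      simp only [a1, a2, if_false]
      have := h3' (j - (n + 1)) (by omega)
      rwa [show j - (n + 1) + 1 = j + 1 - (n + 1) by omega] at this

theorem rr_refl (hτ : TracialVN τ) (u : N) : RR τ 0 u u := by
  intro ε hε K
  refine ⟨fun _ => u, rfl, rfl, fun j h1 h2 => by omega, fun j _ => ?_⟩
  simp only [sub_self]
  rw [norm2_zero]
  exact hε.le

/-- longer chains: repeat `u` -/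
theorem rr_mono (hτ : TracialVN τ) {n m : ℕ} {u v : N} (hu : IsHaar τ u) (hnm : n ≤ m)
    (h : RR τ n u v) : RR τ m u v := by
  induction m, hnm using Nat.le_induction with
  | base => exact h
  | succ m _ ih =>
    have := rr_trans hτ hu (rr_refl hτ u) ih
    rwa [Nat.zero_add] at this

theorem rr_conj (hτ : TracialVN τ) {n : ℕ} {u v g : N} (hg : g ∈ unitary N)
    (h : RR τ n u v) : RR τ n (g * u * star g) (g * v * star g) := by
  intro ε hε K
  obtain ⟨w, h0, h1, h2, h3⟩ := h ε hε K
  have gg : star g * g = 1 := Unitary.star_mul_self_of_mem hg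
  have gg' : g * star g = 1 := Unitary.mul_star_self_of_mem hg
  have hmul : ∀ x y : N, (g * x * star g) * (g * y * star g) = g * (x * y) * star g := by
    intro x y
    calc (g * x * star g) * (g * y * star g) = g * x * (star g * g) * y * star g := by
          noncomm_ring
      _ = g * (x * y) * star g := by rw [gg]; noncomm_ring
  have hpow : ∀ (x : N) (k : ℕ), (g * x * star g) ^ k = g * x ^ k * star g := by
    intro x k
    induction k with
    | zero => simp [gg']
    | succ k ih => rw [pow_succ, ih, hmul, ← pow_succ]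
  refine ⟨fun j => g * w j * star g, by simp [h0], by simp [h1], fun j hj hj' => ?_,
    fun j hj => ?_⟩
  · obtain ⟨a1, a2, a3⟩ := h2 j hj hj'
    refine ⟨?_, ?_, fun k hk hk' => ?_⟩
    · have n1 := Rr_unit_norm hg
      have n2 : ‖star g‖ ≤ 1 := by rw [norm_star]; exact n1
      calc ‖g * w j * star g‖ ≤ ‖g * w j‖ * ‖star g‖ := norm_mul_le _ _
        _ ≤ (‖g‖ * ‖w j‖) * ‖star g‖ :=
            mul_le_mul_of_nonneg_right (norm_mul_le _ _) (norm_nonneg _)
        _ ≤ (1 * 1) * 1 := by gcongr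
        _ = 1 := by norm_num
    · have e : star (g * w j * star g) * (g * w j * star g) - 1 =
          g * (star (w j) * w j - 1) * star g := by
        have e1 : star (g * w j * star g) = g * star (w j) * star g := by
          simp [mul_assoc]
        rw [e1, hmul, mul_sub, sub_mul, mul_one, gg']
      rw [e, norm2_conj hτ hg]
      exact a2
    · rw [hpow, hτ.tr, ← mul_assoc, gg, one_mul]
      exact a3 k hk hk'
  · simp only [hmul]
    rw [← sub_mul, ← mul_sub, norm2_conj hτ hg]
    exact h3 j hj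

/-- The relation is closed (the members of the chains are contractions). -/
theorem rr_closed (hτ : TracialVN τ) {n : ℕ} {u v : N} (hu : ‖u‖ ≤ 1) (hv : ‖v‖ ≤ 1)
    (h : ∀ ε : ℝ, 0 < ε → ∃ u' v' : N, ‖u'‖ ≤ 1 ∧ ‖v'‖ ≤ 1 ∧ norm2 τ (u' - u) ≤ ε ∧
      norm2 τ (v' - v) ≤ ε ∧ RR τ n u' v') : RR τ n u v := by
  intro ε hε K
  have hδ : 0 < ε / 5 := by positivity
  obtain ⟨u', v', b1, b2, b3, b4, h'⟩ := h (ε / 5) hδ
  obtain ⟨w, h0, h1, h2, h3⟩ := h' (ε / 5) hδ K
  set w' : ℕ → N := fun j => if j = 0 then u else if j = n + 1 then v else w j with hw'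
  have key : ∀ j ≤ n + 1, ‖w' j‖ ≤ 1 ∧ ‖w j‖ ≤ 1 ∧ norm2 τ (w j - w' j) ≤ ε / 5 := by
    intro j hj
    rcases Nat.eq_zero_or_pos j with h | h
    · subst h
      simp only [hw', if_true]
      rw [h0]
      exact ⟨hu, b1, b3⟩
    · rcases Nat.eq_or_lt_of_le hj with h' | h'
      · subst h'
        simp only [hw', Nat.add_eq_zero_iff, one_ne_zero, and_false, if_false, if_true]
        rw [h1]
        exact ⟨hv, b2, b4⟩
      · have c1 : ¬ j = 0 := by omega
        have c2 : ¬ j = n + 1 := by omega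
        simp only [hw', c1, c2, if_false]
        have := (h2 j h (by omega)).1
        refine ⟨this, this, ?_⟩
        rw [sub_self, norm2_zero]
        exact hδ.le
  refine ⟨w', by simp [hw'], by simp [hw'], fun j hj hj' => ?_, fun j hj => ?_⟩
  · have c1 : ¬ j = 0 := by omega
    have c2 : ¬ j = n + 1 := by omega
    simp only [hw', c1, c2, if_false]
    obtain ⟨a1, a2, a3⟩ := h2 j hj hj'
    exact ⟨a1, a2.trans (by linarith), fun k hk hk' => (a3 k hk hk').trans (by linarith)⟩
  · obtain ⟨c1, c2, c3⟩ := key j (by omega)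
    obtain ⟨d1, d2, d3⟩ := key (j + 1) (by omega)
    have := Rr_comm_close hτ d1 c2 c1 d2 c3 d3
    have h3' := h3 j hj
    linarith

/-- commuting elements -/
theorem rr_of_comm (hτ : TracialVN τ) {u v : N} (h : u * v = v * u) : RR τ 0 u v := by
  intro ε hε K
  refine ⟨fun j => if j = 0 then u else v, by simp, by simp, fun j h1 h2 => by omega,
    fun j hj => ?_⟩
  have : j = 0 := by omega
  subst this
  simp only [if_true, Nat.zero_add, one_ne_zero, if_false]
  rw [h, sub_self, norm2_zero]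
  exact hε.le

/-- a chain `u, q, w, q', v` in which the middle element commutes only approximately with `q'` -/
theorem rr_three (hτ : TracialVN τ) {u v q q' : N} (hq : IsHaar τ q) (hq' : IsHaar τ q')
    (h1 : u * q = q * u) (h2 : q' * v = v * q')
    (h : ∀ ε : ℝ, 0 < ε → ∃ w : N, IsHaar τ w ∧ q * w = w * q ∧
      norm2 τ (w * q' - q' * w) ≤ ε) : RR τ 3 u v := by
  intro ε hε K
  obtain ⟨w, hw, hw1, hw2⟩ := h ε hε
  have z : norm2 τ (0 : N) ≤ ε := by rw [norm2_zero]; exact hε.le
  refine ⟨fun j => match j with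
    | 0 => u
    | 1 => q
    | 2 => w
    | 3 => q'
    | _ + 4 => v, rfl, rfl, fun j hj hj' => ?_, fun j hj => ?_⟩
  · interval_cases j
    · exact Rr_haar hq hε K
    · exact Rr_haar hw hε K
    · exact Rr_haar hq' hε K
  · interval_cases j
    · show norm2 τ (u * q - q * u) ≤ ε
      rw [h1, sub_self]; exact z
    · show norm2 τ (q * w - w * q) ≤ ε
      rw [hw1, sub_self]; exact z
    · exact hw2
    · show norm2 τ (q' * v - v * q') ≤ ε
      rw [h2, sub_self]; exact z

end Pool.Agent.Lib.MP_5d1ef1_an_SC
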