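import Pool.Agent.Lib.MP_5d1ef1_an_SC.SpB
import Pool.Agent.Lib.MP_5d1ef1_an_SC.SpC

set_option autoImplicit false

/-!
# MP_5d1ef1_an, project SC: approximation by step elements
-/

namespace Pool.Agent.Lib.MP_5d1ef1_an_SC

open Filter Topology

universe u v w

variable {N : Type u} [CStarAlgebra N] {τ : N →ₗ[ℂ] ℂ}

private noncomputable def Sa_f (s δ : ℝ) (z : ℂ) : ℂ := ((max 0 (min (z.re - s) δ) : ℝ) : ℂ)

private noncomputable def Sa_g (s δ : ℝ) (z : ℂ) : ℂ := ((max 0 (z.re - s - δ) : ℝ) : ℂ)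

private noncomputable def Sa_h (s : ℝ) (z : ℂ) : ℂ := ((min 0 (z.re - s) : ℝ) : ℂ)

private theorem Sa_f_cont (s δ : ℝ) : Continuous (Sa_f s δ) := by
  unfold Sa_f
  exact Complex.continuous_ofReal.comp (continuous_const.max
    ((Complex.continuous_re.sub continuous_const).min continuous_const))

private theorem Sa_g_cont (s δ : ℝ) : Continuous (Sa_g s δ) := by
  unfold Sa_g
  exact Complex.continuous_ofReal.comp (continuous_const.max
    ((Complex.continuous_re.sub continuous_const).sub continuous_const))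

private theorem Sa_h_cont (s : ℝ) : Continuous (Sa_h s) := by
  unfold Sa_h
  exact Complex.continuous_ofReal.comp (continuous_const.min
    (Complex.continuous_re.sub continuous_const))

private theorem Sa_sum {δ : ℝ} (hδ : 0 < δ) (s : ℝ) {z : ℂ} (hz : z = (z.re : ℂ)) :
    z - (s : ℂ) = Sa_f s δ z + Sa_g s δ z + Sa_h s z := by
  unfold Sa_f Sa_g Sa_h
  have h1 : z.re - s = max 0 (min (z.re - s) δ) + max 0 (z.re - s - δ) + min 0 (z.re - s) := by
    rcases le_total (z.re - s) 0 with h | h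
    · rw [min_eq_left (h.trans hδ.le), max_eq_left h, max_eq_left (by linarith), min_eq_right h]
      ring
    · rcases le_total (z.re - s) δ with h' | h'
      · rw [min_eq_left h', max_eq_right h, max_eq_left (by linarith), min_eq_left h]
        ring
      · rw [min_eq_right h', max_eq_right hδ.le, max_eq_right (by linarith), min_eq_left h]
        ring
  have h2 : z - (s : ℂ) = ((z.re - s : ℝ) : ℂ) := by
    rw [Complex.ofReal_sub, ← hz]
  rw [h2, ← Complex.ofReal_add, ← Complex.ofReal_add, ← h1]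

private theorem Sa_dec {a : N} (ha : star a = a) {δ : ℝ} (hδ : 0 < δ) (s : ℝ) :
    a - (s : ℂ) • (1 : N) = cfc (Sa_f s δ) a + cfc (Sa_g s δ) a + cfc (Sa_h s) a := by
  have hsa : IsSelfAdjoint a := ha
  have hn : IsStarNormal a := hsa.isStarNormal
  have h1 : cfc (fun z : ℂ => z - (s : ℂ)) a = a - (s : ℂ) • (1 : N) := by
    rw [cfc_sub (fun z : ℂ => z) (fun _ => (s : ℂ)) a continuousOn_id continuousOn_const]
    have h2 : cfc (fun z : ℂ => z) a = a := cfc_id ℂ a
    rw [h2, cfc_const (s : ℂ) a, Algebra.algebraMap_eq_smul_one]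
  rw [← h1, ← cfc_add a (Sa_f s δ) (Sa_g s δ) (Sa_f_cont s δ).continuousOn
    (Sa_g_cont s δ).continuousOn, ← cfc_add a (fun z => Sa_f s δ z + Sa_g s δ z) (Sa_h s)
    ((Sa_f_cont s δ).add (Sa_g_cont s δ)).continuousOn (Sa_h_cont s).continuousOn]
  exact cfc_congr fun z hz => Sa_sum hδ s (hsa.mem_spectrum_eq_re hz)

private def Sa_O (s : ℝ) : Set ℂ := {z : ℂ | s < z.re}

private theorem Sa_O_open (s : ℝ) : IsOpen (Sa_O s) :=
  isOpen_lt continuous_const Complex.continuous_re

private theorem Sa_O_compl (s : ℝ) : (Sa_O s)ᶜ.Nonempty := by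
  refine ⟨((s : ℝ) : ℂ), ?_⟩
  intro h
  have h1 : s < ((s : ℝ) : ℂ).re := h
  rw [Complex.ofReal_re] at h1
  exact lt_irrefl _ h1

private theorem Sa_c {a P : N} (h : a * P = P * a) (t : ℂ) :
    P * (a - t • (1 : N)) = (a - t • (1 : N)) * P := by
  rw [mul_sub, sub_mul, h, mul_smul_comm, smul_mul_assoc, mul_one, one_mul]

/-- the estimate for one interval -/
private theorem Sa_one (hτ : TracialVN τ) {a p q : N} (ha : star a = a) {δ : ℝ} (hδ : 0 < δ)
    (s : ℝ) (hp : SP τ a (Sa_O s) p) (hq : SP τ a (Sa_O (s + δ)) q) :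
    norm2 τ ((a - (s : ℂ) • (1 : N)) * (p - q)) ≤ δ * norm2 τ (p - q) := by
  have hsa : IsSelfAdjoint a := ha
  have hn : IsStarNormal a := hsa.isStarNormal
  obtain ⟨hqp, hpq⟩ := sp_le hτ hn (O := Sa_O (s + δ)) (O' := Sa_O s) (fun z hz => by
    have h1 : s + δ < z.re := hz
    have h2 : s < z.re := by linarith
    exact h2) (Sa_O_compl s) hq hp
  have hg : cfc (Sa_g s δ) a * (p - q) = 0 := by
    have h1 := sp_keep hτ hn (Sa_O_open _) (Sa_O_compl _) hq (Sa_g_cont s δ) (fun z _ hz => by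
      have h2 : ¬ (s + δ < z.re) := hz
      unfold Sa_g
      rw [max_eq_left (by linarith [not_lt.1 h2]), Complex.ofReal_zero])
    have h3 : cfc (Sa_g s δ) a * (p - q) =
        (cfc (Sa_g s δ) a - cfc (Sa_g s δ) a * q) * p := by
      rw [sub_mul, mul_assoc _ q p, hqp, mul_sub]
    rw [h3, h1, sub_self, zero_mul]
  have hh : cfc (Sa_h s) a * (p - q) = 0 := by
    have h1 := sp_kill hτ hp (Sa_h_cont s) (fun z _ hz => by
      have h2 : s < z.re := hz
      unfold Sa_h
      rw [min_eq_left (by linarith), Complex.ofReal_zero])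
    have h3 : cfc (Sa_h s) a * (p - q) =
        (cfc (Sa_h s) a * p) * (1 - q) := by
      rw [mul_assoc, mul_sub p 1 q, mul_one, hpq]
    rw [h3, h1, zero_mul]
  rw [Sa_dec ha hδ s, add_mul, add_mul, hg, hh, add_zero, add_zero]
  refine (norm2_mul_left hτ _ _).trans (mul_le_mul_of_nonneg_right ?_ (norm2_nonneg _))
  refine norm_cfc_le hδ.le fun z _ => ?_
  unfold Sa_f
  rw [Complex.norm_real, Real.norm_eq_abs, abs_of_nonneg (le_max_left _ _)]
  exact max_le hδ.le (min_le_right _ _)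

/-- Step approximation of a selfadjoint `a`.  Let `‖a‖ < R`, mesh `δ ≤ ε`, `s i = - R + i δ`,
`p i` the spectral projection of `{z | s i < z.re}`; `p 0 = 1`, `p m = 0` (`sp_one`, `sp_zero`), and
`e i = p i - p (i + 1) = p i * (1 - p (i + 1))` (`sp_le`).  Write `z.re - s i = f z + g z + g' z`,
`f z = max 0 (min (z.re - s i) δ)`, `g z = max 0 (z.re - s i - δ)` (zero off `O (i + 1)`, so
`cfc g a * (1 - p (i + 1)) = 0`, `sp_keep`), `g' z = min 0 (z.re - s i)` (zero on `O i`, so
`cfc g' a * p i = 0`, `sp_kill`).  Hence `(a - s i) * e i = cfc f a * e i` has 2-norm at most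
`δ norm2 (e i)`; the elements `(a - s i) * e i` are orthogonal (`norm2_sum_orth`) and
`∑ norm2 (e i) ^ 2 = τ 1 = 1`. -/
theorem step_approx (hτ : TracialVN τ) {a : N} (ha : star a = a) {ε : ℝ} (hε : 0 < ε) :
    ∃ (m : ℕ) (e : Fin m → N) (s : Fin m → ℝ), (∀ i, Pr (e i)) ∧
      (∀ i j, i ≠ j → e i * e j = 0) ∧ ∑ i, e i = 1 ∧
      (∀ b, b * a = a * b → ∀ i, b * e i = e i * b) ∧
      norm2 τ (a - ∑ i, (s i : ℂ) • e i) ≤ ε := by
  have hsa : IsSelfAdjoint a := ha
  have hn : IsStarNormal a := hsa.isStarNormal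
  have hnt : Nontrivial N := by
    refine ⟨1, 0, fun h => ?_⟩
    have h1 := hτ.one
    rw [h, map_zero] at h1
    exact zero_ne_one h1
  obtain ⟨R, hR, hspec⟩ : ∃ R : ℝ, 0 < R ∧ ∀ z ∈ spectrum ℂ a, -R < z.re ∧ z.re < R := by
    refine ⟨‖a‖ + 1, by positivity, fun z hz => ?_⟩
    have h1 : |z.re| ≤ ‖a‖ := (Complex.abs_re_le_norm z).trans (spectrum.norm_le_norm_of_mem hz)
    have h2 := abs_le.1 h1
    constructor
    · linarith
    · linarith
  obtain ⟨m, hm⟩ := exists_nat_gt (2 * R / ε)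
  have hm0 : (0 : ℝ) < m := lt_trans (div_pos (by linarith) hε) hm
  obtain ⟨δ, hδ, hδε, hδm⟩ : ∃ δ : ℝ, 0 < δ ∧ δ ≤ ε ∧ m * δ = 2 * R := by
    refine ⟨2 * R / m, div_pos (by linarith) hm0, ?_, by field_simp⟩
    rw [div_le_iff₀ hm0]
    rw [div_lt_iff₀ hε] at hm
    linarith
  let s : ℕ → ℝ := fun i => -R + i * δ
  have hs : ∀ i, s (i + 1) = s i + δ := by
    intro i
    simp only [s]
    push_cast
    ring
  choose p hp using fun i => exists_sp hτ hn (Sa_O (s i))
  have hle : ∀ i j, i ≤ j → p j * p i = p j ∧ p i * p j = p j := by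
    intro i j hij
    refine sp_le hτ hn (O := Sa_O (s j)) (O' := Sa_O (s i)) (fun z hz => ?_)
      (Sa_O_compl _) (hp j) (hp i)
    have h1 : s j < z.re := hz
    have h2 : s i ≤ s j := by
      simp only [s]
      have h3 : (i : ℝ) ≤ j := Nat.cast_le.2 hij
      have h4 : (i : ℝ) * δ ≤ j * δ := mul_le_mul_of_nonneg_right h3 hδ.le
      linarith
    exact lt_of_le_of_lt h2 h1
  have hp0 : p 0 = 1 := by
    refine sp_one hτ hn (Sa_O_open _) (Sa_O_compl _) (hp 0) (fun z hz => ?_)
    have h1 := (hspec z hz).1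
    change s 0 < z.re
    simp only [s, Nat.cast_zero, zero_mul, add_zero]
    exact h1
  have hpm : p m = 0 := by
    refine sp_zero hτ hn (hp m) (fun z hz hzO => ?_)
    have h1 := (hspec z hz).2
    have h2 : s m < z.re := hzO
    simp only [s, hδm] at h2
    linarith
  have hsum : ∑ i : Fin m, (p i - p (i + 1)) = 1 := by
    rw [Fin.sum_univ_eq_sum_range (fun i => p i - p (i + 1)) m, Finset.sum_range_sub', hp0, hpm,
      sub_zero]
  have hcomm : ∀ b, b * a = a * b → ∀ i, b * (p i - p (i + 1)) = (p i - p (i + 1)) * b := by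
    intro b hb i
    have h1 := (hp i).comm b hb (by rw [ha]; exact hb)
    have h2 := (hp (i + 1)).comm b hb (by rw [ha]; exact hb)
    rw [mul_sub, sub_mul, h1, h2]
  have hpr : ∀ i, Pr (p i - p (i + 1)) := fun i =>
    pr_sub (hp i).pr (hp (i + 1)).pr (hle i (i + 1) (Nat.le_succ i)).1
  have horth : ∀ i j : ℕ, i ≠ j → (p i - p (i + 1)) * (p j - p (j + 1)) = 0 := by
    intro i j hij
    rcases lt_or_gt_of_ne hij with h | h
    · rw [sub_mul, mul_sub, mul_sub, (hle i j h.le).2, (hle i (j + 1) (by omega)).2,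
        (hle (i + 1) j h).2, (hle (i + 1) (j + 1) (by omega)).2, sub_self]
    · rw [sub_mul, mul_sub, mul_sub, (hle j i h.le).1, (hle (j + 1) i h).1,
        (hle j (i + 1) (by omega)).1, (hle (j + 1) (i + 1) (by omega)).1]
      simp
  refine ⟨m, fun i => p i - p (i + 1), fun i => s i, fun i => hpr i,
    fun i j hij => horth i j (fun h => hij (Fin.ext h)), hsum, fun b hb i => hcomm b hb i, ?_⟩
  have h1 : a - ∑ i : Fin m, (s i : ℂ) • (p i - p (i + 1)) =
      ∑ i : Fin m, (a - (s i : ℂ) • (1 : N)) * (p i - p (i + 1)) := by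
    have h2 : a = ∑ i : Fin m, a * (p i - p (i + 1)) := by
      rw [← Finset.mul_sum, hsum, mul_one]
    conv_lhs => rw [h2]
    rw [← Finset.sum_sub_distrib]
    refine Finset.sum_congr rfl fun i _ => ?_
    rw [sub_mul, smul_mul_assoc, one_mul]
  have h3 : norm2 τ (∑ i : Fin m, (a - (s i : ℂ) • (1 : N)) * (p i - p (i + 1))) ^ 2 ≤
      δ ^ 2 := by
    rw [norm2_sum_orth hτ]
    · have h4 : ∀ i : Fin m, norm2 τ ((a - (s i : ℂ) • (1 : N)) * (p i - p (i + 1))) ^ 2 ≤
          δ ^ 2 * (τ (p i - p (i + 1))).re := by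
        intro i
        have h5 := Sa_one hτ ha hδ (s i) (hp i) (by
          rw [← hs i]
          exact hp (i + 1))
        have h6 := pow_le_pow_left₀ (norm2_nonneg _) h5 2
        rw [mul_pow] at h6
        have h7 := congrArg Complex.re (pr_tr hτ (hpr i))
        rw [Complex.ofReal_re] at h7
        rw [h7]
        exact h6
      refine (Finset.sum_le_sum fun i _ => h4 i).trans ?_
      rw [← Finset.mul_sum, ← Complex.re_sum, ← map_sum, hsum, hτ.one, Complex.one_re, mul_one]
    · intro i _ j _ hij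
      have h4 : star ((a - (s i : ℂ) • (1 : N)) * (p i - p (i + 1))) =
          (p i - p (i + 1)) * (a - (s i : ℂ) • (1 : N)) := by
        rw [star_mul, (hpr i).sa, star_sub, star_smul, star_one, ha]
        congr 3
        exact Complex.conj_ofReal _
      have h5 : ∀ t : ℝ, ∀ i : ℕ, (p i - p (i + 1)) * (a - (t : ℂ) • (1 : N)) =
          (a - (t : ℂ) • (1 : N)) * (p i - p (i + 1)) := by
        intro t i
        exact Sa_c (hcomm a rfl i) t
      rw [h4, ← h5 (s j) j]
      calc (p i - p (i + 1)) * (a - (s i : ℂ) • (1 : N)) *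
          ((p j - p (j + 1)) * (a - (s j : ℂ) • (1 : N))) =
          (a - (s i : ℂ) • (1 : N)) * ((p i - p (i + 1)) * (p j - p (j + 1))) *
            (a - (s j : ℂ) • (1 : N)) := by
            rw [h5 (s i) i]
            simp only [mul_assoc]
        _ = 0 := by
            rw [horth i j (fun h => hij (Fin.ext h)), mul_zero, zero_mul]
  rw [h1]
  exact (abs_le_of_sq_le_sq' h3 hδ.le).2.trans hδε

end Pool.Agent.Lib.MP_5d1ef1_an_SC
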