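import Pool.Agent.Lib.MP_5d1ef1_an_SC.Cf

set_option autoImplicit false

/-!
# MP_5d1ef1_an, project SC: spectral projections: existence
-/

namespace Pool.Agent.Lib.MP_5d1ef1_an_SC

open Filter Topology

universe u v w

variable {N : Type u} [CStarAlgebra N] {τ : N →ₗ[ℂ] ℂ}

private theorem SpA_c {r : ℂ → ℝ} (hr : Continuous r) : Continuous fun z => (r z : ℂ) :=
  Complex.continuous_ofReal.comp hr

private theorem SpA_sq (hτ : TracialVN τ) {a : N} (ha : IsStarNormal a) {r : ℂ → ℝ}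
    (hr : Continuous r) (h0 : ∀ z, 0 ≤ r z) (h1 : ∀ z, r z ≤ 1) :
    norm2 τ (cfc (fun z => (r z : ℂ)) a) ^ 2 ≤ (τ (cfc (fun z => (r z : ℂ)) a)).re := by
  rw [norm2_cfc_sq hτ ha (SpA_c hr).continuousOn]
  refine tr_cfc_mono hτ ha ?_ hr.continuousOn fun z _ => ?_
  · exact ((SpA_c hr).norm.pow 2).continuousOn
  · rw [Complex.norm_real, Real.norm_eq_abs, sq_abs]
    nlinarith [h0 z, h1 z]

private theorem SpA_sub (a : N) {r s : ℂ → ℝ} (hr : Continuous r) (hs : Continuous s) :
    cfc (fun z => (r z : ℂ)) a - cfc (fun z => (s z : ℂ)) a =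
      cfc (fun z => ((r z - s z : ℝ) : ℂ)) a := by
  rw [← cfc_sub (fun z => (r z : ℂ)) (fun z => (s z : ℂ)) a (SpA_c hr).continuousOn
    (SpA_c hs).continuousOn]
  refine cfc_congr fun z _ => ?_
  push_cast
  rfl

private theorem SpA_mul (a : N) {r s : ℂ → ℝ} (hr : Continuous r) (hs : Continuous s) :
    cfc (fun z => (r z : ℂ)) a * cfc (fun z => (s z : ℂ)) a =
      cfc (fun z => ((r z * s z : ℝ) : ℂ)) a := by
  rw [← cfc_mul (fun z => (r z : ℂ)) (fun z => (s z : ℂ)) a (SpA_c hr).continuousOn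
    (SpA_c hs).continuousOn]
  refine cfc_congr fun z _ => ?_
  push_cast
  rfl

private theorem SpA_addc (hτ : TracialVN τ) {a : N} (ha : IsStarNormal a) {r : ℂ → ℝ}
    (hr : Continuous r) (η : ℝ) :
    (τ (cfc (fun z => ((r z + η : ℝ) : ℂ)) a)).re = (τ (cfc (fun z => (r z : ℂ)) a)).re + η := by
  have h1 : cfc (fun z => ((r z + η : ℝ) : ℂ)) a =
      cfc (fun z => (r z : ℂ)) a + (η : ℂ) • (1 : N) := by
    have h2 : cfc (fun _ : ℂ => (η : ℂ)) a = (η : ℂ) • (1 : N) := by
      rw [cfc_const (η : ℂ) a ha, Algebra.algebraMap_eq_smul_one]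
    rw [← h2, ← cfc_add a (fun z => (r z : ℂ)) (fun _ => (η : ℂ)) (SpA_c hr).continuousOn
      continuousOn_const]
    refine cfc_congr fun z _ => ?_
    push_cast
    rfl
  rw [h1, map_add, map_smul, hτ.one, Complex.add_re, smul_eq_mul, mul_one, Complex.ofReal_re]

/-- Existence of spectral projections.  Let `x n = cfc (cut O n) a`, `b n = (τ (x n)).re`.  For
`n ≤ m` the function `cut O m - cut O n` is between 0 and 1, so
`norm2 (x m - x n) ^ 2 ≤ b m - b n` (`norm2_cfc_sq`, `tr_cfc_mono`), and `b n ≤ 1`: `lim2_mono`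
gives a limit `p`.  `p` is selfadjoint (`lim2_star`).  `x n * x n → p * p` (`lim2_mul`), and by
`cut_prop`, `τ (x m - x m * x m) ≤ b l - b m + η ≤ s - b m + η` for all `η`, `s = lim b`; so
`norm2 (x m - x m * x m) ^ 2 ≤ (τ (x m - x m * x m)).re → 0` (the function `c (1 - c)` is between
0 and 1), hence `p * p = p`.  Commutation: `b` commutes with `cfc f a` for all `f` continuous
(`Commute.cfc` or the like), then `lim2_comm`.  Estimate: `cfc f a * x n = cfc (f * cut O n) a` has
`norm2 ^ 2 = τ (cfc (‖f‖^2 cut^2) a) ≤ c ^ 2 b n`, then the limit. -/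
theorem exists_sp (hτ : TracialVN τ) {a : N} (ha : IsStarNormal a) (O : Set ℂ) :
    ∃ p : N, SP τ a O p := by
  obtain ⟨x, hx⟩ : ∃ x : ℕ → N, x = fun n => cfc (fun z => (cut O n z : ℂ)) a := ⟨_, rfl⟩
  have hx' : ∀ n, x n = cfc (fun z => (cut O n z : ℂ)) a := fun n => by rw [hx]
  have hc : ∀ n, Continuous (cut O n) := fun n => (cut_facts O n).1
  have h0 : ∀ n z, 0 ≤ cut O n z := fun n => (cut_facts O n).2.1
  have h1 : ∀ n z, cut O n z ≤ 1 := fun n => (cut_facts O n).2.2.1
  have hO : ∀ n, ∀ z ∉ O, cut O n z = 0 := fun n => (cut_facts O n).2.2.2.2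
  obtain ⟨b, hb⟩ : ∃ b : ℕ → ℝ, b = fun n => (τ (x n)).re := ⟨_, rfl⟩
  have hb' : ∀ n, b n = (τ (x n)).re := fun n => by rw [hb]
  have hxn : ∀ n, ‖x n‖ ≤ 1 := by
    intro n
    rw [hx' n]
    refine norm_cfc_le zero_le_one fun z _ => ?_
    rw [Complex.norm_real, Real.norm_eq_abs, abs_of_nonneg (h0 n z)]
    exact h1 n z
  have hbm : ∀ n m, n ≤ m → norm2 τ (x m - x n) ^ 2 ≤ b m - b n := by
    intro n m hnm
    have h2 : x m - x n = cfc (fun z => ((cut O m z - cut O n z : ℝ) : ℂ)) a := by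
      rw [hx', hx', SpA_sub a (hc m) (hc n)]
    have h3 : b m - b n = (τ (x m - x n)).re := by
      rw [hb', hb', map_sub, Complex.sub_re]
    rw [h3, h2]
    refine SpA_sq hτ ha ((hc m).sub (hc n)) (fun z => ?_) fun z => ?_
    · linarith [cut_mono O hnm z]
    · linarith [h0 n z, h1 m z]
  have hmono : Monotone b := fun n m hnm => by
    have := hbm n m hnm
    nlinarith [sq_nonneg (norm2 τ (x m - x n))]
  obtain ⟨p, hp⟩ := lim2_mono hτ (x := x) ⟨1, hxn⟩ b ⟨1, fun n => by
    rw [hb']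
    exact (Complex.re_le_norm _).trans
      ((norm_tr_le hτ _).trans ((norm2_le_norm hτ _).trans (hxn n)))⟩ hbm
  have hbt : Tendsto b atTop (𝓝 (τ p).re) := by
    rw [hb]
    exact (Complex.continuous_re.tendsto _).comp (lim2_tr hτ hp)
  have hbs : ∀ n, b n ≤ (τ p).re := fun n => hmono.ge_of_tendsto hbt n
  -- `p` is selfadjoint
  have hsa : star p = p := by
    have h2 : Lim2 τ (fun n => star (x n)) (star p) := lim2_star hτ hp
    have h3 : (fun n => star (x n)) = x := by
      funext n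
      rw [hx', ← cfc_star]
      refine cfc_congr fun z _ => ?_
      exact Complex.conj_ofReal _
    rw [h3] at h2
    exact lim2_unique hτ h2 hp
  -- `p` is idempotent
  have hid : p * p = p := by
    have h2 : Lim2 τ (fun n => x n - x n * x n) (p - p * p) :=
      lim2_sub hτ hp (lim2_mul hτ hp hp ⟨1, hxn⟩)
    have h3 : ∀ m, norm2 τ (x m - x m * x m) ^ 2 ≤ (τ p).re - b m := by
      intro m
      refine le_of_forall_pos_le_add fun η hη => ?_
      obtain ⟨l, hl, h4⟩ := cut_prop O m hη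
      have hcc : Continuous fun z => cut O m z * (1 - cut O m z) :=
        (hc m).mul (continuous_const.sub (hc m))
      have h5 : x m - x m * x m =
          cfc (fun z => ((cut O m z * (1 - cut O m z) : ℝ) : ℂ)) a := by
        rw [hx', SpA_mul a (hc m) (hc m),
          SpA_sub a (s := fun z => cut O m z * cut O m z) (hc m) ((hc m).mul (hc m))]
        refine cfc_congr fun z _ => ?_
        change ((cut O m z - cut O m z * cut O m z : ℝ) : ℂ) = _
        congr 1
        ring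
      have h6 : norm2 τ (x m - x m * x m) ^ 2 ≤
          (τ (cfc (fun z => ((cut O m z * (1 - cut O m z) : ℝ) : ℂ)) a)).re := by
        rw [h5]
        refine SpA_sq hτ ha hcc (fun z => ?_) fun z => ?_
        · exact mul_nonneg (h0 m z) (by linarith [h1 m z])
        · nlinarith [h0 m z, h1 m z]
      have h7 : (τ (cfc (fun z => ((cut O m z * (1 - cut O m z) : ℝ) : ℂ)) a)).re ≤
          (τ (cfc (fun z => (((cut O l z - cut O m z) + η : ℝ) : ℂ)) a)).re :=
        tr_cfc_mono hτ ha hcc.continuousOn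
          (((hc l).sub (hc m)).add continuous_const).continuousOn fun z _ => h4 z
      rw [SpA_addc hτ ha (r := fun z => cut O l z - cut O m z) ((hc l).sub (hc m)) η,
        ← SpA_sub a (hc l) (hc m), map_sub,
        Complex.sub_re, ← hx', ← hx', ← hb', ← hb'] at h7
      linarith [hbs l]
    have h4 : Tendsto (fun n => norm2 τ (x n - x n * x n) ^ 2) atTop
        (𝓝 (norm2 τ (p - p * p) ^ 2)) := (lim2_norm2 hτ h2).pow 2
    have h5 : Tendsto (fun n => (τ p).re - b n) atTop (𝓝 ((τ p).re - (τ p).re)) :=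
      tendsto_const_nhds.sub hbt
    have h6 : norm2 τ (p - p * p) ^ 2 ≤ (τ p).re - (τ p).re := le_of_tendsto_of_tendsto' h4 h5 h3
    have h7 : norm2 τ (p - p * p) = 0 := by
      have : norm2 τ (p - p * p) ^ 2 = 0 := le_antisymm (by linarith) (sq_nonneg _)
      exact pow_eq_zero_iff (two_ne_zero) |>.1 this
    exact (sub_eq_zero.1 (eq_zero_of_norm2 hτ h7)).symm
  refine ⟨p, ⟨hsa, hid⟩, ?_, ?_, ?_, ?_⟩
  · rw [hx] at hp
    exact hp
  · intro y hy hy'
    refine (lim2_comm hτ hp fun n => ?_).symm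
    rw [hx']
    have h2 : Commute a y := hy.symm
    have h3 : Commute (star a) y := hy'.symm
    exact (h2.cfc h3 _).eq
  · intro f _
    refine (lim2_comm hτ hp fun n => ?_).symm
    rw [hx']
    exact (cfc_commute_cfc _ _ a).eq
  · intro f c hf hc0 hfc
    have h2 : Lim2 τ (fun n => cfc f a * x n) (cfc f a * p) := lim2_mul_left hτ _ hp
    have h3 : ∀ n, norm2 τ (cfc f a * x n) ^ 2 ≤ c ^ 2 * b n := by
      intro n
      have hfn : Continuous fun z => f z * (cut O n z : ℂ) := hf.mul (SpA_c (hc n))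
      have h4 : cfc f a * x n = cfc (fun z => f z * (cut O n z : ℂ)) a := by
        rw [hx', ← cfc_mul f (fun z => (cut O n z : ℂ)) a hf.continuousOn
          (SpA_c (hc n)).continuousOn]
      have h5 : c ^ 2 * b n = (τ (cfc (fun z => ((c ^ 2 * cut O n z : ℝ) : ℂ)) a)).re := by
        have h6 : cfc (fun z => ((c ^ 2 * cut O n z : ℝ) : ℂ)) a = ((c ^ 2 : ℝ) : ℂ) • x n := by
          rw [hx', ← cfc_smul ((c ^ 2 : ℝ) : ℂ) (fun z => (cut O n z : ℂ)) a
            (SpA_c (hc n)).continuousOn]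
          refine cfc_congr fun z _ => ?_
          change ((c ^ 2 * cut O n z : ℝ) : ℂ) = ((c ^ 2 : ℝ) : ℂ) * (cut O n z : ℂ)
          rw [Complex.ofReal_mul]
        rw [h6, map_smul, smul_eq_mul, Complex.re_ofReal_mul, hb']
      rw [h4, norm2_cfc_sq hτ ha hfn.continuousOn, h5]
      refine tr_cfc_mono hτ ha (hfn.norm.pow 2).continuousOn
        (continuous_const.mul (hc n)).continuousOn fun z hz => ?_
      rw [norm_mul, Complex.norm_real, Real.norm_eq_abs, abs_of_nonneg (h0 n z), mul_pow]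
      by_cases hzO : z ∈ O
      · have h6 : ‖f z‖ ^ 2 ≤ c ^ 2 := pow_le_pow_left₀ (norm_nonneg _) (hfc z hz hzO) 2
        have h7 : cut O n z ^ 2 ≤ cut O n z := by nlinarith [h0 n z, h1 n z]
        exact mul_le_mul h6 h7 (sq_nonneg _) (sq_nonneg _)
      · rw [hO n z hzO]
        simp
    exact le_of_tendsto_of_tendsto' ((lim2_norm2 hτ h2).pow 2) (hbt.const_mul (c ^ 2)) h3

end Pool.Agent.Lib.MP_5d1ef1_an_SC
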