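import Pool.Agent.Lib.MP_5d1ef1_an_SC.NrB

set_option autoImplicit false

/-!
# MP_5d1ef1_an, project SC: tensor products: the selfadjoint elements
-/

namespace Pool.Agent.Lib.MP_5d1ef1_an_SC

open Filter Topology

universe u v w

variable {P : Type u} {Q : Type v} {N : Type w} [CStarAlgebra P] [CStarAlgebra Q]
  [CStarAlgebra N] {τP : P →ₗ[ℂ] ℂ} {τQ : Q →ₗ[ℂ] ℂ} {τ : N →ₗ[ℂ] ℂ} {i : P →⋆ₐ[ℂ] N}
  {j : Q →⋆ₐ[ℂ] N}

theorem tensor_swap (h : IsTensor τP τQ τ i j) : IsTensor τQ τP τ j i := by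
  refine ⟨fun p q => (h.comm q p).symm, fun p q => ?_, fun x ε hε => ?_⟩
  · rw [← h.comm, h.tr, mul_comm]
  · have h1 : {z : N | ∃ (p : Q) (q : P), z = j p * i q} =
        {z : N | ∃ (p : P) (q : Q), z = i p * j q} := by
      ext z
      constructor
      · rintro ⟨p, q, rfl⟩
        exact ⟨q, p, (h.comm q p).symm⟩
      · rintro ⟨p, q, rfl⟩
        exact ⟨q, p, h.comm p q⟩
    rw [h1]
    exact h.dense x ε hε

/-- the products of selfadjoint elements of the two factors -/
def SaProd (i : P →⋆ₐ[ℂ] N) (j : Q →⋆ₐ[ℂ] N) : Set N :=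
  {x | ∃ (a : P) (b : Q), star a = a ∧ star b = b ∧ x = i a * j b}

/-- the members of the real span are selfadjoint -/
theorem TeA_star (h : IsTensor τP τQ τ i j) {x : N} (hx : x ∈ Submodule.span ℝ (SaProd i j)) :
    star x = x := by
  induction hx using Submodule.span_induction with
  | mem x hx =>
    obtain ⟨a, b, ha, hb, rfl⟩ := hx
    rw [star_mul, ← map_star, ← map_star, ha, hb, h.comm]
  | zero => exact star_zero N
  | add x y _ _ hx hy => rw [star_add, hx, hy]
  | smul c x _ hx => rw [star_smul, hx, star_trivial]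

/-- real and imaginary parts -/
theorem TeA_dec {x : N}
    (hx : x ∈ Submodule.span ℂ {z : N | ∃ (p : P) (q : Q), z = i p * j q}) :
    ∃ y₁ ∈ Submodule.span ℝ (SaProd i j), ∃ y₂ ∈ Submodule.span ℝ (SaProd i j),
      x = y₁ + Complex.I • y₂ := by
  induction hx using Submodule.span_induction with
  | mem x hx =>
    obtain ⟨p, q, rfl⟩ := hx
    have hp := realPart_add_I_smul_imaginaryPart p
    have hq := realPart_add_I_smul_imaginaryPart q
    have m1 : ∀ (a : selfAdjoint P) (b : selfAdjoint Q),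
        i (a : P) * j (b : Q) ∈ Submodule.span ℝ (SaProd i j) := fun a b =>
      Submodule.subset_span ⟨a, b, selfAdjoint.star_val_eq, selfAdjoint.star_val_eq, rfl⟩
    refine ⟨i (realPart p : P) * j (realPart q : Q) - i (imaginaryPart p : P) *
      j (imaginaryPart q : Q), Submodule.sub_mem _ (m1 _ _) (m1 _ _),
      i (realPart p : P) * j (imaginaryPart q : Q) + i (imaginaryPart p : P) *
      j (realPart q : Q), Submodule.add_mem _ (m1 _ _) (m1 _ _), ?_⟩
    conv_lhs => rw [← hp, ← hq]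
    rw [map_add, map_add, map_smul, map_smul, add_mul, mul_add, mul_add, smul_mul_smul_comm,
      Complex.I_mul_I, smul_mul_assoc, mul_smul_comm, smul_add, neg_smul, one_smul]
    abel
  | zero => exact ⟨0, Submodule.zero_mem _, 0, Submodule.zero_mem _, by simp⟩
  | add x y _ _ hx hy =>
    obtain ⟨x₁, hx₁, x₂, hx₂, ex⟩ := hx
    obtain ⟨y₁, hy₁, y₂, hy₂, ey⟩ := hy
    refine ⟨x₁ + y₁, Submodule.add_mem _ hx₁ hy₁, x₂ + y₂, Submodule.add_mem _ hx₂ hy₂, ?_⟩
    rw [ex, ey, smul_add]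
    abel
  | smul c x _ hx =>
    obtain ⟨x₁, hx₁, x₂, hx₂, ex⟩ := hx
    refine ⟨c.re • x₁ - c.im • x₂,
      Submodule.sub_mem _ (Submodule.smul_mem _ _ hx₁) (Submodule.smul_mem _ _ hx₂),
      c.re • x₂ + c.im • x₁,
      Submodule.add_mem _ (Submodule.smul_mem _ _ hx₂) (Submodule.smul_mem _ _ hx₁), ?_⟩
    rw [ex]
    have h1 : c = (c.re : ℂ) + (c.im : ℂ) * Complex.I := (Complex.re_add_im c).symm
    have h2 : ∀ (r : ℝ) (z : N), r • z = (r : ℂ) • z := fun r z => (Complex.coe_smul r z).symm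
    rw [h2, h2, h2, h2]
    conv_lhs => rw [h1]
    have h3 : (c.im : ℂ) * Complex.I * Complex.I = -(c.im : ℂ) := by
      rw [mul_assoc, Complex.I_mul_I, mul_neg_one]
    rw [smul_add, smul_add, add_smul, add_smul, smul_smul, smul_smul, smul_smul, smul_smul,
      h3, mul_comm Complex.I (c.re : ℂ), mul_comm Complex.I (c.im : ℂ), neg_smul]
    abel

/-- Every `y` in the complex span of the products is `y₁ + i y₂` with `y₁`, `y₂` in the real span of
`SaProd` (real and imaginary parts of `p` and `q`); for selfadjoint `x` replace the approximation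
`y` by `y₁ = (y + star y) / 2`. -/
theorem sa_dense (hτ : TracialVN τ) (h : IsTensor τP τQ τ i j) (x : N) (hx : star x = x)
    {ε : ℝ} (hε : 0 < ε) :
    ∃ b ∈ Submodule.span ℝ (SaProd i j), norm2 τ (x - b) ≤ ε := by
  obtain ⟨y, hy, hxy⟩ := h.dense x ε hε
  obtain ⟨y₁, hy₁, y₂, hy₂, rfl⟩ := TeA_dec hy
  refine ⟨y₁, hy₁, ?_⟩
  have s1 := TeA_star h hy₁
  have s2 := TeA_star h hy₂
  have e1 : x - y₁ = (1 / 2 : ℂ) • ((x - (y₁ + Complex.I • y₂)) +
      star (x - (y₁ + Complex.I • y₂))) := by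
    have e2 : star (x - (y₁ + Complex.I • y₂)) = x - (y₁ - Complex.I • y₂) := by
      rw [star_sub, star_add, star_smul, hx, s1, s2, Complex.star_def, Complex.conj_I, neg_smul]
      abel
    rw [e2]
    have e3 : x - (y₁ + Complex.I • y₂) + (x - (y₁ - Complex.I • y₂)) = (2 : ℂ) • (x - y₁) := by
      rw [two_smul]
      abel
    rw [e3, smul_smul]
    norm_num
  rw [e1, norm2_smul]
  have h1 := norm2_add_le hτ (x - (y₁ + Complex.I • y₂)) (star (x - (y₁ + Complex.I • y₂)))
  rw [norm2_star hτ] at h1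
  have h2 : ‖(1 / 2 : ℂ)‖ = 1 / 2 := by norm_num
  rw [h2]
  linarith

theorem emb_norm2 (hQ : TracialVN τQ) (h : IsTensor τP τQ τ i j) (p : P) :
    norm2 τ (i p) = norm2 τP p := by
  unfold norm2
  have h1 := h.tr (star p * p) 1
  rw [map_one, mul_one, hQ.one, mul_one, map_mul, map_star] at h1
  rw [h1]

theorem emb_haar (hQ : TracialVN τQ) (h : IsTensor τP τQ τ i j) {p : P}
    (hp : IsHaar τP p) : IsHaar τ (i p) := by
  have h1 : ∀ q : P, τ (i q) = τP q := by
    intro q
    have h2 := h.tr q 1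
    rwa [map_one, mul_one, hQ.one, mul_one] at h2
  refine ⟨?_, fun k hk => ?_, fun k hk => ?_⟩
  · rw [Unitary.mem_iff]
    have h3 := Unitary.mem_iff.1 hp.mem
    rw [← map_star, ← map_mul, ← map_mul, h3.1, h3.2, map_one]
    exact ⟨rfl, rfl⟩
  · rw [← map_pow, h1, hp.pow k hk]
  · rw [← map_star, ← map_pow, h1, hp.npow k hk]

end Pool.Agent.Lib.MP_5d1ef1_an_SC
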