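import Pool.Agent.Lib.MP_5d1ef1_an_SC.Lg

set_option autoImplicit false

/-!
# MP_5d1ef1_an, project SC: the Lie-Trotter formula
-/

namespace Pool.Agent.Lib.MP_5d1ef1_an_SC

open Filter Topology

universe u v w

variable {N : Type u} [CStarAlgebra N] {τ : N →ₗ[ℂ] ℂ}

private lemma TrB_pow {A B : N} (hA : A ∈ unitary N) (hB : B ∈ unitary N) (n : ℕ) :
    ‖A ^ n - B ^ n‖ ≤ n * ‖A - B‖ := by
  induction n with
  | zero => simp
  | succ n ih =>
    have h1 : A ^ (n + 1) - B ^ (n + 1) = A ^ n * (A - B) + (A ^ n - B ^ n) * B := by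
      rw [pow_succ, pow_succ, mul_sub, sub_mul]
      abel
    rw [h1]
    refine (norm_add_le _ _).trans ?_
    rw [CStarRing.norm_mem_unitary_mul _ (pow_mem hA n), CStarRing.norm_mul_mem_unitary _ hB]
    push_cast
    linarith

private lemma TrB_deriv (a b : N) : HasDerivAt (fun t : ℂ => NormedSpace.exp (t • a) *
    NormedSpace.exp (t • b) - NormedSpace.exp (t • (a + b))) 0 0 := by
  have h1 := hasDerivAt_exp_smul_const (𝕂 := ℂ) a (0 : ℂ)
  have h2 := hasDerivAt_exp_smul_const (𝕂 := ℂ) b (0 : ℂ)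
  have h3 := hasDerivAt_exp_smul_const (𝕂 := ℂ) (a + b) (0 : ℂ)
  have h4 := (h1.mul h2).sub h3
  have h5 : NormedSpace.exp ((0 : ℂ) • a) * a * NormedSpace.exp ((0 : ℂ) • b) +
      NormedSpace.exp ((0 : ℂ) • a) * (NormedSpace.exp ((0 : ℂ) • b) * b) -
      NormedSpace.exp ((0 : ℂ) • (a + b)) * (a + b) = 0 := by
    simp only [zero_smul, NormedSpace.exp_zero, one_mul, mul_one, sub_self]
  rw [h5] at h4
  exact h4

private lemma TrB_star {h : N} (hh : star h = h) (L : ℕ) :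
    star ((1 / L : ℂ) • h) = (1 / L : ℂ) • h := by
  rw [star_smul, hh]
  simp

/-- Lie-Trotter: `‖ex (h / L) * ex (k / L) - ex ((h + k) / L)‖ ≤ C / L ^ 2`, telescoping. -/
theorem trotter {h k : N} (hh : star h = h) (hk : star k = k) {ε : ℝ} (hε : 0 < ε) :
    ∃ L : ℕ, 0 < L ∧
      ‖ex (h + k) - (ex ((1 / L : ℂ) • h) * ex ((1 / L : ℂ) • k)) ^ L‖ ≤ ε := by
  have hex : ∀ (t : ℂ) (x : N), ex (t • x) = NormedSpace.exp (t • ((Complex.I : ℂ) • x)) := by
    intro t x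
    unfold ex
    rw [smul_comm]
  have hd := TrB_deriv ((Complex.I : ℂ) • h) ((Complex.I : ℂ) • k)
  rw [hasDerivAt_iff_isLittleO] at hd
  have h5 := hd.def hε
  have h6 : Tendsto (fun L : ℕ => (1 / L : ℂ)) atTop (𝓝 0) := by
    simpa using tendsto_inv_atTop_nhds_zero_nat (𝕜 := ℂ)
  obtain ⟨L, hL1, hL2⟩ := ((h6.eventually h5).and (eventually_gt_atTop 0)).exists
  refine ⟨L, hL2, ?_⟩
  have hs : star (h + k) = h + k := by rw [star_add, hh, hk]
  have e1 := (ex_facts hs).2.2.2 L hL2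
  have u1 := (ex_facts (TrB_star hh L)).1
  have u2 := (ex_facts (TrB_star hk L)).1
  have u3 := (ex_facts (TrB_star hs L)).1
  rw [← e1]
  refine (TrB_pow u3 (mul_mem u1 u2) L).trans ?_
  have hL0 : (0 : ℝ) < L := by exact_mod_cast hL2
  have h7 : ‖ex ((1 / L : ℂ) • (h + k)) - ex ((1 / L : ℂ) • h) * ex ((1 / L : ℂ) • k)‖ ≤
      ε * (1 / L) := by
    rw [hex, hex, hex, norm_sub_rev, smul_add (Complex.I : ℂ) h k]
    simpa using hL1
  calc (L : ℝ) * ‖ex ((1 / L : ℂ) • (h + k)) - ex ((1 / L : ℂ) • h) * ex ((1 / L : ℂ) • k)‖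
      ≤ L * (ε * (1 / L)) := mul_le_mul_of_nonneg_left h7 hL0.le
    _ = ε := by
      field_simp

end Pool.Agent.Lib.MP_5d1ef1_an_SC
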