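import Pool.Agent.Lib.MP_5d1ef1_an_SC.TeA
import Pool.Agent.Lib.MP_5d1ef1_an_SC.Rr
import Pool.Agent.Lib.MP_5d1ef1_an_SC.Alm
import Pool.Agent.Lib.MP_5d1ef1_an_SC.HEx
import Pool.Agent.Lib.MP_5d1ef1_an_SC.Tr

set_option autoImplicit false

/-!
# MP_5d1ef1_an, project SC: tensor products: one exponential
-/

namespace Pool.Agent.Lib.MP_5d1ef1_an_SC

open Filter Topology

universe u v w

variable {P : Type u} {Q : Type v} {N : Type w} [CStarAlgebra P] [CStarAlgebra Q]
  [CStarAlgebra N] {τP : P →ₗ[ℂ] ℂ} {τQ : Q →ₗ[ℂ] ℂ} {τ : N →ₗ[ℂ] ℂ} {i : P →⋆ₐ[ℂ] N}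
  {j : Q →⋆ₐ[ℂ] N}

section

variable {N : Type u} [CStarAlgebra N] {τ : N →ₗ[ℂ] ℂ}

theorem TeB_ex_conj {W X : N} (hW : W ∈ unitary N) : ex (W * X * star W) = W * ex X * star W := by
  let _ : NormedAlgebra ℚ N := .restrictScalars ℚ ℂ N
  let y : Nˣ := ⟨W, star W, Unitary.mul_star_self_of_mem hW, Unitary.star_mul_self_of_mem hW⟩
  have h1 : (y : N) = W := rfl
  have h2 : ((y⁻¹ : Nˣ) : N) = star W := rfl
  have h3 := NormedSpace.exp_units_conj y ((Complex.I : ℂ) • X)
  rw [h1, h2, mul_smul_comm, smul_mul_assoc] at h3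
  exact h3

theorem TeB_conj_comm {g x y : N} (hg : g ∈ unitary N) (h : x * y = y * x) :
    g * x * star g * (g * y * star g) = g * y * star g * (g * x * star g) := by
  have h0 : star g * g = 1 := Unitary.star_mul_self_of_mem hg
  have key : ∀ s t : N, g * s * star g * (g * t * star g) = g * (s * t) * star g := by
    intro s t
    calc g * s * star g * (g * t * star g) = g * s * (star g * g) * t * star g := by
          simp only [mul_assoc]
      _ = _ := by rw [h0, mul_one]; simp only [mul_assoc]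
  rw [key, key, h]

theorem TeB_comm_le (hτ : TracialVN τ) {W J g : N} (hW : W ∈ unitary N) (hJ : J ∈ unitary N)
    (hg : g ∈ unitary N) (h : W * J = J * W) :
    norm2 τ (W * (g * J * star g) - g * J * star g * W) ≤
      2 * norm2 τ (W * g * star W - g) := by
  have hW1 : star W * W = 1 := Unitary.star_mul_self_of_mem hW
  have hW2 : W * star W = 1 := Unitary.mul_star_self_of_mem hW
  rw [norm2_comm_unit hτ hW]
  have hJW : W * J * star W = J := by rw [h, mul_assoc, hW2, mul_one]
  set G : N := W * g * star W with hG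
  have hGm : G ∈ unitary N := mul_mem (mul_mem hW hg) (Unitary.star_mem hW)
  have h1 : W * (g * J * star g) * star W = G * J * star G := by
    calc W * (g * J * star g) * star W
        = W * g * (star W * W) * J * (star W * W) * star g * star W := by
          rw [hW1]; simp only [mul_assoc, mul_one]
      _ = W * g * star W * (W * J * star W) * (W * star g * star W) := by
          simp only [mul_assoc]
      _ = G * J * star G := by
          rw [hJW, hG, star_mul, star_mul, star_star]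
          simp only [mul_assoc]
  have h2 : G * J * star G - g * J * star g =
      (G - g) * (J * star G) + g * J * star (G - g) := by
    rw [star_sub]
    noncomm_ring
  rw [h1, h2]
  refine (norm2_add_le hτ _ _).trans ?_
  rw [norm2_mul_unit hτ (mul_mem hJ (Unitary.star_mem hGm)), norm2_unit_mul (mul_mem hg hJ),
    norm2_star hτ]
  linarith

end

/-- `g = ex (i a * j b)`, `q₀` a Haar unitary of `Q` (`exists_haar`), and for every `ε'` a Haar
unitary `w₀` of `P` with `norm2 (w₀ a - a w₀) ≤ ε'` (`haar_almost`).  Use `rr_three` with `i p`,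
`j q₀`, `i w₀`, `g * j q₀ * star g`, `g * i p * star g`.  As `j q₀` and `i w₀` commute,
`norm2 [i w₀, g (j q₀) star g] ≤ 2 norm2 (i w₀ * g * star (i w₀) - g)`, and
`i w₀ * g * star (i w₀) = ex (i w₀ * X * star (i w₀))`, `X = i a * j b`, so by `ex_lip` this is at
most `2 norm2 (i (w₀ a - a w₀) * j b) ≤ 2 ‖j b‖ ε'`. -/
theorem ten_exp (hτ : TracialVN τ) (hP : II1 τP) (hQ : II1 τQ) (h : IsTensor τP τQ τ i j)
    {p : P} (hp : IsHaar τP p) {a : P} {b : Q} (ha : star a = a) (hb : star b = b) :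
    RR τ 3 (i p) (ex (i a * j b) * i p * star (ex (i a * j b))) := by
  have hX : star (i a * j b) = i a * j b := by
    rw [star_mul, ← map_star, ← map_star, ha, hb, h.comm]
  obtain ⟨hg, -⟩ := ex_facts hX
  obtain ⟨q₀, hq₀⟩ := exists_haar hQ
  have hJ : IsHaar τ (j q₀) := emb_haar hP.toTracialVN (tensor_swap h) hq₀
  refine rr_three hτ hJ (haar_conj hτ hJ hg) (h.comm p q₀) ?_ ?_
  · exact TeB_conj_comm hg (h.comm p q₀).symm
  intro ε hε
  have hM : 0 < 2 * (‖j b‖ + 1) := by positivity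
  obtain ⟨w₀, hw₀, hw⟩ := haar_almost hP hp ha (div_pos hε hM)
  have hW : IsHaar τ (i w₀) := emb_haar hQ.toTracialVN h hw₀
  refine ⟨i w₀, hW, (h.comm w₀ q₀).symm, ?_⟩
  have hWX : star (i w₀ * (i a * j b) * star (i w₀)) = i w₀ * (i a * j b) * star (i w₀) := by
    rw [star_mul, star_mul, star_star, hX]
    simp only [mul_assoc]
  have h1 : norm2 τ (i w₀ * ex (i a * j b) * star (i w₀) - ex (i a * j b)) ≤
      ε / (2 * (‖j b‖ + 1)) * ‖j b‖ := by
    rw [← TeB_ex_conj hW.mem]
    refine (ex_lip hτ hWX hX).trans ?_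
    rw [← norm2_comm_unit hτ hW.mem]
    have h2 : i w₀ * (i a * j b) - i a * j b * i w₀ = i (w₀ * a - a * w₀) * j b := by
      rw [map_sub, map_mul, map_mul, sub_mul, mul_assoc, mul_assoc, mul_assoc, ← h.comm]
    rw [h2]
    refine (norm2_mul_right hτ _ _).trans ?_
    rw [emb_norm2 hQ.toTracialVN h]
    exact mul_le_mul_of_nonneg_right hw (norm_nonneg _)
  refine (TeB_comm_le hτ hW.mem hJ.mem hg (h.comm w₀ q₀)).trans ?_
  refine (mul_le_mul_of_nonneg_left h1 zero_le_two).trans ?_
  have h3 : 2 * (ε / (2 * (‖j b‖ + 1)) * ‖j b‖) = ε * (‖j b‖ / (‖j b‖ + 1)) := by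
    field_simp
  rw [h3]
  have h4 : ‖j b‖ / (‖j b‖ + 1) ≤ 1 := by
    rw [div_le_one (by positivity)]
    linarith
  nlinarith

end Pool.Agent.Lib.MP_5d1ef1_an_SC
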