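import Pool.Agent.Lib.MP_5d1ef1_an_SC.TeB
import Pool.Agent.Lib.MP_5d1ef1_an_SC.Dg
import Pool.Agent.Lib.MP_5d1ef1_an_SC.Dc

set_option autoImplicit false

/-!
# MP_5d1ef1_an, project SC: tensor products: density
-/

namespace Pool.Agent.Lib.MP_5d1ef1_an_SC

open Filter Topology

universe u v w

variable {P : Type u} {Q : Type v} {N : Type w} [CStarAlgebra P] [CStarAlgebra Q]
  [CStarAlgebra N] {τP : P →ₗ[ℂ] ℂ} {τQ : Q →ₗ[ℂ] ℂ} {τ : N →ₗ[ℂ] ℂ} {i : P →⋆ₐ[ℂ] N}
  {j : Q →⋆ₐ[ℂ] N}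

/-- Let `S` be the set of the unitaries `g` such that for every Haar unitary `x` with
`∃ n, RR n (i p) x` also `∃ n, RR n (i p) (g * x * star g)`.  It is closed under products, contains 1
and the `ex (t (i a * j b))` (`ten_exp`, `rr_conj`, `rr_trans`), so it is dense in the unitaries
(`dense_unitary`, `sa_dense`).  For a Haar unitary `v` take `g` with
`norm2 (g * i p * star g - v) ≤ ε / 2` (`haar_approx`) and `s ∈ S` with `norm2 (g - s) ≤ ε / 8`. -/
theorem ten_dense (hN : II1 τ) (hP : II1 τP) (hQ : II1 τQ) (h : IsTensor τP τQ τ i j)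
    {p : P} (hp : IsHaar τP p) :
    Dns τ {v | IsHaar τ v ∧ ∃ n, RR τ n (i p) v} := by
  have hτ : TracialVN τ := hN.toTracialVN
  have hu : IsHaar τ (i p) := emb_haar hQ.toTracialVN h hp
  set S : Set N := {g | g ∈ unitary N ∧ ∀ x : N, IsHaar τ x → (∃ n, RR τ n (i p) x) →
    ∃ n, RR τ n (i p) (g * x * star g)} with hS
  have hSu : ∀ s ∈ S, s ∈ unitary N := fun s hs => hs.1
  have hSm : ∀ s ∈ S, ∀ t ∈ S, s * t ∈ S := by
    intro s hs t ht
    refine ⟨mul_mem hs.1 ht.1, fun x hx hxn => ?_⟩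
    have h1 : s * t * x * star (s * t) = s * (t * x * star t) * star s := by
      rw [star_mul]
      simp only [mul_assoc]
    rw [h1]
    exact hs.2 _ (haar_conj hτ hx ht.1) (ht.2 x hx hxn)
  have hS1 : (1 : N) ∈ S := by
    refine ⟨one_mem _, fun x _ hxn => ?_⟩
    rwa [one_mul, star_one, mul_one]
  have hA : ∀ a ∈ SaProd i j, star a = a := by
    rintro _ ⟨a, b, ha, hb, rfl⟩
    rw [star_mul, ← map_star, ← map_star, ha, hb, h.comm]
  have hex : ∀ a ∈ SaProd i j, ∀ t : ℝ, ex ((t : ℂ) • a) ∈ S := by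
    rintro _ ⟨a, b, ha, hb, rfl⟩ t
    have ha' : star ((t : ℂ) • a) = (t : ℂ) • a := by
      rw [star_smul, ha]
      simp
    have h1 : (t : ℂ) • (i a * j b) = i ((t : ℂ) • a) * j b := by
      rw [map_smul, smul_mul_assoc]
    rw [h1]
    have hX : star (i ((t : ℂ) • a) * j b) = i ((t : ℂ) • a) * j b := by
      rw [star_mul, ← map_star, ← map_star, ha', hb, h.comm]
    have hg := (ex_facts hX).1
    refine ⟨hg, fun x hx hxn => ?_⟩
    obtain ⟨n, hn⟩ := hxn
    exact ⟨_, rr_trans hτ (haar_conj hτ hu hg) (ten_exp hτ hP hQ h hp ha' hb)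
      (rr_conj hτ hg hn)⟩
  intro v hv ε hε
  obtain ⟨g, hg, hgv⟩ := haar_approx hN hu hv (show 0 < ε / 4 by linarith)
  obtain ⟨s, hs, hgs⟩ := dense_unitary hτ hSu hSm hS1 hA hex
    (fun x hx ε hε => sa_dense hτ h x hx hε) hg (show 0 < ε / 8 by linarith)
  have hv' : IsHaar τ (s * i p * star s) := haar_conj hτ hu hs.1
  refine ⟨s * i p * star s, ⟨hv', hs.2 _ hu ⟨0, rr_refl hτ _⟩⟩, hv', ?_⟩
  have h1 : s * i p * star s - g * i p * star g =
      (s - g) * (i p * star s) + g * i p * star (s - g) := by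
    rw [star_sub]
    noncomm_ring
  have h2 : norm2 τ (s * i p * star s - g * i p * star g) ≤ ε / 4 := by
    rw [h1]
    refine (norm2_add_le hτ _ _).trans ?_
    rw [norm2_mul_unit hτ (mul_mem hu.mem (Unitary.star_mem hs.1)),
      norm2_unit_mul (mul_mem hg hu.mem), norm2_star hτ, norm2_sub_comm]
    linarith
  have h3 := norm2_tri hτ (s * i p * star s) (g * i p * star g) v
  linarith

end Pool.Agent.Lib.MP_5d1ef1_an_SC
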