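import Pool.Agent.Lib.MP_5d1ef1_an_SC.Lg

set_option autoImplicit false

/-!
# MP_5d1ef1_an, project SC: the exponential is Lipschitz for the 2-norm
-/

namespace Pool.Agent.Lib.MP_5d1ef1_an_SC

open Filter Topology

universe u v w

variable {N : Type u} [CStarAlgebra N] {τ : N →ₗ[ℂ] ℂ}

theorem TrA_star {h : N} (hh : star h = h) (L : ℕ) :
    star ((1 / L : ℂ) • h) = (1 / L : ℂ) • h := by
  rw [star_smul, hh]
  simp

theorem TrA_pow (hτ : TracialVN τ) {a b : N} (ha : a ∈ unitary N) (hb : b ∈ unitary N) (n : ℕ) :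
    norm2 τ (a ^ n - b ^ n) ≤ n * norm2 τ (a - b) := by
  induction n with
  | zero => simp [norm2_zero]
  | succ n ih =>
    have h1 : a ^ (n + 1) - b ^ (n + 1) = a ^ n * (a - b) + (a ^ n - b ^ n) * b := by
      rw [pow_succ, pow_succ]
      noncomm_ring
    rw [h1]
    refine (norm2_add_le hτ _ _).trans ?_
    rw [norm2_unit_mul (pow_mem ha n), norm2_mul_unit hτ hb]
    push_cast
    linarith

theorem TrA_lim (h : N) : Tendsto (fun L : ℕ => (L : ℂ) • (ex ((1 / L : ℂ) • h) - 1)) atTop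
    (𝓝 ((Complex.I : ℂ) • h)) := by
  have h1 := hasDerivAt_exp_smul_const (𝕂 := ℂ) ((Complex.I : ℂ) • h) (0 : ℂ)
  rw [zero_smul, NormedSpace.exp_zero, one_mul, hasDerivAt_iff_tendsto_slope_zero] at h1
  have h2 : Tendsto (fun L : ℕ => (1 / L : ℂ)) atTop (𝓝[≠] 0) := by
    refine tendsto_nhdsWithin_iff.2 ⟨tendsto_one_div_atTop_nhds_zero_nat, ?_⟩
    filter_upwards [eventually_gt_atTop 0] with L hL
    simp [hL.ne']
  refine (h1.comp h2).congr fun L => ?_
  simp only [Function.comp_apply, zero_add, zero_smul, NormedSpace.exp_zero, one_div, inv_inv]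
  rw [ex, smul_comm]

/-- `ex h - ex k = ∑ j < L, ex (h / L) ^ j * (ex (h / L) - ex (k / L)) * ex (k / L) ^ (L - 1 - j)`
and `‖ex (h / L) - ex (k / L) - i (h - k) / L‖ ≤ C / L ^ 2`; let `L → ∞`. -/
theorem ex_lip (hτ : TracialVN τ) {h k : N} (hh : star h = h) (hk : star k = k) :
    norm2 τ (ex h - ex k) ≤ norm2 τ (h - k) := by
  have h1 : ∀ᶠ L : ℕ in atTop, norm2 τ (ex h - ex k) ≤
      norm2 τ ((L : ℂ) • (ex ((1 / L : ℂ) • h) - 1) - (L : ℂ) • (ex ((1 / L : ℂ) • k) - 1)) := by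
    filter_upwards [eventually_gt_atTop 0] with L hL
    have ha : star ((1 / L : ℂ) • h) = (1 / L : ℂ) • h := TrA_star hh L
    have hb : star ((1 / L : ℂ) • k) = (1 / L : ℂ) • k := TrA_star hk L
    have h2 := TrA_pow hτ (ex_facts ha).1 (ex_facts hb).1 L
    rw [(ex_facts hh).2.2.2 L hL, (ex_facts hk).2.2.2 L hL] at h2
    refine h2.trans (le_of_eq ?_)
    rw [← smul_sub, sub_sub_sub_cancel_right, norm2_smul]
    simp
  have h3 : Tendsto (fun L : ℕ => (L : ℂ) • (ex ((1 / L : ℂ) • h) - 1) -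
      (L : ℂ) • (ex ((1 / L : ℂ) • k) - 1)) atTop (𝓝 ((Complex.I : ℂ) • h - (Complex.I : ℂ) • k)) :=
    (TrA_lim h).sub (TrA_lim k)
  have h4 := lim2_norm2 hτ (lim2_of_norm hτ h3)
  have h5 := ge_of_tendsto h4 h1
  rw [← smul_sub, norm2_smul] at h5
  simpa using h5

end Pool.Agent.Lib.MP_5d1ef1_an_SC
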